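import Pool.Agent.H91.PH.Mean

/-!
Abelian groups have invariant means.
-/

set_option autoImplicit false

open scoped Topology
open Filter Finset

namespace Pool.Agent.H91.PH

variable {S : Type*} [AddCommGroup S]

/-- Evaluation at a point. -/
def Mean.dirac (s₀ : S) : Mean S where
  M := fun φ => φ s₀
  add := fun _ _ _ _ _ _ => rfl
  smul := fun _ _ _ _ => rfl
  bound := fun _ _ h => h s₀
  const := fun _ => rfl
  pos := fun _ _ _ _ h => h s₀

/-- The average over an arithmetic progression. -/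
noncomputable def ap (n : ℕ) (t : S) (φ : S → ℂ) (s : S) : ℂ :=
  ((n : ℂ) + 1)⁻¹ * ∑ k ∈ range (n + 1), φ (s + k • t)

lemma ap_bound (n : ℕ) (t : S) {φ : S → ℂ} {K : ℝ} (h : ∀ s, ‖φ s‖ ≤ K) (s : S) :
    ‖ap n t φ s‖ ≤ K := by
  unfold ap
  have h0 : (0 : ℝ) < (n : ℝ) + 1 := by positivity
  have h1 : ‖((n : ℂ) + 1)⁻¹‖ = ((n : ℝ) + 1)⁻¹ := by
    rw [norm_inv]
    congr 1
    have : ((n : ℂ) + 1) = (((n : ℝ) + 1 : ℝ) : ℂ) := by push_cast; rfl
    rw [this, Complex.norm_real, Real.norm_of_nonneg h0.le]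
  have h2 : ‖∑ k ∈ range (n + 1), φ (s + k • t)‖ ≤ ((n : ℝ) + 1) * K := by
    refine (norm_sum_le _ _).trans ?_
    refine (sum_le_sum fun k _ => h (s + k • t)).trans (le_of_eq ?_)
    rw [sum_const, card_range, nsmul_eq_mul]
    push_cast
    ring
  rw [norm_mul, h1, inv_mul_le_iff₀ h0]
  exact h2

lemma ap_re (n : ℕ) (t : S) {φ : S → ℂ} {c : ℝ} (h : ∀ s, c ≤ (φ s).re) (s : S) :
    c ≤ (ap n t φ s).re := by
  unfold ap
  have h0 : (0 : ℝ) < (n : ℝ) + 1 := by positivity
  have h1 : ((n : ℂ) + 1)⁻¹ = ((((n : ℝ) + 1)⁻¹ : ℝ) : ℂ) := by push_cast; rfl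
  rw [h1, Complex.re_ofReal_mul, le_inv_mul_iff₀ h0, Complex.re_sum]
  refine le_trans (le_of_eq ?_) (sum_le_sum fun k _ => h (s + k • t))
  rw [sum_const, card_range, nsmul_eq_mul]
  push_cast
  ring

/-- The mean composed with an average over an arithmetic progression. -/
noncomputable def Mean.ap (m : Mean S) (n : ℕ) (t : S) : Mean S where
  M := fun φ => m.M (PH.ap n t φ)
  add := by
    intro φ ψ K L hφ hψ
    rw [← m.add _ _ K L (ap_bound n t hφ) (ap_bound n t hψ)]
    congr 1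
    ext s
    unfold PH.ap
    rw [sum_add_distrib, mul_add]
  smul := by
    intro c φ K hφ
    rw [← m.smul c _ K (ap_bound n t hφ)]
    congr 1
    ext s
    unfold PH.ap
    rw [← mul_sum]
    ring
  bound := fun φ K h => m.bound _ K (ap_bound n t h)
  const := by
    intro c
    have h1 : PH.ap n t (fun _ => c) = fun _ => c := by
      ext s
      unfold PH.ap
      have h2 : ((n : ℂ) + 1) ≠ 0 := by exact_mod_cast Nat.succ_ne_zero n
      rw [sum_const, card_range, nsmul_eq_mul]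
      push_cast
      field_simp
    rw [h1, m.const]
  pos := fun φ K c h1 h2 => m.pos _ K c (ap_bound n t h1) (ap_re n t h2)

/-- The mean is almost invariant under the translation by `t`. -/
def Mean.Almost (m : Mean S) (ε : ℝ) (t : S) : Prop :=
  ∀ (φ : S → ℂ) (K : ℝ), (∀ s, ‖φ s‖ ≤ K) → ‖m.M (fun s => φ (s + t)) - m.M φ‖ ≤ ε * K

lemma Mean.sub (m : Mean S) (φ ψ : S → ℂ) (K L : ℝ) (hφ : ∀ s, ‖φ s‖ ≤ K)
    (hψ : ∀ s, ‖ψ s‖ ≤ L) : m.M (fun s => φ s - ψ s) = m.M φ - m.M ψ := by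
  have h1 := m.smul (-1) ψ L hψ
  have h2 := m.add φ (fun s => -1 * ψ s) K L hφ (fun s => by
    rw [norm_mul, norm_neg, norm_one, one_mul]; exact hψ s)
  rw [h1] at h2
  rw [sub_eq_add_neg, ← neg_one_mul, ← h2]
  congr 1
  ext s
  ring

lemma Mean.almost_ap (m : Mean S) (n : ℕ) (t : S) : (m.ap n t).Almost (2 / ((n : ℝ) + 1)) t := by
  intro φ K hφ
  change ‖m.M (PH.ap n t (fun s => φ (s + t))) - m.M (PH.ap n t φ)‖ ≤ _
  rw [← m.sub _ _ K K (ap_bound n t fun s => hφ (s + t)) (ap_bound n t hφ)]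
  refine m.bound _ _ fun s => ?_
  have h0 : (0 : ℝ) < (n : ℝ) + 1 := by positivity
  have e1 : PH.ap n t (fun s => φ (s + t)) s - PH.ap n t φ s =
      ((n : ℂ) + 1)⁻¹ * (φ (s + (n + 1) • t) - φ s) := by
    unfold PH.ap
    rw [← mul_sub, ← sum_sub_distrib]
    congr 1
    have h2 : ∀ k ∈ range (n + 1), φ (s + k • t + t) - φ (s + k • t) =
        (fun j : ℕ => φ (s + j • t)) (k + 1) - (fun j : ℕ => φ (s + j • t)) k := by
      intro k _
      simp only
      rw [succ_nsmul, ← add_assoc]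
    rw [sum_congr rfl h2, sum_range_sub (fun j : ℕ => φ (s + j • t)) (n + 1)]
    simp only [zero_nsmul, add_zero]
  rw [e1, norm_mul]
  have h1 : ‖((n : ℂ) + 1)⁻¹‖ = ((n : ℝ) + 1)⁻¹ := by
    rw [norm_inv]
    congr 1
    have : ((n : ℂ) + 1) = (((n : ℝ) + 1 : ℝ) : ℂ) := by push_cast; rfl
    rw [this, Complex.norm_real, Real.norm_of_nonneg h0.le]
  rw [h1]
  have h2 : ‖φ (s + (n + 1) • t) - φ s‖ ≤ K + K :=
    (norm_sub_le _ _).trans (add_le_add (hφ _) (hφ _))
  calc ((n : ℝ) + 1)⁻¹ * ‖φ (s + (n + 1) • t) - φ s‖ ≤ ((n : ℝ) + 1)⁻¹ * (K + K) := by gcongr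
    _ = 2 / ((n : ℝ) + 1) * K := by ring

lemma Mean.Almost.ap {m : Mean S} {ε : ℝ} {t : S} (h : m.Almost ε t) (n : ℕ) (r : S) :
    (m.ap n r).Almost ε t := by
  intro φ K hφ
  have e1 : PH.ap n r (fun s => φ (s + t)) = fun s => PH.ap n r φ (s + t) := by
    ext s
    unfold PH.ap
    congr 1
    refine sum_congr rfl fun k _ => ?_
    congr 1
    abel
  change ‖m.M (PH.ap n r (fun s => φ (s + t))) - m.M (PH.ap n r φ)‖ ≤ _
  rw [e1]
  exact h _ K (ap_bound n r hφ)

lemma exists_almost (F : Finset S) (n : ℕ) :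
    ∃ m : Mean S, ∀ t ∈ F, m.Almost (2 / ((n : ℝ) + 1)) t := by
  classical
  induction F using Finset.induction_on with
  | empty => exact ⟨Mean.dirac 0, by simp⟩
  | insert r F _ ih =>
    obtain ⟨m, hm⟩ := ih
    refine ⟨m.ap n r, ?_⟩
    intro t ht
    rw [Finset.mem_insert] at ht
    rcases ht with rfl | ht
    · exact m.almost_ap n t
    · exact (hm t ht).ap n r

open Classical in
/-- The limit along an ultrafilter. -/
noncomputable def ulim {ι : Type*} (ω : Ultrafilter ι) (f : ι → ℂ) : ℂ :=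
  if h : ∃ z, Tendsto f ω (𝓝 z) then h.choose else 0

lemma tendsto_ulim {ι : Type*} (ω : Ultrafilter ι) {f : ι → ℂ} {K : ℝ} (hf : ∀ i, ‖f i‖ ≤ K) :
    Tendsto f ω (𝓝 (ulim ω f)) := by
  have h : ∃ z, Tendsto f ω (𝓝 z) := by
    have hc : IsCompact (Metric.closedBall (0 : ℂ) K) := isCompact_closedBall 0 K
    obtain ⟨z, _, hz⟩ := hc.ultrafilter_le_nhds (ω.map f) (by
      rw [Filter.le_principal_iff]
      refine Filter.mem_map.mpr (Filter.univ_mem' fun i => ?_)
      simpa using hf i)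
    exact ⟨z, hz⟩
  unfold ulim
  rw [dif_pos h]
  exact h.choose_spec

/-- A limit of means. -/
noncomputable def Mean.lim {ι : Type*} (ω : Ultrafilter ι) (m : ι → Mean S) : Mean S where
  M := fun φ => ulim ω (fun i => (m i).M φ)
  add := by
    intro φ ψ K L hφ hψ
    have h1 := tendsto_ulim ω (fun i => (m i).bound φ K hφ)
    have h2 := tendsto_ulim ω (fun i => (m i).bound ψ L hψ)
    have h3 := tendsto_ulim ω (fun i => (m i).bound (fun s => φ s + ψ s) (K + L) fun s =>
      (norm_add_le _ _).trans (add_le_add (hφ s) (hψ s)))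
    refine tendsto_nhds_unique h3 ?_
    have h4 := h1.add h2
    refine h4.congr fun i => ?_
    rw [(m i).add φ ψ K L hφ hψ]
  smul := by
    intro c φ K hφ
    have h1 := tendsto_ulim ω (fun i => (m i).bound φ K hφ)
    have h3 := tendsto_ulim ω (fun i => (m i).bound (fun s => c * φ s) (‖c‖ * K) fun s => by
      rw [norm_mul]
      have := hφ s
      gcongr)
    refine tendsto_nhds_unique h3 ?_
    have h4 := h1.const_mul c
    refine h4.congr fun i => ?_
    rw [(m i).smul c φ K hφ]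
  bound := by
    intro φ K hφ
    have h1 := tendsto_ulim ω (fun i => (m i).bound φ K hφ)
    exact le_of_tendsto h1.norm (Eventually.of_forall fun i => (m i).bound φ K hφ)
  const := by
    intro c
    have h1 := tendsto_ulim ω (fun i => (m i).bound (fun _ => c) ‖c‖ fun _ => le_rfl)
    refine tendsto_nhds_unique h1 ?_
    refine tendsto_const_nhds.congr fun i => ?_
    rw [(m i).const]
  pos := by
    intro φ K c hφ hc
    have h1 := tendsto_ulim ω (fun i => (m i).bound φ K hφ)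
    exact ge_of_tendsto ((Complex.continuous_re.tendsto _).comp h1)
      (Eventually.of_forall fun i => (m i).pos φ K c hφ hc)

/-- Abelian groups are amenable. -/
theorem exists_mean (S : Type*) [AddCommGroup S] :
    ∃ m : Mean S, ∀ t : S, m.Inv (fun s => s + t) := by
  classical
  choose m hm using fun i : Finset S × ℕ => exists_almost i.1 i.2
  let ω : Ultrafilter (Finset S × ℕ) := Ultrafilter.of atTop
  have hω : (ω : Filter (Finset S × ℕ)) ≤ atTop := Ultrafilter.of_le atTop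
  refine ⟨Mean.lim ω m, ?_⟩
  intro t φ K hφ
  have h1 := tendsto_ulim ω (fun i => (m i).bound φ K hφ)
  have h2 := tendsto_ulim ω (fun i => (m i).bound (fun s => φ (s + t)) K fun s => hφ (s + t))
  change ulim ω (fun i => (m i).M fun s => φ (s + t)) = ulim ω (fun i => (m i).M φ)
  have h3 := h2.sub h1
  have h4 : Tendsto (fun i => (m i).M (fun s => φ (s + t)) - (m i).M φ) ω (𝓝 0) := by
    have h5 : Tendsto (fun i : Finset S × ℕ => 2 / ((i.2 : ℝ) + 1) * K) ω (𝓝 0) := by
      have h6 : Tendsto (fun n : ℕ => 2 / ((n : ℝ) + 1) * K) atTop (𝓝 0) := by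
        have h7 := (tendsto_one_div_add_atTop_nhds_zero_nat (𝕜 := ℝ)).const_mul (2 * K)
        rw [mul_zero] at h7
        refine h7.congr fun n => ?_
        ring
      have h8 : Tendsto (fun i : Finset S × ℕ => i.2) ω atTop := by
        have h9 : Tendsto (Prod.snd : Finset S × ℕ → ℕ) atTop atTop := by
          rw [← prod_atTop_atTop_eq]
          exact tendsto_snd
        exact h9.mono_left hω
      exact h6.comp h8
    refine squeeze_zero_norm' ?_ h5
    have h6 : ∀ᶠ i in (atTop : Filter (Finset S × ℕ)), t ∈ i.1 := by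
      filter_upwards [eventually_ge_atTop (({t} : Finset S), 0)] with i hi
      exact hi.1 (Finset.mem_singleton_self t)
    filter_upwards [hω h6] with i hi
    exact hm i t hi φ K hφ
  have h5 := tendsto_nhds_unique h3 h4
  exact sub_eq_zero.mp h5

end Pool.Agent.H91.PH
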