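import Mathlib

/-!
Commutative algebras which are finite-dimensional modulo nilpotent elements.
-/

set_option autoImplicit false

namespace Pool.Agent.H91.PH

/-- A commutative complex algebra which is finite-dimensional modulo its nilpotent elements has a
complete finite system of orthogonal idempotents such that every element is scalar modulo nilpotent
elements on every idempotent. -/
theorem exists_idempotents (R : Type) [CommRing R] [Algebra ℂ R] (F : Submodule ℂ R)
    [FiniteDimensional ℂ F] (hF : ∀ a : R, ∃ b ∈ F, IsNilpotent (a - b)) :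
    ∃ (ι : Type) (_ : Fintype ι) (e : ι → R), (∀ i, e i * e i = e i) ∧ ∑ i, e i = 1 ∧
      (∀ i j, i ≠ j → e i * e j = 0) ∧
      ∀ a : R, ∀ i, ∃ c : ℂ, IsNilpotent ((a - algebraMap ℂ R c) * e i) := by
  classical
  set Q := R ⧸ nilradical R with hQ
  let π : R →ₐ[ℂ] Q := Ideal.Quotient.mkₐ ℂ (nilradical R)
  have hπ : Function.Surjective π := Ideal.Quotient.mk_surjective
  have hfd : FiniteDimensional ℂ Q := by
    let g : F →ₗ[ℂ] Q := π.toLinearMap ∘ₗ F.subtype
    refine Module.Finite.of_surjective g ?_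
    intro q
    obtain ⟨a, rfl⟩ := hπ q
    obtain ⟨b, hb, hn⟩ := hF a
    refine ⟨⟨b, hb⟩, ?_⟩
    change π b = π a
    have h1 : a - b ∈ nilradical R := hn
    exact (Ideal.Quotient.eq.mpr h1).symm
  have hart : IsArtinianRing Q := IsArtinianRing.of_finite ℂ Q
  have hred : IsReduced Q :=
    (Ideal.isRadical_iff_quotient_reduced (nilradical R)).mp (Ideal.radical_isRadical _)
  have hfin : Finite (MaximalSpectrum Q) := inferInstance
  cases nonempty_fintype (MaximalSpectrum Q)
  let Φ := IsArtinianRing.equivPi Q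
  let e₀ : MaximalSpectrum Q → Q := fun I => Φ.symm (Pi.single I 1)
  have he₀ : CompleteOrthogonalIdempotents e₀ :=
    (CompleteOrthogonalIdempotents.single fun I : MaximalSpectrum Q => Q ⧸ I.asIdeal).map
      (Φ.symm.toAlgHom.toRingHom)
  have hker : ∀ x ∈ RingHom.ker (π : R →+* Q), IsNilpotent x := by
    intro x hx
    have h1 : x ∈ nilradical R := Ideal.Quotient.eq_zero_iff_mem.mp hx
    exact h1
  obtain ⟨e, he, hee⟩ := he₀.lift_of_isNilpotent_ker (f := (π : R →+* Q)) hker
    (fun i => by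
      obtain ⟨x, hx⟩ := hπ (e₀ i)
      exact ⟨x, hx⟩)
  have hπe : ∀ i, π (e i) = e₀ i := fun i => congrFun hee i
  refine ⟨MaximalSpectrum Q, inferInstance, e, fun i => he.idem i, he.complete,
    fun i j hij => he.ortho hij, ?_⟩
  intro a I
  -- the residue field is the field of complex numbers
  haveI : Nontrivial (Q ⧸ I.asIdeal) := Ideal.Quotient.nontrivial_iff.mpr I.isMaximal.ne_top
  letI : Field (Q ⧸ I.asIdeal) := @Ideal.Quotient.field _ _ I.asIdeal I.isMaximal
  have hint : Algebra.IsIntegral ℂ (Q ⧸ I.asIdeal) := inferInstance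
  have hbij := IsAlgClosed.algebraMap_bijective_of_isIntegral (k := ℂ) (K := Q ⧸ I.asIdeal)
  obtain ⟨c, hc⟩ := hbij.2 (Ideal.Quotient.mk I.asIdeal (π a))
  refine ⟨c, hker _ ?_⟩
  change π ((a - algebraMap ℂ R c) * e I) = 0
  rw [map_mul, hπe, map_sub, AlgHom.commutes]
  apply Φ.injective
  rw [map_mul, map_zero]
  have h1 : Φ (e₀ I) = Pi.single I 1 := Φ.apply_symm_apply _
  rw [h1]
  ext J
  rw [Pi.mul_apply, Pi.zero_apply]
  by_cases hJ : J = I
  · subst hJ
    have h2 : Φ (π a - algebraMap ℂ Q c) J = 0 := by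
      change Ideal.Quotient.mk J.asIdeal (π a - algebraMap ℂ Q c) = 0
      rw [map_sub, ← hc]
      have h3 : Ideal.Quotient.mk J.asIdeal (algebraMap ℂ Q c) = algebraMap ℂ (Q ⧸ J.asIdeal) c := rfl
      rw [h3, sub_self]
    rw [h2, zero_mul]
  · rw [Pi.single_eq_of_ne hJ, mul_zero]

end Pool.Agent.H91.PH
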