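import Pool.Agent.H91.PH.Obj

/-!
The sum of a Krein space, a Hilbert space and the antispace of a Hilbert space.
-/

set_option autoImplicit false

open scoped InnerProductSpace ComplexConjugate

namespace Pool.Agent.H91.PH

section

variable {H K : Type} [NormedAddCommGroup H] [InnerProductSpace ℂ H] [NormedAddCommGroup K]
  [InnerProductSpace ℂ K]

/-- The direct sum of two operators. -/
noncomputable def dp (a : H →L[ℂ] H) (b : K →L[ℂ] K) :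
    WithLp 2 (H × K) →L[ℂ] WithLp 2 (H × K) :=
  ((WithLp.prodContinuousLinearEquiv 2 ℂ H K).symm : (H × K) →L[ℂ] WithLp 2 (H × K)).comp
    ((a.prodMap b).comp
      ((WithLp.prodContinuousLinearEquiv 2 ℂ H K) : WithLp 2 (H × K) →L[ℂ] (H × K)))

lemma dp_fst (a : H →L[ℂ] H) (b : K →L[ℂ] K) (z : WithLp 2 (H × K)) :
    (dp a b z).fst = a z.fst := rfl

lemma dp_snd (a : H →L[ℂ] H) (b : K →L[ℂ] K) (z : WithLp 2 (H × K)) :
    (dp a b z).snd = b z.snd := rfl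

lemma lp_ext {z w : WithLp 2 (H × K)} (h1 : z.fst = w.fst) (h2 : z.snd = w.snd) : z = w := by
  cases z; cases w
  simp only [WithLp.toLp.injEq] at *
  exact Prod.ext h1 h2

lemma dp_mul (a a' : H →L[ℂ] H) (b b' : K →L[ℂ] K) : dp a b * dp a' b' = dp (a * a') (b * b') := by
  ext z
  rfl

lemma dp_add (a a' : H →L[ℂ] H) (b b' : K →L[ℂ] K) : dp a b + dp a' b' = dp (a + a') (b + b') := by
  ext z
  rfl

lemma dp_one : dp (1 : H →L[ℂ] H) (1 : K →L[ℂ] K) = 1 := by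
  ext z
  rfl

lemma dp_smul (c : ℂ) (a : H →L[ℂ] H) (b : K →L[ℂ] K) : c • dp a b = dp (c • a) (c • b) := by
  ext z
  rfl

lemma dp_sub (a a' : H →L[ℂ] H) (b b' : K →L[ℂ] K) : dp a b - dp a' b' = dp (a - a') (b - b') := by
  ext z
  rfl

lemma lp_norm_sq (z : WithLp 2 (H × K)) : ‖z‖ ^ 2 = ‖z.fst‖ ^ 2 + ‖z.snd‖ ^ 2 :=
  WithLp.prod_norm_sq_eq_of_L2 z

lemma dp_norm {a : H →L[ℂ] H} {b : K →L[ℂ] K} {C : ℝ} (hC : 0 ≤ C) (ha : ‖a‖ ≤ C) (hb : ‖b‖ ≤ C) :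
    ‖dp a b‖ ≤ C := by
  refine ContinuousLinearMap.opNorm_le_bound _ hC fun z => ?_
  have h1 : ‖dp a b z‖ ^ 2 ≤ (C * ‖z‖) ^ 2 := by
    rw [mul_pow, lp_norm_sq, lp_norm_sq, dp_fst, dp_snd, mul_add, ← mul_pow, ← mul_pow]
    have h2 : ‖a z.fst‖ ≤ C * ‖z.fst‖ :=
      (a.le_opNorm _).trans (mul_le_mul_of_nonneg_right ha (norm_nonneg _))
    have h3 : ‖b z.snd‖ ≤ C * ‖z.snd‖ :=
      (b.le_opNorm _).trans (mul_le_mul_of_nonneg_right hb (norm_nonneg _))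
    gcongr
  exact le_of_pow_le_pow_left₀ two_ne_zero (by positivity) h1

lemma lp_inner (z w : WithLp 2 (H × K)) : ⟪z, w⟫_ℂ = ⟪z.fst, w.fst⟫_ℂ + ⟪z.snd, w.snd⟫_ℂ :=
  WithLp.prod_inner_apply z w

lemma fm_dp (E : H →L[ℂ] H) (F : K →L[ℂ] K) (z w : WithLp 2 (H × K)) :
    fm (Jm (dp E F)) z w = fm (Jm E) z.fst w.fst + fm (Jm F) z.snd w.snd := by
  rw [fm_Jm, fm_Jm, fm_Jm]
  have h1 : (1 : WithLp 2 (H × K) →L[ℂ] WithLp 2 (H × K)) - dp E F = dp (1 - E) (1 - F) := by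
    rw [← dp_one, dp_sub]
  rw [h1, lp_inner, lp_inner, dp_fst, dp_snd, dp_fst, dp_snd]
  ring

variable [CompleteSpace H] [CompleteSpace K]

lemma dp_star {E : H →L[ℂ] H} (hE' : star E = E) {F : K →L[ℂ] K} (hF' : star F = F) :
    star (dp E F) = dp E F := by
  refine ext_of_inner fun x y => ?_
  rw [adj_left, lp_inner, lp_inner, dp_fst, dp_snd, dp_fst, dp_snd, proj_adj hE', proj_adj hF']

end

lemma fm_Jm_one {K : Type} [NormedAddCommGroup K] [InnerProductSpace ℂ K] (x y : K) :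
    fm (Jm (1 : K →L[ℂ] K)) x y = ⟪x, y⟫_ℂ := by
  rw [fm_Jm, sub_self]
  change ⟪x, y⟫_ℂ - ⟪(0 : K), y⟫_ℂ = _
  rw [inner_zero_left, sub_zero]

lemma fm_Jm_zero {K : Type} [NormedAddCommGroup K] [InnerProductSpace ℂ K] (x y : K) :
    fm (Jm (0 : K →L[ℂ] K)) x y = - ⟪x, y⟫_ℂ := by
  rw [fm_Jm, sub_zero]
  change ⟪(0 : K), y⟫_ℂ - ⟪x, y⟫_ℂ = _
  rw [inner_zero_left, zero_sub]

/-- The sum of `H`, `K` and the antispace of `L`. -/
abbrev Big (H K L : Type) : Type := WithLp 2 (H × WithLp 2 (K × L))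

section

variable {H K L : Type} [NormedAddCommGroup H] [InnerProductSpace ℂ H] [NormedAddCommGroup K]
  [InnerProductSpace ℂ K] [NormedAddCommGroup L] [InnerProductSpace ℂ L]

/-- The direct sum of three operators. -/
noncomputable def dg (a : H →L[ℂ] H) (b : K →L[ℂ] K) (c : L →L[ℂ] L) :
    Big H K L →L[ℂ] Big H K L := dp a (dp b c)

/-- The projection on the positive part of the sum. -/
noncomputable def bE (K L : Type) [NormedAddCommGroup K] [InnerProductSpace ℂ K]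
    [NormedAddCommGroup L] [InnerProductSpace ℂ L] (E : H →L[ℂ] H) :
    Big H K L →L[ℂ] Big H K L := dg E 1 0

/-- A vector of the sum. -/
def mkB (h : H) (x : K) (y : L) : Big H K L := WithLp.toLp 2 (h, WithLp.toLp 2 (x, y))

lemma big_ext {z w : Big H K L} (h1 : z.fst = w.fst) (h2 : z.snd.fst = w.snd.fst)
    (h3 : z.snd.snd = w.snd.snd) : z = w := lp_ext h1 (lp_ext h2 h3)

lemma dg_mul (a a' : H →L[ℂ] H) (b b' : K →L[ℂ] K) (c c' : L →L[ℂ] L) :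
    dg a b c * dg a' b' c' = dg (a * a') (b * b') (c * c') := rfl

lemma dg_add (a a' : H →L[ℂ] H) (b b' : K →L[ℂ] K) (c c' : L →L[ℂ] L) :
    dg a b c + dg a' b' c' = dg (a + a') (b + b') (c + c') := rfl

lemma dg_one : dg (1 : H →L[ℂ] H) (1 : K →L[ℂ] K) (1 : L →L[ℂ] L) = 1 := rfl

lemma dg_smul (t : ℂ) (a : H →L[ℂ] H) (b : K →L[ℂ] K) (c : L →L[ℂ] L) :
    t • dg a b c = dg (t • a) (t • b) (t • c) := rfl

lemma dg_norm {a : H →L[ℂ] H} {b : K →L[ℂ] K} {c : L →L[ℂ] L} {C : ℝ} (hC : 0 ≤ C) (ha : ‖a‖ ≤ C)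
    (hb : ‖b‖ ≤ C) (hc : ‖c‖ ≤ C) : ‖dg a b c‖ ≤ C := dp_norm hC ha (dp_norm hC hb hc)

lemma fm_big (E : H →L[ℂ] H) (z w : Big H K L) :
    fm (Jm (bE K L E)) z w =
      fm (Jm E) z.fst w.fst + ⟪z.snd.fst, w.snd.fst⟫_ℂ - ⟪z.snd.snd, w.snd.snd⟫_ℂ := by
  unfold bE dg
  rw [fm_dp, fm_dp, fm_Jm_one, fm_Jm_zero]
  ring

lemma bE_idem {E : H →L[ℂ] H} (hE : E * E = E) : bE K L E * bE K L E = bE K L E := by
  unfold bE
  rw [dg_mul, hE, one_mul, zero_mul]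

lemma bE_star [CompleteSpace H] [CompleteSpace K] [CompleteSpace L] {E : H →L[ℂ] H}
    (hE' : star E = E) : star (bE K L E) = bE K L E :=
  dp_star hE' (dp_star (star_one _) (star_zero _))

lemma big_norm_sq (z : Big H K L) :
    ‖z‖ ^ 2 = ‖z.fst‖ ^ 2 + ‖z.snd.fst‖ ^ 2 + ‖z.snd.snd‖ ^ 2 := by
  rw [lp_norm_sq, lp_norm_sq, add_assoc]

lemma norm_fst_le (z : Big H K L) : ‖z.fst‖ ≤ ‖z‖ := by
  refine le_of_pow_le_pow_left₀ two_ne_zero (norm_nonneg _) ?_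
  rw [big_norm_sq]
  nlinarith [sq_nonneg ‖z.snd.fst‖, sq_nonneg ‖z.snd.snd‖]

lemma norm_snd_fst_le (z : Big H K L) : ‖z.snd.fst‖ ≤ ‖z‖ := by
  refine le_of_pow_le_pow_left₀ two_ne_zero (norm_nonneg _) ?_
  rw [big_norm_sq]
  nlinarith [sq_nonneg ‖z.fst‖, sq_nonneg ‖z.snd.snd‖]

lemma norm_snd_snd_le (z : Big H K L) : ‖z.snd.snd‖ ≤ ‖z‖ := by
  refine le_of_pow_le_pow_left₀ two_ne_zero (norm_nonneg _) ?_
  rw [big_norm_sq]
  nlinarith [sq_nonneg ‖z.fst‖, sq_nonneg ‖z.snd.fst‖]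

end

end Pool.Agent.H91.PH
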