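import Pool.Agent.H91.PH.Quot

/-!
Extension of invariant dual pairs if the exponentials of the self-adjoint elements are bounded
modulo the radical.
-/

set_option autoImplicit false

open scoped InnerProductSpace ComplexConjugate
open Filter

namespace Pool.Agent.H91.PH

variable {H : Type} [NormedAddCommGroup H] [InnerProductSpace ℂ H] [CompleteSpace H]

/-- A closed subspace which is invariant under the exponentials of the self-adjoint elements of a
symmetric algebra is invariant under the algebra. -/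
lemma inv_of_group {G : H →L[ℂ] H} (hG : Herm G) {B : Subalgebra ℂ (H →L[ℂ] H)} (hB : Symm G B)
    {K : Submodule ℂ H} (hK : IsClosed (K : Set H))
    (hinv : ∀ s : saGroup G B, ∀ y ∈ K, (NormedSpace.exp (Complex.I • (s : H →L[ℂ] H))) y ∈ K) :
    ∀ b ∈ B, ∀ y ∈ K, b y ∈ K := by
  have h1 : ∀ s : saGroup G B, ∀ y ∈ K, (s : H →L[ℂ] H) y ∈ K := by
    intro s y hy
    have h2 : (Complex.I • (s : H →L[ℂ] H)) y ∈ K := by
      refine inv_of_exp hK (fun t x hx => ?_) hy
      have h3 := hinv ⟨(t : ℂ) • (s : H →L[ℂ] H), B.smul_mem s.2.1 _, fun f g => by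
        change fm G ((t : ℂ) • (s : H →L[ℂ] H) f) g = fm G f ((t : ℂ) • (s : H →L[ℂ] H) g)
        rw [fm_smul_left, fm_smul_right, s.2.2, Complex.conj_ofReal]⟩ x hx
      change (NormedSpace.exp (Complex.I • ((t : ℂ) • (s : H →L[ℂ] H)))) x ∈ K at h3
      rwa [smul_comm] at h3
    have h3 : (s : H →L[ℂ] H) y = (-Complex.I) • ((Complex.I • (s : H →L[ℂ] H)) y) := by
      change _ = (-Complex.I) • (Complex.I • (s : H →L[ℂ] H) y)
      rw [smul_smul, neg_mul, Complex.I_mul_I, neg_neg, one_smul]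
    rw [h3]
    exact K.smul_mem _ h2
  intro b hb y hy
  obtain ⟨b', hb', hbb⟩ := hB b hb
  have hbb' := adj_symm hG hbb
  have h2 := h1 ⟨b + b', B.add_mem hb hb', fun f g => by
    change fm G (b f + b' f) g = fm G f (b g + b' g)
    rw [fm_add_left, fm_add_right, hbb, ← hbb', add_comm]⟩ y hy
  have h3 := h1 ⟨Complex.I • (b - b'), B.smul_mem (B.sub_mem hb hb') _, fun f g => by
    change fm G (Complex.I • (b f - b' f)) g = fm G f (Complex.I • (b g - b' g))
    rw [fm_smul_left, fm_smul_right, fm_sub_left, fm_sub_right, hbb, ← hbb', Complex.conj_I]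
    ring⟩ y hy
  have e : b y = (1 / 2 : ℂ) • (b y + b' y) - (Complex.I / 2) • (Complex.I • (b y - b' y)) := by
    rw [smul_smul]
    have h3 : Complex.I / 2 * Complex.I = -(1 / 2) := by
      rw [div_mul_eq_mul_div, Complex.I_mul_I]; ring
    rw [h3]
    module
  rw [e]
  exact K.sub_mem (K.smul_mem _ h2) (K.smul_mem _ h3)

/-- The extension theorem if the exponentials `exp (i s)` of the self-adjoint elements `s` of `A`
are bounded modulo the strong closure of the radical of `A`. -/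
theorem main_exp {E : H →L[ℂ] H} (hE : E * E = E) (hE' : star E = E)
    {A : Subalgebra ℂ (H →L[ℂ] H)} (hc : Comm A) (hA : Symm (Jm E) A) {C : ℝ}
    (hC : ∀ s ∈ A, (∀ f g : H, fm (Jm E) (s f) g = fm (Jm E) f (s g)) →
      ∃ r : H →L[ℂ] H, (∀ x, r x ∈ closure {y | ∃ r', Rad (Jm E) A r' ∧ y = r' x}) ∧
        ‖NormedSpace.exp (Complex.I • s) + r‖ ≤ C)
    {N P : Submodule ℂ H} (h : Dual (Jm E) A N P) : Solvable (Jm E) A N P := by
  have hG := herm_Jm hE hE'
  obtain ⟨N₁, P₁, hN₁, hP₁, hmax⟩ := exists_maxDual h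
  obtain ⟨m, hm⟩ := exists_mean (saGroup (Jm E) A)
  letI : NormedAlgebra ℚ (H →L[ℂ] H) := NormedAlgebra.restrictScalars ℚ ℂ (H →L[ℂ] H)
  let u : saGroup (Jm E) A → H →L[ℂ] H := fun s => NormedSpace.exp (Complex.I • (s : H →L[ℂ] H))
  have hu : ∀ s t, u (s + t) = u s * u t := by
    intro s t
    have hst : Commute (Complex.I • (s : H →L[ℂ] H)) (Complex.I • (t : H →L[ℂ] H)) := by
      have h1 : Commute (s : H →L[ℂ] H) (t : H →L[ℂ] H) :=
        hc _ s.2.1 _ t.2.1
      exact (h1.smul_left Complex.I).smul_right Complex.I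
    change NormedSpace.exp (Complex.I • ((s : H →L[ℂ] H) + (t : H →L[ℂ] H))) = _
    rw [smul_add, NormedSpace.exp_add_of_commute hst]
  have hu0 : u 0 = 1 := by
    change NormedSpace.exp (Complex.I • (0 : H →L[ℂ] H)) = 1
    rw [smul_zero, NormedSpace.exp_zero]
  have hadj : ∀ s : saGroup (Jm E) A, ∀ f g : H,
      fm (Jm E) ((Complex.I • (s : H →L[ℂ] H)) f) g =
      fm (Jm E) f ((Complex.I • ((-s : saGroup (Jm E) A) : H →L[ℂ] H)) g) := by
    intro s f g
    change fm (Jm E) (Complex.I • ((s : H →L[ℂ] H) f)) g =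
      fm (Jm E) f (Complex.I • (-((s : H →L[ℂ] H) g)))
    rw [fm_smul_left, fm_smul_right, fm_neg_right, s.2.2, Complex.conj_I]
    ring
  have huadj : ∀ s x y, fm (Jm E) (u s x) y = fm (Jm E) x (u (-s) y) := fun s x y =>
    exp_adj (hadj s) x y
  have huu : ∀ s, u (-s) * u s = 1 := fun s => by rw [← hu, neg_add_cancel, hu0]
  have hiso : ∀ s x y, fm (Jm E) (u s x) (u s y) = fm (Jm E) x y := by
    intro s x y
    have h2 : u (-s) (u s y) = y := by
      calc u (-s) (u s y) = (u (-s) * u s) y := rfl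
        _ = y := by rw [huu]; rfl
    rw [huadj, h2]
  -- the neutral subspace
  set D := N₁ ⊓ P₁ with hD
  have hDcl : IsClosed (D : Set H) := hmax.isClosed_inf
  have hD0 : ∀ x ∈ D, ∀ y ∈ D, fm (Jm E) x y = 0 := fun x hx y hy => hmax.orth x hx.2 y hy.1
  have huN : ∀ s, ∀ y ∈ N₁, u s y ∈ N₁ := fun s y hy =>
    exp_inv hmax.isClosed_N (fun z hz => N₁.smul_mem _ (hmax.invN _ s.2.1 z hz)) hy
  have huP : ∀ s, ∀ y ∈ P₁, u s y ∈ P₁ := fun s y hy =>
    exp_inv hmax.isClosed_P (fun z hz => P₁.smul_mem _ (hmax.invP _ s.2.1 z hz)) hy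
  have huD : ∀ s, ∀ y ∈ D, u s y ∈ D := fun s y hy => ⟨huN s y hy.1, huP s y hy.2⟩
  have huperp : ∀ s, ∀ x ∈ perp (Jm E) D, u s x ∈ perp (Jm E) D := by
    intro s x hx y hy
    have h1 := huadj (-s) y x
    rw [neg_neg] at h1
    rw [← h1]
    exact hx _ (huD (-s) y hy)
  -- the group on the quotient space
  let v : saGroup (Jm E) A → qsp E D →L[ℂ] qsp E D := fun s => qop E D (u s)
  have hv : ∀ s t, v (s + t) = v s * v t := by
    intro s t
    change qop E D (u (s + t)) = qop E D (u s) * qop E D (u t)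
    rw [hu, qop_mul hE hE' hDcl hD0 (huD s) (huperp t)]
  have hv0 : v 0 = 1 := by
    change qop E D (u 0) = 1
    rw [hu0, qop_one]
  have hvb : ∀ s x, ‖v s x‖ ≤ (|C| + 1) * ‖x‖ := by
    intro s x
    obtain ⟨r, hr, hrC⟩ := hC (s : H →L[ℂ] H) s.2.1 s.2.2
    refine qop_norm (r := r) (fun y hy => ?_) ?_ x
    · refine closure_minimal ?_ hDcl (hr y)
      rintro _ ⟨r', hr', rfl⟩
      exact hmax.rad_main hG hA hc hr' y hy
    exact hrC.trans ((le_abs_self C).trans (by linarith))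
  have hviso : ∀ s x y, fm (Jm (qE E D)) (v s x) (v s y) = fm (Jm (qE E D)) x y := by
    intro s x y
    have h1 : fm (Jm (qE E D)) (qop E D (u s) x) (v s y) = fm (Jm E) (u s x) ((v s y : qsp E D) : H) :=
      fm_qop hE hE' hDcl hD0 (huperp s) x (v s y)
    change fm (Jm (qE E D)) (qop E D (u s) x) (v s y) = _
    rw [h1, huadj]
    have h2 : fm (Jm E) (u (-s) ((v s y : qsp E D) : H)) x =
        fm (Jm (qE E D)) (qop E D (u (-s)) (v s y)) x :=
      (fm_qop hE hE' hDcl hD0 (huperp (-s)) (v s y) x).symm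
    have h3 : qop E D (u (-s)) (v s y) = y := by
      change (v (-s) * v s) y = y
      rw [← hv, neg_add_cancel, hv0]
      rfl
    rw [h3] at h2
    rw [hG _ _, h2, ← herm_Jm (qE_idem hE hE' D) (qE_star hE hE' D)]
  have hvspec : ∀ s, ∀ x : qsp E D, u s x - (v s x : qsp E D) ∈ D := fun s x =>
    qop_spec hE hE' hDcl hD0 (huperp s) x
  obtain ⟨N₂, P₂, hN₂, hP₂, pos, neg, hNc, hPc, invN, invP⟩ :=
    phillips_group m hm (qE_idem hE hE' D) (qE_star hE hE' D) v hv0 hv (C := |C| + 1)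
    (by positivity) hvb hviso (N := N₁.comap (qsp E D).subtype) (P := P₁.comap (qsp E D).subtype)
    (fun x hx => by rw [fm_q hE hE']; exact hmax.pos x hx)
    (fun x hx => by rw [fm_q hE hE']; exact hmax.neg x hx)
    (fun x hx y hy => by rw [fm_q hE hE']; exact hmax.orth x hx y hy)
    (fun s x hx => by
      have h1 := N₁.sub_mem (huN s x hx) (hvspec s x).1
      rw [sub_sub_cancel] at h1
      exact h1)
    (fun s x hx => by
      have h1 := P₁.sub_mem (huP s x hx) (hvspec s x).2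
      rw [sub_sub_cancel] at h1
      exact h1)
  obtain ⟨pos', neg', hNc', hPc'⟩ := lift_pair hE hE' hDcl hD0 pos neg hNc hPc
  set N₃ := D ⊔ N₂.map (qsp E D).subtype with hN₃
  set P₃ := D ⊔ P₂.map (qsp E D).subtype with hP₃
  -- the pair contains the given one
  have hle : ∀ (S : Submodule ℂ H) (S₂ : Submodule ℂ (qsp E D)), D ≤ S → S ≤ perp (Jm E) D →
      S.comap (qsp E D).subtype ≤ S₂ → S ≤ D ⊔ S₂.map (qsp E D).subtype := by
    intro S S₂ h1 h2 h3 x hx
    obtain ⟨d, hd, k, hk, rfl⟩ := exists_decomp hE hE' hDcl hD0 (h2 hx)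
    refine Submodule.add_mem_sup hd ⟨⟨k, hk⟩, h3 ?_, rfl⟩
    have h4 := S.sub_mem hx (h1 hd)
    rwa [add_sub_cancel_left] at h4
  have hinv : ∀ S₂ : Submodule ℂ (qsp E D), (∀ s, ∀ x ∈ S₂, v s x ∈ S₂) →
      ∀ s, ∀ x ∈ D ⊔ S₂.map (qsp E D).subtype, u s x ∈ D ⊔ S₂.map (qsp E D).subtype := by
    intro S₂ hS s x hx
    obtain ⟨d, hd, _, ⟨k, hk, rfl⟩, rfl⟩ := Submodule.mem_sup.mp hx
    rw [map_add]
    have e : u s d + u s ((qsp E D).subtype k) =
        (u s d + (u s k - (v s k : qsp E D))) + (v s k : qsp E D) := by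
      change u s d + u s (k : H) = _
      abel
    rw [e]
    exact Submodule.add_mem_sup (D.add_mem (huD s d hd) (hvspec s k)) ⟨_, hS s k hk, rfl⟩
  have hNcl : IsClosed (N₃ : Set H) := by
    have : (N₃ : Set H) = ⋂ x ∈ P₃, {y | fm (Jm E) x y = 0} := by
      ext y
      rw [Set.mem_iInter₂]
      exact hNc' y
    rw [this]
    exact isClosed_biInter fun x _ => isClosed_eq (continuous_fm_right x) continuous_const
  have hPcl : IsClosed (P₃ : Set H) := by
    have : (P₃ : Set H) = ⋂ y ∈ N₃, {x | fm (Jm E) x y = 0} := by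
      ext y
      rw [Set.mem_iInter₂]
      exact hPc' y
    rw [this]
    exact isClosed_biInter fun x _ => isClosed_eq (continuous_fm_left x) continuous_const
  refine ⟨N₃, P₃, hN₁.trans (hle N₁ N₂ inf_le_left hmax.le_perp_N hN₂),
    hP₁.trans (hle P₁ P₂ inf_le_right (hmax.le_perp_P hG) hP₂), pos', neg', hNc', hPc',
    inv_of_group hG hA hNcl (hinv N₂ invN), inv_of_group hG hA hPcl (hinv P₂ invP)⟩

end Pool.Agent.H91.PH
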