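import Pool.Agent.H91.PH.Red
import Pool.Agent.H91.PH.Main2

/-!
Extension of invariant dual pairs modulo the radical which is generated by the positive elements.
-/

set_option autoImplicit false

open scoped InnerProductSpace ComplexConjugate
open Filter

namespace Pool.Agent.H91.PH

/-- `R` is an ideal, contains `c` if it contains `c' c`, contains the positive elements, and is
closed under bounded weak limits. -/
structure IsRadP {H : Type} [NormedAddCommGroup H] [InnerProductSpace ℂ H] (G : H →L[ℂ] H)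
    (A : Subalgebra ℂ (H →L[ℂ] H)) (R : Set (H →L[ℂ] H)) : Prop where
  zero : 0 ∈ R
  add : ∀ a ∈ R, ∀ b ∈ R, a + b ∈ R
  mul : ∀ a ∈ A, ∀ b ∈ R, a * b ∈ R
  root : ∀ c ∈ A, ∀ c' ∈ A, (∀ f g : H, fm G (c f) g = fm G f (c' g)) → c' * c ∈ R → c ∈ R
  pos : ∀ q ∈ A, (∀ f g : H, fm G (q f) g = fm G f (q g)) → (∀ x, 0 ≤ (fm G (q x) x).re) → q ∈ R
  lim : ∀ a ∈ A, ∀ C : ℝ, (∀ h g : H, ∀ ε > 0, ∃ r ∈ R, ‖r‖ ≤ C ∧
    ‖fm G ((r - a) h) g‖ < ε) → a ∈ R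

/-- The radical is the smallest set of this kind. -/
def RadP {H : Type} [NormedAddCommGroup H] [InnerProductSpace ℂ H] (G : H →L[ℂ] H)
    (A : Subalgebra ℂ (H →L[ℂ] H)) (a : H →L[ℂ] H) : Prop :=
  ∀ R : Set (H →L[ℂ] H), IsRadP G A R → a ∈ R

variable {H : Type} [NormedAddCommGroup H] [InnerProductSpace ℂ H] [CompleteSpace H]

section terminal

variable {E : H →L[ℂ] H} {A : Subalgebra ℂ (H →L[ℂ] H)} {V : Type} [NormedAddCommGroup V]
  [InnerProductSpace ℂ V] [CompleteSpace V] {F : V →L[ℂ] V} {ρ : A →ₐ[ℂ] (V →L[ℂ] V)}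

lemma Terminal.comm (hc : Comm A) : Comm ρ.range := by
  rintro _ ⟨a, rfl⟩ _ ⟨b, rfl⟩
  have h1 : a * b = b * a := Subtype.ext (hc a a.2 b b.2)
  change ρ a * ρ b = ρ b * ρ a
  rw [← map_mul, h1, map_mul]

lemma Terminal.symm (ht : Terminal E A V F ρ) (hA : Symm (Jm E) A) : Symm (Jm F) ρ.range := by
  rintro _ ⟨a, rfl⟩
  obtain ⟨a', ha', haa⟩ := hA a a.2
  exact ⟨ρ ⟨a', ha'⟩, ⟨_, rfl⟩, ht.adj a ⟨a', ha'⟩ haa⟩

lemma Terminal.semi' (ht : Terminal E A V F ρ) : ∀ S : Submodule ℂ V,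
    (∀ a ∈ ρ.range, ∀ v ∈ S, a v ∈ S) →
    ((∀ v ∈ S, 0 ≤ (fm (Jm F) v v).re) ∨ (∀ v ∈ S, (fm (Jm F) v v).re ≤ 0)) → S = ⊥ :=
  fun S h1 h2 => ht.semi S (fun a v hv => h1 _ ⟨a, rfl⟩ v hv) h2

/-- The zero pair of a terminal object has no extension. -/
lemma Terminal.not_solvable (ht : Terminal E A V F ρ) :
    ¬ Solvable (Jm F) ρ.range ⊥ ⊥ := by
  rintro ⟨N', P', -, -, h1, h2, h3, h4, h5, h6⟩
  have := ht.nontriv
  have hP : P' = ⊥ := ht.semi' P' h6 (Or.inl h1)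
  have hN : N' = ⊥ := ht.semi' N' h5 (Or.inr h2)
  obtain ⟨z, hz⟩ := exists_ne (0 : V)
  have h7 : z ∈ N' := by
    rw [h3]
    intro x hx
    rw [hP, Submodule.mem_bot] at hx
    rw [hx]
    exact fm_zero_left _
  rw [hN, Submodule.mem_bot] at h7
  exact hz h7

lemma dual_bot (G : V →L[ℂ] V) (B : Set (V →L[ℂ] V)) : Dual G B ⊥ ⊥ where
  pos := fun x hx => by
    rw [(Submodule.mem_bot ℂ).mp hx, fm_zero_left, Complex.zero_re]
  neg := fun x hx => by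
    rw [(Submodule.mem_bot ℂ).mp hx, fm_zero_left, Complex.zero_re]
  orth := fun x hx y _ => by
    rw [(Submodule.mem_bot ℂ).mp hx, fm_zero_left]
  invN := fun a _ x hx => by
    rw [(Submodule.mem_bot ℂ).mp hx, map_zero]
    exact Submodule.zero_mem _
  invP := fun a _ x hx => by
    rw [(Submodule.mem_bot ℂ).mp hx, map_zero]
    exact Submodule.zero_mem _

/-- The kernel of a terminal object contains the radical. -/
lemma Terminal.isRadP (ht : Terminal E A V F ρ) (hc : Comm A) (hA : Symm (Jm E) A) :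
    IsRadP (Jm E) A {a | ∃ h : a ∈ A, ρ ⟨a, h⟩ = 0} where
  zero := ⟨A.zero_mem, map_zero ρ⟩
  add := by
    rintro a ⟨ha, ha'⟩ b ⟨hb, hb'⟩
    refine ⟨A.add_mem ha hb, ?_⟩
    have h1 : (⟨a + b, A.add_mem ha hb⟩ : A) = ⟨a, ha⟩ + ⟨b, hb⟩ := rfl
    rw [h1, map_add, ha', hb', add_zero]
  mul := by
    rintro a ha b ⟨hb, hb'⟩
    refine ⟨A.mul_mem ha hb, ?_⟩
    have h1 : (⟨a * b, A.mul_mem ha hb⟩ : A) = ⟨a, ha⟩ * ⟨b, hb⟩ := rfl
    rw [h1, map_mul, hb', mul_zero]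
  root := by
    rintro c hc₁ c' hc' hcc ⟨h, h0⟩
    refine ⟨hc₁, ?_⟩
    have h1 : (⟨c' * c, h⟩ : A) = ⟨c', hc'⟩ * ⟨c, hc₁⟩ := rfl
    rw [h1, map_mul] at h0
    have h2 := ht.adj ⟨c, hc₁⟩ ⟨c', hc'⟩ hcc
    have h3 : LinearMap.range (ρ ⟨c, hc₁⟩ : V →ₗ[ℂ] V) = ⊥ := by
      refine ht.semi' _ ?_ (Or.inl ?_)
      · rintro a ha _ ⟨v, rfl⟩
        exact ⟨a v, (Terminal.comm (ρ := ρ) hc).apply ⟨⟨c, hc₁⟩, rfl⟩ ha v⟩
      · rintro _ ⟨v, rfl⟩
        change 0 ≤ (fm (Jm F) (ρ ⟨c, hc₁⟩ v) (ρ ⟨c, hc₁⟩ v)).re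
        have h4 : ρ ⟨c', hc'⟩ (ρ ⟨c, hc₁⟩ v) = 0 := by
          calc ρ ⟨c', hc'⟩ (ρ ⟨c, hc₁⟩ v) = (ρ ⟨c', hc'⟩ * ρ ⟨c, hc₁⟩) v := rfl
            _ = 0 := by rw [h0]; rfl
        rw [h2, h4, fm_zero_right, Complex.zero_re]
    ext v
    have h5 : ρ ⟨c, hc₁⟩ v ∈ LinearMap.range (ρ ⟨c, hc₁⟩ : V →ₗ[ℂ] V) := ⟨v, rfl⟩
    rw [h3, Submodule.mem_bot] at h5
    exact h5
  pos := by
    rintro q hq hqs hpos
    refine ⟨hq, ?_⟩
    exact pos_zero ht.idem ht.star (Terminal.comm (ρ := ρ) hc) (ht.symm hA)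
      (fun S h1 h2 => ht.semi' S h1 h2) ⟨⟨q, hq⟩, rfl⟩ (ht.adj ⟨q, hq⟩ ⟨q, hq⟩ hqs)
      (ht.pos ⟨q, hq⟩ hpos)
  lim := by
    rintro a ha C h
    refine ⟨ha, ht.lim ⟨a, ha⟩ C fun x y ε hε => ?_⟩
    obtain ⟨r, ⟨hr, hr'⟩, h1, h2⟩ := h x y ε hε
    exact ⟨⟨r, hr⟩, hr', h1, h2⟩

lemma Terminal.rad_zero (ht : Terminal E A V F ρ) (hc : Comm A) (hA : Symm (Jm E) A)
    {a : H →L[ℂ] H} (ha : RadP (Jm E) A a) : ∃ h : a ∈ A, ρ ⟨a, h⟩ = 0 :=
  ha _ (ht.isRadP hc hA)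

/-- A self-adjoint element of the image of a terminal object is the image of a self-adjoint
element. -/
lemma Terminal.lift_sa (ht : Terminal E A V F ρ) (hE : E * E = E) (hE' : Star.star E = E)
    (hA : Symm (Jm E) A) {s : V →L[ℂ] V}
    (hs : s ∈ ρ.range) (hsa : ∀ f g : V, fm (Jm F) (s f) g = fm (Jm F) f (s g)) :
    ∃ t : A, (∀ f g : H, fm (Jm E) ((t : H →L[ℂ] H) f) g = fm (Jm E) f ((t : H →L[ℂ] H) g)) ∧
      ρ t = s := by
  have hG := herm_Jm hE hE'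
  obtain ⟨a, rfl⟩ := hs
  obtain ⟨a', ha', haa⟩ := hA a a.2
  have haa' := adj_symm hG haa
  have h1 : ρ a = ρ ⟨a', ha'⟩ :=
    adj_unique (nondeg_Jm ht.idem ht.star) hsa (ht.adj a ⟨a', ha'⟩ haa)
  refine ⟨(1 / 2 : ℂ) • (a + ⟨a', ha'⟩), fun f g => ?_, ?_⟩
  · change fm (Jm E) ((1 / 2 : ℂ) • ((a : H →L[ℂ] H) f + a' f)) g =
      fm (Jm E) f ((1 / 2 : ℂ) • ((a : H →L[ℂ] H) g + a' g))
    rw [fm_smul_left, fm_smul_right, fm_add_left, fm_add_right, haa, ← haa']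
    have h2 : conj (1 / 2 : ℂ) = 1 / 2 := by
      rw [map_div₀, map_one, map_ofNat]
    rw [h2, add_comm]
  · rw [map_smul, map_add, ← h1]
    module

/-- The norm of the exponentials in a terminal object. -/
lemma Terminal.exp_norm (ht : Terminal E A V F ρ) {t : A} {r : A} (hr : ρ r = 0) {C : ℝ}
    (hC : ‖NormedSpace.exp (Complex.I • (t : H →L[ℂ] H)) + (r : H →L[ℂ] H)‖ ≤ C) :
    ‖NormedSpace.exp (Complex.I • ρ t)‖ ≤ C := by
  letI : NormedAlgebra ℚ (H →L[ℂ] H) := NormedAlgebra.restrictScalars ℚ ℂ (H →L[ℂ] H)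
  letI : NormedAlgebra ℚ (V →L[ℂ] V) := NormedAlgebra.restrictScalars ℚ ℂ (V →L[ℂ] V)
  let p : ℕ → A := fun n => ∑ k ∈ Finset.range n, ((k.factorial : ℂ)⁻¹) • (Complex.I • t) ^ k
  have h1 : Tendsto (fun n => ((p n : A) : H →L[ℂ] H)) atTop
      (nhds (NormedSpace.exp (Complex.I • (t : H →L[ℂ] H)))) := by
    have h2 := (NormedSpace.exp_series_hasSum_exp' (𝕂 := ℂ)
      (Complex.I • (t : H →L[ℂ] H))).tendsto_sum_nat
    refine h2.congr fun n => ?_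
    change _ = A.val (p n)
    rw [map_sum]
    refine Finset.sum_congr rfl fun k _ => ?_
    rw [map_smul, map_pow, map_smul]
    rfl
  have h3 : Tendsto (fun n => ρ (p n)) atTop
      (nhds (NormedSpace.exp (Complex.I • ρ t))) := by
    have h2 := (NormedSpace.exp_series_hasSum_exp' (𝕂 := ℂ) (Complex.I • ρ t)).tendsto_sum_nat
    refine h2.congr fun n => ?_
    rw [map_sum]
    refine Finset.sum_congr rfl fun k _ => ?_
    rw [map_smul, map_pow, map_smul]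
  have h4 : ∀ n, ‖ρ (p n)‖ ≤ ‖((p n : A) : H →L[ℂ] H) + (r : H →L[ℂ] H)‖ := by
    intro n
    have h5 := ht.norm (p n + r)
    rw [map_add, hr, add_zero] at h5
    exact h5
  have h5 : Tendsto (fun n => ‖((p n : A) : H →L[ℂ] H) + (r : H →L[ℂ] H)‖) atTop
      (nhds ‖NormedSpace.exp (Complex.I • (t : H →L[ℂ] H)) + (r : H →L[ℂ] H)‖) :=
    (h1.add_const _).norm
  exact (le_of_tendsto_of_tendsto' h3.norm h5 h4).trans hC

end terminal

/-- The extension theorem if the exponentials of the self-adjoint elements are bounded modulo the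
radical generated by the positive elements. -/
theorem main_expP {E : H →L[ℂ] H} (hE : E * E = E) (hE' : star E = E)
    {A : Subalgebra ℂ (H →L[ℂ] H)} (hc : Comm A) (hA : Symm (Jm E) A) {C : ℝ}
    (hC : ∀ s ∈ A, (∀ f g : H, fm (Jm E) (s f) g = fm (Jm E) f (s g)) →
      ∃ r : H →L[ℂ] H, RadP (Jm E) A r ∧ ‖NormedSpace.exp (Complex.I • s) + r‖ ≤ C)
    {N P : Submodule ℂ H} (h : Dual (Jm E) A N P) : Solvable (Jm E) A N P := by
  by_contra hns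
  obtain ⟨V, _, _, _, F, ρ, ht⟩ := exists_terminal hE hE' hA h hns
  refine ht.not_solvable (main_exp ht.idem ht.star (Terminal.comm hc) (ht.symm hA) (C := C) ?_
    (dual_bot _ _))
  intro s hs hsa
  obtain ⟨t, hta, hts⟩ := ht.lift_sa hE hE' hA hs hsa
  obtain ⟨r, hr, hrC⟩ := hC t t.2 hta
  obtain ⟨hrA, hr0⟩ := ht.rad_zero hc hA hr
  have h1 := ht.exp_norm (t := t) (r := ⟨r, hrA⟩) hr0 hrC
  refine ⟨0, fun x => subset_closure ⟨0, fun R hR => hR.zero, rfl⟩, ?_⟩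
  rw [add_zero, ← hts]
  exact h1

/-- The extension theorem for algebras which are finite-dimensional modulo the radical generated
by the positive elements. -/
theorem main_finP {E : H →L[ℂ] H} (hE : E * E = E) (hE' : star E = E)
    {A : Subalgebra ℂ (H →L[ℂ] H)} (hc : Comm A) (hA : Symm (Jm E) A)
    (K : Submodule ℂ (H →L[ℂ] H)) [FiniteDimensional ℂ K]
    (hK : ∀ a ∈ A, ∃ b ∈ K, b ∈ A ∧ RadP (Jm E) A (a - b))
    {N P : Submodule ℂ H} (h : Dual (Jm E) A N P) : Solvable (Jm E) A N P := by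
  by_contra hns
  obtain ⟨V, _, _, _, F, ρ, ht⟩ := exists_terminal hE hE' hA h hns
  have hfd : FiniteDimensional ℂ (Subalgebra.toSubmodule ρ.range) := by
    let K' : Submodule ℂ A := K.comap A.val.toLinearMap
    have hK' : FiniteDimensional ℂ K' := by
      let g : K' →ₗ[ℂ] K := (A.val.toLinearMap ∘ₗ K'.subtype).codRestrict K fun x => x.2
      refine FiniteDimensional.of_injective g fun x y hxy => ?_
      have h1 : (g x : H →L[ℂ] H) = g y := by rw [hxy]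
      exact Subtype.ext (Subtype.ext h1)
    have h1 : Subalgebra.toSubmodule ρ.range ≤ K'.map ρ.toLinearMap := by
      rintro _ ⟨a, rfl⟩
      obtain ⟨b, hb, hbA, hab⟩ := hK a a.2
      obtain ⟨h2, h3⟩ := ht.rad_zero hc hA hab
      refine ⟨⟨b, hbA⟩, hb, ?_⟩
      have h4 : (⟨(a : H →L[ℂ] H) - b, h2⟩ : A) = a - ⟨b, hbA⟩ := rfl
      rw [h4, map_sub, sub_eq_zero] at h3
      exact h3.symm
    have h2 : FiniteDimensional ℂ (K'.map ρ.toLinearMap) := inferInstance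
    exact Submodule.finiteDimensional_of_le h1
  refine ht.not_solvable (main_fin ht.idem ht.star (Terminal.comm hc) (ht.symm hA)
    (Subalgebra.toSubmodule ρ.range) ?_ (dual_bot _ _))
  intro a ha
  exact ⟨a, ha, ha, by rw [sub_self]; exact IsNilpotent.zero⟩

end Pool.Agent.H91.PH
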