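import Pool.Agent.H91.PH.Parrott

/-!
Maximal invariant dual pairs are maximal dual pairs if the algebra acts by scalars modulo
`D = N ∩ P` on sufficiently many blocks.
-/

set_option autoImplicit false

open scoped InnerProductSpace

namespace Pool.Agent.H91.PH

variable {H : Type} [NormedAddCommGroup H] [InnerProductSpace ℂ H]

/-- The symmetry of a projection. -/
def Jm (E : H →L[ℂ] H) : H →L[ℂ] H := E - (1 - E)

lemma fm_Jm (E : H →L[ℂ] H) (x y : H) : fm (Jm E) x y = ⟪E x, y⟫_ℂ - ⟪(1 - E) x, y⟫_ℂ := by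
  unfold fm Jm
  rw [← inner_sub_left]
  rfl

lemma Jm_compl (E : H →L[ℂ] H) : Jm (1 - E) = - Jm E := by
  unfold Jm
  abel

variable [CompleteSpace H]

lemma proj_adj {E : H →L[ℂ] H} (hE' : star E = E) (x y : H) : ⟪E x, y⟫_ℂ = ⟪x, E y⟫_ℂ := by
  have h1 : ⟪(ContinuousLinearMap.adjoint E) x, y⟫_ℂ = ⟪x, E y⟫_ℂ :=
    ContinuousLinearMap.adjoint_inner_left _ _ _
  have h2 : ContinuousLinearMap.adjoint E = E := hE'
  rwa [h2] at h1

lemma idem_apply {E : H →L[ℂ] H} (hE : E * E = E) (x : H) : E (E x) = E x := by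
  calc E (E x) = (E * E) x := rfl
    _ = E x := by rw [hE]

lemma compl_idem {E : H →L[ℂ] H} (hE : E * E = E) : (1 - E) * (1 - E) = 1 - E := by
  rw [sub_mul, one_mul, mul_sub, mul_one, hE, sub_self, sub_zero]

lemma compl_star {E : H →L[ℂ] H} (hE' : star E = E) : star (1 - E) = 1 - E := by
  rw [star_sub, star_one, hE']

lemma E_F {E : H →L[ℂ] H} (hE : E * E = E) (x : H) : E ((1 - E) x) = 0 := by
  change E (x - E x) = 0
  rw [map_sub, idem_apply hE, sub_self]

lemma F_E {E : H →L[ℂ] H} (hE : E * E = E) (x : H) : (1 - E) (E x) = 0 := by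
  change E x - E (E x) = 0
  rw [idem_apply hE, sub_self]

lemma fm_Jm' {E : H →L[ℂ] H} (hE : E * E = E) (hE' : star E = E) (x y : H) :
    fm (Jm E) x y = ⟪E x, E y⟫_ℂ - ⟪(1 - E) x, (1 - E) y⟫_ℂ := by
  rw [fm_Jm, ← proj_adj hE' (E x) y, idem_apply hE, ← proj_adj (compl_star hE') ((1 - E) x) y,
    idem_apply (compl_idem hE)]

lemma herm_Jm {E : H →L[ℂ] H} (hE : E * E = E) (hE' : star E = E) : Herm (Jm E) := by
  intro x y
  rw [fm_Jm' hE hE', fm_Jm' hE hE', map_sub, inner_conj_symm, inner_conj_symm]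

lemma nondeg_Jm {E : H →L[ℂ] H} (hE : E * E = E) (hE' : star E = E) : Nondeg (Jm E) := by
  intro y hy
  have h1 := hy (E y)
  have h2 := hy ((1 - E) y)
  rw [fm_Jm' hE hE', idem_apply hE, F_E hE, inner_zero_left, sub_zero, inner_self_eq_zero] at h1
  rw [fm_Jm' hE hE', idem_apply (compl_idem hE), E_F hE, inner_zero_left, zero_sub,
    neg_eq_zero, inner_self_eq_zero] at h2
  have h3 : E y + (1 - E) y = y := by
    change E y + (y - E y) = y
    abel
  rw [← h3, h1, h2, add_zero]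

lemma re_fm_Jm {E : H →L[ℂ] H} (hE : E * E = E) (hE' : star E = E) (x : H) :
    (fm (Jm E) x x).re = ‖E x‖ ^ 2 - ‖(1 - E) x‖ ^ 2 := by
  rw [fm_Jm' hE hE', inner_self_eq_norm_sq_to_K, inner_self_eq_norm_sq_to_K]
  have : ((‖E x‖ : ℂ) ^ 2 - (‖(1 - E) x‖ : ℂ) ^ 2) = ((‖E x‖ ^ 2 - ‖(1 - E) x‖ ^ 2 : ℝ) : ℂ) := by
    push_cast; rfl
  change ((‖E x‖ : ℂ) ^ 2 - (‖(1 - E) x‖ : ℂ) ^ 2).re = _
  rw [this, Complex.ofReal_re]

/-- The projection `f` is self-adjoint and commutes with `E`. -/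
structure Block (E f : H →L[ℂ] H) : Prop where
  idem : f * f = f
  sa : star f = f
  comm : ∀ x, f (E x) = E (f x)

lemma Block.comm' {E f : H →L[ℂ] H} (hf : Block E f) (x : H) :
    f ((1 - E) x) = (1 - E) (f x) := by
  change f (x - E x) = f x - E (f x)
  rw [map_sub, hf.comm]

lemma Block.compl {E f : H →L[ℂ] H} (hf : Block E f) : Block (1 - E) f :=
  ⟨hf.idem, hf.sa, hf.comm'⟩

lemma Block.norm_le {E f : H →L[ℂ] H} (hf : Block E f) (x : H) : ‖f x‖ ≤ ‖x‖ := by
  have h1 : ‖f x‖ ^ 2 = (⟪x, f x⟫_ℂ).re := by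
    have h2 : ⟪f x, f x⟫_ℂ = ⟪x, f x⟫_ℂ := by
      rw [proj_adj hf.sa, idem_apply hf.idem]
    rw [← h2, inner_self_eq_norm_sq_to_K]
    change _ = ((‖f x‖ : ℂ) ^ 2).re
    rw [← Complex.ofReal_pow, Complex.ofReal_re]
  have h3 : (⟪x, f x⟫_ℂ).re ≤ ‖x‖ * ‖f x‖ :=
    (Complex.re_le_norm _).trans (norm_inner_le_norm _ _)
  have h4 := norm_nonneg (f x)
  have h5 := norm_nonneg x
  by_contra hcon
  push Not at hcon
  nlinarith

lemma Block.fm_sa {E f : H →L[ℂ] H} (hf : Block E f) (x y : H) :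
    fm (Jm E) (f x) y = fm (Jm E) x (f y) := by
  rw [fm_Jm, fm_Jm, ← hf.comm, ← hf.comm', proj_adj hf.sa, proj_adj hf.sa]

variable {A : Subalgebra ℂ (H →L[ℂ] H)} {N P : Submodule ℂ H} {E : H →L[ℂ] H}

/-- The algebra acts by scalars on the block `f` of the orthogonal complement of `D = N ∩ P`
modulo `D`. -/
def Good (G : H →L[ℂ] H) (A : Subalgebra ℂ (H →L[ℂ] H)) (N P : Submodule ℂ H)
    (f : H →L[ℂ] H) : Prop :=
  ∀ a ∈ A, ∃ c : ℂ, ∀ x ∈ perp G (N ⊓ P), a (f x) - c • f x ∈ N ⊓ P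

lemma perp_neg (G : H →L[ℂ] H) (D : Submodule ℂ H) : perp (-G) D = perp G D := by
  ext x
  rw [mem_perp, mem_perp]
  refine forall_congr' fun y => forall_congr' fun _ => ?_
  rw [fm_neg, neg_eq_zero]

lemma Good.swap {f : H →L[ℂ] H} (h : Good (Jm E) A N P f) : Good (Jm (1 - E)) A P N f := by
  intro a ha
  obtain ⟨c, hc⟩ := h a ha
  refine ⟨c, ?_⟩
  intro x hx
  rw [inf_comm, Jm_compl, perp_neg] at hx
  rw [inf_comm]
  exact hc x hx

lemma block_main (hE : E * E = E) (hE' : star E = E) (h : MaxDual (Jm E) A N P)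
    {f : H →L[ℂ] H} (hfA : f ∈ A) (hf : Block E f) (hg : Good (Jm E) A N P f) {u : H}
    (hu : E u = u) (hfu : f u = u) : ∃ p ∈ P, E p = u := by
  have hG := herm_Jm hE hE'
  obtain ⟨T, hT1, hT2, hT3, hT4⟩ := parrott hE hE' (N := N) (P := P)
    (fun p hp => by
      have h1 := h.pos p hp
      rw [re_fm_Jm hE hE'] at h1
      exact le_of_pow_le_pow_left₀ two_ne_zero (norm_nonneg _) (by linarith))
    (fun y hy => by
      have h1 := h.neg y hy
      rw [re_fm_Jm hE hE'] at h1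
      exact le_of_pow_le_pow_left₀ two_ne_zero (norm_nonneg _) (by linarith))
    (fun p hp y hy => by
      have h1 := h.orth p hp y hy
      rw [fm_Jm' hE hE'] at h1
      exact (sub_eq_zero.mp h1).symm)
  have hff : ∀ x, f (f x) = f x := fun x => idem_apply hf.idem x
  -- the subspace which is added to `P`
  let Q : Submodule ℂ H :=
    { carrier := {v | f v = v ∧ (1 - E) v = f (T (E v))}
      add_mem' := by
        rintro a b ⟨ha1, ha2⟩ ⟨hb1, hb2⟩
        exact ⟨by rw [map_add, ha1, hb1], by rw [map_add, ha2, hb2, map_add, map_add, map_add]⟩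
      zero_mem' := ⟨by rw [map_zero], by rw [map_zero, map_zero, map_zero, map_zero]⟩
      smul_mem' := by
        rintro c a ⟨ha1, ha2⟩
        exact ⟨by rw [map_smul, ha1], by rw [map_smul, ha2, map_smul, map_smul, map_smul]⟩ }
  have hQ : ∀ v, v ∈ Q ↔ f v = v ∧ (1 - E) v = f (T (E v)) := fun v => Iff.rfl
  have horth : ∀ s ∈ Q, ∀ y ∈ N, fm (Jm E) s y = 0 := by
    intro s hs y hy
    obtain ⟨hs1, hs2⟩ := (hQ s).mp hs
    have h1 : fm (Jm E) s y = fm (Jm E) s (f y) := by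
      rw [← hf.fm_sa, hs1]
    have hfy := h.invN f hfA y hy
    rw [h1, fm_Jm' hE hE', hs2, proj_adj hf.sa, hf.comm', hff, hT3 _ _ hfy, sub_self]
  have hperp : ∀ s ∈ Q, s ∈ perp (Jm E) (N ⊓ P) := by
    intro s hs y hy
    exact hG.eq_zero (horth s hs y hy.1)
  have hdual : Dual (Jm E) A N (P ⊔ Q) := by
    refine ⟨?_, h.neg, ?_, h.invN, ?_⟩
    · intro v hv
      obtain ⟨p, hp, s, hs, rfl⟩ := Submodule.mem_sup.mp hv
      obtain ⟨hs1, hs2⟩ := (hQ s).mp hs
      have hfp := h.invP f hfA p hp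
      set v := p + s with hv'
      have hfv : f v = f p + s := by rw [hv', map_add, hs1]
      have e1 : fm (Jm E) v v = fm (Jm E) (f v) (f v) + fm (Jm E) (v - f v) (v - f v) := by
        have e2 : fm (Jm E) (f v) (v - f v) = 0 := by
          rw [hf.fm_sa, map_sub, hff, sub_self, fm_zero_right]
        have e3 : fm (Jm E) (v - f v) (f v) = 0 := by
          rw [← hf.fm_sa, map_sub, hff, sub_self, fm_zero_left]
        have e4 : v = f v + (v - f v) := by abel
        calc fm (Jm E) v v = fm (Jm E) (f v + (v - f v)) (f v + (v - f v)) := by rw [← e4]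
          _ = _ := by
            rw [fm_add_left, fm_add_right, fm_add_right, e2, e3, add_zero, zero_add]
      have e5 : v - f v = p - f p := by rw [hfv, hv']; abel
      rw [e1, Complex.add_re]
      have h1 := h.pos _ (P.sub_mem hp hfp)
      rw [e5]
      have h2 : (1 - E) (f v) = f (T (E (f v))) := by
        have h3 : (1 - E) (f p) = f (T (E (f p))) := by
          rw [hT2 _ hfp, hf.comm', hff]
        rw [hfv, map_add, h3, hs2, map_add, map_add, map_add]
      have h3 : ‖(1 - E) (f v)‖ ≤ ‖E (f v)‖ := by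
        rw [h2]
        exact (hf.norm_le _).trans (hT1 _)
      have h4 : 0 ≤ (fm (Jm E) (f v) (f v)).re := by
        rw [re_fm_Jm hE hE']
        have := norm_nonneg ((1 - E) (f v))
        have : ‖(1 - E) (f v)‖ ^ 2 ≤ ‖E (f v)‖ ^ 2 := by gcongr
        linarith
      linarith
    · intro v hv y hy
      obtain ⟨p, hp, s, hs, rfl⟩ := Submodule.mem_sup.mp hv
      rw [fm_add_left, h.orth p hp y hy, horth s hs y hy, add_zero]
    · intro a ha v hv
      obtain ⟨p, hp, s, hs, rfl⟩ := Submodule.mem_sup.mp hv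
      obtain ⟨c, hc⟩ := hg a ha
      have h1 := hc s (hperp s hs)
      rw [((hQ s).mp hs).1] at h1
      have e : a (p + s) = (a p + (a s - c • s)) + c • s := by rw [map_add]; abel
      rw [e]
      exact Submodule.add_mem_sup (P.add_mem (h.invP a ha p hp) h1.2) (Q.smul_mem c hs)
  have hle := (h.max N (P ⊔ Q) le_rfl le_sup_left hdual).2
  have hfT : ∀ x, (1 - E) (f (T x)) = f (T x) := by
    intro x
    rw [← hf.comm']
    change f (T x - E (T x)) = f (T x)
    rw [hT4, sub_zero]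
  have hET : ∀ x, E (f (T x)) = 0 := by
    intro x
    rw [← hf.comm, hT4, map_zero]
  have hFu : (1 - E) u = 0 := by
    change u - E u = 0
    rw [hu, sub_self]
  refine ⟨u + f (T u), hle (Submodule.mem_sup_right ?_), ?_⟩
  · rw [hQ]
    refine ⟨by rw [map_add, hfu, hff], ?_⟩
    rw [map_add, hFu, hfT, zero_add, map_add, hu, hET, add_zero]
  · rw [map_add, hu, hET, add_zero]

lemma core_N (hE : E * E = E) (hE' : star E = E) (h : MaxDual (Jm E) A N P)
    {ι : Type*} (f : ι → H →L[ℂ] H) (hfA : ∀ b, f b ∈ A) (hf : ∀ b, Block E (f b))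
    (htot : ∀ K : Submodule ℂ H, IsClosed (K : Set H) → ∀ z, (∀ b, f b z ∈ K) → z ∈ K)
    (hg : ∀ b, Good (Jm E) A N P (f b)) (z : H) (hz : ∀ x ∈ P, fm (Jm E) x z = 0) : z ∈ N := by
  refine htot N h.isClosed_N z fun b => ?_
  have hG := herm_Jm hE hE'
  have hff : ∀ x, f b (f b x) = f b x := fun x => idem_apply (hf b).idem x
  have hsw : MaxDual (Jm (1 - E)) A P N := by
    rw [Jm_compl]
    exact h.swap hG
  obtain ⟨y₀, hy₀, hy₁⟩ := block_main (compl_idem hE) (compl_star hE') hsw (hfA b) (hf b).compl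
    (hg b).swap (u := (1 - E) (f b z)) (idem_apply (compl_idem hE) _)
    (by rw [(hf b).comm', hff])
  -- replace `y₀` by its part in the block
  have hy : f b y₀ ∈ N := h.invN _ (hfA b) _ hy₀
  have hy2 : (1 - E) (f b y₀) = (1 - E) (f b z) := by
    rw [← (hf b).comm', hy₁, (hf b).comm', hff]
  set w := f b z - f b y₀ with hw
  have hFw : (1 - E) w = 0 := by rw [hw, map_sub, hy2, sub_self]
  have hEw : E w = w := by
    have h1 : (1 - E) w = w - E w := rfl
    rw [h1] at hFw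
    exact (sub_eq_zero.mp hFw).symm
  have hfw : f b w = w := by rw [hw, map_sub, hff, hff]
  obtain ⟨p, hp, hp1⟩ := block_main hE hE' h (hfA b) (hf b) (hg b) hEw hfw
  have h1 : fm (Jm E) p w = 0 := by
    rw [hw, fm_sub_right, ← (hf b).fm_sa, hz _ (h.invP _ (hfA b) p hp), h.orth p hp _ hy, sub_zero]
  rw [fm_Jm' hE hE', hp1, hEw, hFw, inner_zero_right, sub_zero, inner_self_eq_zero] at h1
  rw [hw, sub_eq_zero] at h1
  rw [h1]
  exact hy

/-- A maximal invariant dual pair is a maximal dual pair, if there are sufficiently many good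
blocks. -/
theorem core_aligned (hE : E * E = E) (hE' : star E = E) (h : MaxDual (Jm E) A N P)
    {ι : Type*} (f : ι → H →L[ℂ] H) (hfA : ∀ b, f b ∈ A) (hf : ∀ b, Block E (f b))
    (htot : ∀ K : Submodule ℂ H, IsClosed (K : Set H) → ∀ z, (∀ b, f b z ∈ K) → z ∈ K)
    (hg : ∀ b, Good (Jm E) A N P (f b)) :
    (∀ y, y ∈ N ↔ ∀ x ∈ P, fm (Jm E) x y = 0) ∧ (∀ x, x ∈ P ↔ ∀ y ∈ N, fm (Jm E) x y = 0) := by
  have hG := herm_Jm hE hE'
  refine ⟨fun y => ⟨fun hy x hx => h.orth x hx y hy, core_N hE hE' h f hfA hf htot hg y⟩,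
    fun x => ⟨fun hx y hy => h.orth x hx y hy, fun hx => ?_⟩⟩
  have hsw : MaxDual (Jm (1 - E)) A P N := by
    rw [Jm_compl]
    exact h.swap hG
  refine core_N (compl_idem hE) (compl_star hE') hsw f hfA (fun b => (hf b).compl) htot
    (fun b => (hg b).swap) x fun y hy => ?_
  rw [Jm_compl, fm_neg, hG.eq_zero (hx y hy), neg_zero]

end Pool.Agent.H91.PH
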