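import Pool.Agent.H91.PH.Grow

/-!
From a hypermaximal neutral subspace of the dilation space to a maximal dual pair.
-/

set_option autoImplicit false

open scoped InnerProductSpace ComplexConjugate

namespace Pool.Agent.H91.PH

variable {H : Type} [NormedAddCommGroup H] [InnerProductSpace ℂ H] [CompleteSpace H]

lemma E_add_F (E : H →L[ℂ] H) (x : H) : E x + (1 - E) x = x := by
  change E x + (x - E x) = x
  abel

/-- A positive subspace whose projection is everything is half of a maximal dual pair. -/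
theorem full_graph {E : H →L[ℂ] H} (hE : E * E = E) (hE' : star E = E) {P : Submodule ℂ H}
    (pos : ∀ x ∈ P, 0 ≤ (fm (Jm E) x x).re) (full : ∀ u : H, ∃ p ∈ P, E p = E u) :
    (∀ y ∈ perp (Jm E) P, (fm (Jm E) y y).re ≤ 0) ∧
    (∀ x, x ∈ P ↔ ∀ y ∈ perp (Jm E) P, fm (Jm E) x y = 0) := by
  have hG := herm_Jm hE hE'
  have hP : ∀ p ∈ P, ‖(1 - E) p‖ ≤ ‖E p‖ := by
    intro p hp
    have h1 := pos p hp
    rw [re_fm_Jm hE hE'] at h1
    exact le_of_pow_le_pow_left₀ two_ne_zero (norm_nonneg _) (by linarith)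
  constructor
  · intro y hy
    obtain ⟨p, hp, h1⟩ := full y
    have h2 := hy p hp
    rw [fm_Jm' hE hE', h1, sub_eq_zero] at h2
    have h3 : ‖E y‖ ^ 2 ≤ ‖E y‖ * ‖(1 - E) y‖ := by
      have h4 : ‖E y‖ ^ 2 = ‖⟪E y, E y⟫_ℂ‖ := by
        rw [inner_self_eq_norm_sq_to_K]
        simp
      rw [h4, h2]
      calc ‖⟪(1 - E) p, (1 - E) y⟫_ℂ‖ ≤ ‖(1 - E) p‖ * ‖(1 - E) y‖ := norm_inner_le_norm _ _
        _ ≤ ‖E y‖ * ‖(1 - E) y‖ := by
          have := hP p hp
          rw [h1] at this
          gcongr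
    have h5 : ‖E y‖ ≤ ‖(1 - E) y‖ := by
      rcases (norm_nonneg (E y)).eq_or_lt with h | h
      · rw [← h]; positivity
      · rw [sq] at h3
        exact le_of_mul_le_mul_left h3 h
    rw [re_fm_Jm hE hE']
    have := norm_nonneg (E y)
    nlinarith
  · intro x
    constructor
    · intro hx y hy
      exact hy x hx
    · intro hx
      obtain ⟨p, hp, h1⟩ := full x
      -- the angular operator
      obtain ⟨T, hT1, -, hT3, -⟩ := exists_factor (V := P)
        ((E : H →ₗ[ℂ] H) ∘ₗ P.subtype) (((1 - E : H →L[ℂ] H) : H →ₗ[ℂ] H) ∘ₗ P.subtype)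
        (fun p => hP p p.2)
      have hT1' : ∀ p ∈ P, T (E p) = (1 - E) p := fun p hp => hT1 ⟨p, hp⟩
      have hT3' : ∀ v, E v = 0 → T v = 0 := fun v hv => hT3 v fun p => by
        change ⟪E p, v⟫_ℂ = 0
        rw [proj_adj hE', hv, inner_zero_right]
      have hTF : ∀ v, T v = T (E v) := by
        intro v
        have h2 : T ((1 - E) v) = 0 := hT3' _ (E_F hE v)
        calc T v = T (E v + (1 - E) v) := by rw [E_add_F]
          _ = T (E v) := by rw [map_add, h2, add_zero]
      have hadj : ∀ u v, ⟪(ContinuousLinearMap.adjoint T) u, v⟫_ℂ = ⟪u, T v⟫_ℂ := fun u v =>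
        ContinuousLinearMap.adjoint_inner_left _ _ _
      have hstar : ∀ u, E ((ContinuousLinearMap.adjoint T) u) = (ContinuousLinearMap.adjoint T) u := by
        intro u
        refine ext_inner_right ℂ fun v => ?_
        rw [proj_adj hE', hadj, hadj, ← hTF]
      set r := x - p with hr
      have hEr : E r = 0 := by rw [hr, map_sub, h1, sub_self]
      have hFr : (1 - E) r = r := by
        have := E_add_F E r
        rwa [hEr, zero_add] at this
      have hrperp : ∀ y ∈ perp (Jm E) P, fm (Jm E) r y = 0 := by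
        intro y hy
        rw [hr, fm_sub_left, hx y hy, hy p hp, sub_self]
      have hn : r + (ContinuousLinearMap.adjoint T) r ∈ perp (Jm E) P := by
        intro q hq
        rw [fm_Jm' hE hE', map_add, map_add, hEr, hFr, hstar, zero_add]
        have h2 : (1 - E) ((ContinuousLinearMap.adjoint T) r) = 0 := by
          rw [← hstar r, F_E hE]
        rw [h2, add_zero]
        have h3 : ⟪E q, (ContinuousLinearMap.adjoint T) r⟫_ℂ = ⟪T (E q), r⟫_ℂ :=
          ContinuousLinearMap.adjoint_inner_right _ _ _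
        rw [h3, hT1' q hq, sub_self]
      have h4 := hrperp _ hn
      rw [fm_Jm' hE hE', hEr, inner_zero_left, zero_sub, neg_eq_zero, map_add, hFr] at h4
      have h2 : (1 - E) ((ContinuousLinearMap.adjoint T) r) = 0 := by
        rw [← hstar r, F_E hE]
      rw [h2, add_zero, inner_self_eq_zero] at h4
      have h5 : x = p := sub_eq_zero.mp h4
      rw [h5]
      exact hp

/-- The projection of a hypermaximal neutral subspace is everything. -/
lemma neutral_full {E : H →L[ℂ] H} (hE : E * E = E) (hE' : star E = E) {D : Submodule ℂ H}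
    (hD : ∀ z, z ∈ D ↔ ∀ d ∈ D, fm (Jm E) d z = 0) : ∀ u : H, ∃ d ∈ D, E d = E u := by
  have hDc : IsClosed (D : Set H) := by
    have h1 : (D : Set H) = ⋂ d ∈ D, {z | fm (Jm E) d z = 0} := by
      ext z
      rw [SetLike.mem_coe, hD]
      simp
    rw [h1]
    exact isClosed_biInter fun d _ => isClosed_eq (continuous_fm_right d) continuous_const
  have hD0 : ∀ d ∈ D, ‖E d‖ = ‖(1 - E) d‖ := by
    intro d hd
    have h1 := (hD d).mp hd d hd
    have h2 := re_fm_Jm hE hE' d
    rw [h1, Complex.zero_re] at h2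
    exact (pow_left_inj₀ (norm_nonneg _) (norm_nonneg _) two_ne_zero).mp (by linarith)
  have hnorm : ∀ d ∈ D, ‖d‖ ≤ 2 * ‖E d‖ := by
    intro d hd
    calc ‖d‖ = ‖E d + (1 - E) d‖ := by rw [E_add_F]
      _ ≤ ‖E d‖ + ‖(1 - E) d‖ := norm_add_le _ _
      _ = 2 * ‖E d‖ := by rw [← hD0 d hd]; ring
  -- the projection of `D` is closed
  set R : Submodule ℂ H := D.map (E : H →ₗ[ℂ] H) with hR
  have hRc : IsClosed (R : Set H) := by
    rw [← isSeqClosed_iff_isClosed]
    intro u v hu huv
    have hu' : ∀ n, ∃ d ∈ D, E d = u n := fun n => by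
      obtain ⟨d, hd, h1⟩ := hu n
      exact ⟨d, hd, h1⟩
    choose d hd hdu using hu'
    have hc : CauchySeq d := by
      have h1 := huv.cauchySeq
      rw [Metric.cauchySeq_iff'] at h1 ⊢
      intro ε hε
      obtain ⟨N, hN⟩ := h1 (ε / 2) (by positivity)
      refine ⟨N, fun n hn => ?_⟩
      have h2 := hN n hn
      rw [dist_eq_norm] at h2 ⊢
      have h3 := hnorm _ (D.sub_mem (hd n) (hd N))
      rw [map_sub, hdu, hdu] at h3
      linarith
    obtain ⟨e, he⟩ := cauchySeq_tendsto_of_complete hc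
    have heD : e ∈ D := hDc.mem_of_tendsto he (Filter.Eventually.of_forall hd)
    have h2 : Filter.Tendsto (fun n => E (d n)) Filter.atTop (nhds (E e)) :=
      (E.continuous.tendsto e).comp he
    have h3 : (fun n => E (d n)) = u := funext hdu
    rw [h3] at h2
    exact ⟨e, heD, tendsto_nhds_unique h2 huv⟩
  intro u
  have : CompleteSpace R := hRc.completeSpace_coe
  set w := E u - R.starProjection (E u) with hw
  have hwR : ∀ d ∈ D, ⟪E d, w⟫_ℂ = 0 := by
    intro d hd
    exact (R.mem_orthogonal _).mp (R.sub_starProjection_mem_orthogonal (E u)) _ ⟨d, hd, rfl⟩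
  have hEw : E w = w := by
    obtain ⟨d, hd, h1⟩ : R.starProjection (E u) ∈ R := R.starProjection_apply_mem _
    have h1' : E d = R.starProjection (E u) := h1
    rw [hw, map_sub, idem_apply hE, ← h1', idem_apply hE]
  have hwD : w ∈ D := by
    rw [hD]
    intro d hd
    rw [fm_Jm' hE hE', hEw, hwR d hd, ← hEw, F_E hE, inner_zero_right, sub_zero]
  have hw0 : w = 0 := by
    have h1 := hD0 w hwD
    have h2 : (1 - E) w = 0 := by rw [← hEw, F_E hE]
    rw [h2, norm_zero, hEw, norm_eq_zero] at h1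
    exact h1
  obtain ⟨d, hd, h1⟩ : R.starProjection (E u) ∈ R := R.starProjection_apply_mem _
  refine ⟨d, hd, ?_⟩
  have h1' : E d = R.starProjection (E u) := h1
  rw [h1']
  exact (sub_eq_zero.mp hw0).symm

end Pool.Agent.H91.PH
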