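import Pool.Agent.H91.PH.Big

/-!
The dilation of a Krein space in which a given invariant decomposition of the form on an invariant
subspace becomes a neutral subspace.
-/

set_option autoImplicit false

open scoped InnerProductSpace ComplexConjugate

namespace Pool.Agent.H91.PH

section dense

variable {H K : Type} [AddCommGroup H] [Module ℂ H] [NormedAddCommGroup K] [InnerProductSpace ℂ K]

lemma dense_ind {M : Submodule ℂ H} {x : H →ₗ[ℂ] K} (dx : ∀ v : K, ∀ ε > 0, ∃ h ∈ M, ‖v - x h‖ < ε)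
    {S : Set K} (hS : IsClosed S) (h : ∀ h ∈ M, x h ∈ S) (v : K) : v ∈ S := by
  rw [← hS.closure_eq, Metric.mem_closure_iff]
  intro ε hε
  obtain ⟨g, hg, h1⟩ := dx v ε hε
  exact ⟨x g, h g hg, by rwa [dist_eq_norm]⟩

lemma dense_ext {M : Submodule ℂ H} {x : H →ₗ[ℂ] K} (dx : ∀ v : K, ∀ ε > 0, ∃ h ∈ M, ‖v - x h‖ < ε)
    {b b' : K →L[ℂ] K} (h : ∀ h ∈ M, b (x h) = b' (x h)) : b = b' := by
  ext v
  exact dense_ind dx (S := {v | b v = b' v}) (isClosed_eq b.continuous b'.continuous) h v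

lemma dense_inner {M : Submodule ℂ H} {x : H →ₗ[ℂ] K}
    (dx : ∀ v : K, ∀ ε > 0, ∃ h ∈ M, ‖v - x h‖ < ε)
    {b b' : K →L[ℂ] K} (h : ∀ h ∈ M, ∀ g ∈ M, ⟪b (x h), x g⟫_ℂ = ⟪x h, b' (x g)⟫_ℂ) (v w : K) :
    ⟪b v, w⟫_ℂ = ⟪v, b' w⟫_ℂ := by
  have h1 : ∀ v : K, ∀ g ∈ M, ⟪b v, x g⟫_ℂ = ⟪v, b' (x g)⟫_ℂ := by
    intro v g hg
    exact dense_ind dx (S := {v | ⟪b v, x g⟫_ℂ = ⟪v, b' (x g)⟫_ℂ})
      (isClosed_eq (by fun_prop) (by fun_prop)) (fun h' hh' => h h' hh' g hg) v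
  exact dense_ind dx (S := {w | ⟪b v, w⟫_ℂ = ⟪v, b' w⟫_ℂ})
    (isClosed_eq (by fun_prop) (by fun_prop)) (fun g hg => h1 v g hg) w

/-- Bounded extension of an operator from a dense subspace. -/
lemma exists_bdd [CompleteSpace K] {M : Submodule ℂ H} {x : H →ₗ[ℂ] K}
    {a : H →ₗ[ℂ] H} {C : ℝ} (hC : 0 ≤ C) (ha : ∀ h ∈ M, ‖x (a h)‖ ≤ C * ‖x h‖) :
    ∃ b : K →L[ℂ] K, (∀ h ∈ M, b (x h) = x (a h)) ∧ ‖b‖ ≤ C := by
  obtain ⟨Z, h1, h2, -, -⟩ := exists_factor (V := M) ((C : ℂ) • (x ∘ₗ M.subtype))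
    (x ∘ₗ a ∘ₗ M.subtype) (fun h => by
      change ‖x (a h)‖ ≤ ‖(C : ℂ) • x h‖
      rw [norm_smul, Complex.norm_real, Real.norm_eq_abs, abs_of_nonneg hC]
      exact ha h h.2)
  refine ⟨(C : ℂ) • Z, fun h hh => ?_, ?_⟩
  · have h3 := h1 ⟨h, hh⟩
    change Z ((C : ℂ) • x h) = x (a h) at h3
    rw [← h3, map_smul]
    rfl
  · rw [norm_smul, Complex.norm_real, Real.norm_eq_abs, abs_of_nonneg hC]
    have h3 : ‖Z‖ ≤ 1 := ContinuousLinearMap.opNorm_le_bound _ zero_le_one fun v => by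
      rw [one_mul]; exact h2 v
    nlinarith [norm_nonneg Z]

end dense

variable {H K L : Type} [NormedAddCommGroup H] [InnerProductSpace ℂ H] [NormedAddCommGroup K]
  [InnerProductSpace ℂ K] [NormedAddCommGroup L] [InnerProductSpace ℂ L]

/-- `x` and `y` represent the forms `X` and `fm G + X` on `M`. -/
structure IsRep (G : H →L[ℂ] H) (M : Submodule ℂ H) (X : H → H → ℂ) (x : H →ₗ[ℂ] K)
    (y : H →ₗ[ℂ] L) : Prop where
  hx : ∀ h ∈ M, ∀ g ∈ M, ⟪x h, x g⟫_ℂ = X h g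
  hy : ∀ h ∈ M, ∀ g ∈ M, ⟪y h, y g⟫_ℂ = fm G h g + X h g
  dx : ∀ v : K, ∀ ε > 0, ∃ h ∈ M, ‖v - x h‖ < ε
  dy : ∀ v : L, ∀ ε > 0, ∃ h ∈ M, ‖v - y h‖ < ε

variable {G : H →L[ℂ] H} {A : Subalgebra ℂ (H →L[ℂ] H)} {M : Submodule ℂ H} {X : H → H → ℂ}
  {x : H →ₗ[ℂ] K} {y : H →ₗ[ℂ] L}

lemma IsRep.nx (hr : IsRep G M X x y) {h : H} (hh : h ∈ M) : ‖x h‖ ^ 2 = (X h h).re := by
  rw [← hr.hx h hh h hh, inner_self_eq_norm_sq_to_K]
  change _ = ((‖x h‖ : ℂ) ^ 2).re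
  rw [← Complex.ofReal_pow, Complex.ofReal_re]

lemma IsRep.ny (hr : IsRep G M X x y) {h : H} (hh : h ∈ M) :
    ‖y h‖ ^ 2 = (fm G h h + X h h).re := by
  rw [← hr.hy h hh h hh, inner_self_eq_norm_sq_to_K]
  change _ = ((‖y h‖ : ℂ) ^ 2).re
  rw [← Complex.ofReal_pow, Complex.ofReal_re]

lemma Obj.exists_isRep (hG : Herm G) (ho : Obj G A M X) :
    ∃ (K : Type) (_ : NormedAddCommGroup K) (_ : InnerProductSpace ℂ K) (_ : CompleteSpace K)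
      (L : Type) (_ : NormedAddCommGroup L) (_ : InnerProductSpace ℂ L) (_ : CompleteSpace L)
      (x : H →ₗ[ℂ] K) (y : H →ₗ[ℂ] L), IsRep G M X x y := by
  obtain ⟨K, i1, i2, i3, x, hx, dx⟩ := exists_rep ho.add ho.smul ho.herm ho.pos
  obtain ⟨L, j1, j2, j3, y, hy, dy⟩ := exists_rep (M := M) (X := fun h g => fm G h g + X h g)
    (fun h hh h' hh' g hg => by
      change fm G (h + h') g + X (h + h') g = _
      rw [fm_add_left, ho.add h hh h' hh' g hg]; ring)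
    (fun c h hh g hg => by
      change fm G (c • h) g + X (c • h) g = _
      rw [fm_smul_left, ho.smul c h hh g hg]; ring)
    (fun h hh g hg => by
      change fm G g h + X g h = _
      rw [hG h g, ho.herm h hh g hg, map_add]) ho.pos'
  exact ⟨K, i1, i2, i3, L, j1, j2, j3, x, y, hx, hy, dx, dy⟩

/-- The vectors `(x g, y g)` are dense. -/
lemma Obj.approx (ho : Obj G A M X) (hr : IsRep G M X x y) (v : K) (w : L) {ε : ℝ} (hε : 0 < ε) :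
    ∃ g ∈ M, ‖v - x g‖ < ε ∧ ‖w - y g‖ < ε := by
  have key : ∀ h ∈ M, ∃ g ∈ M, ‖x (h - g)‖ < ε / 4 ∧ ‖y g‖ < ε / 4 := by
    intro h hh
    obtain ⟨g, hg, h1⟩ := ho.sing h hh ((ε / 4) ^ 2) (by positivity)
    rw [← hr.nx (M.sub_mem hh hg), ← hr.ny hg] at h1
    refine ⟨g, hg, ?_, ?_⟩
    · exact lt_of_pow_lt_pow_left₀ 2 (by positivity) (by nlinarith [sq_nonneg ‖y g‖])
    · exact lt_of_pow_lt_pow_left₀ 2 (by positivity) (by nlinarith [sq_nonneg ‖x (h - g)‖])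
  obtain ⟨h, hh, h1⟩ := hr.dx v (ε / 4) (by positivity)
  obtain ⟨h', hh', h2⟩ := hr.dy w (ε / 4) (by positivity)
  obtain ⟨g₁, hg₁, h3, h4⟩ := key h hh
  obtain ⟨g₂, hg₂, h5, h6⟩ := key h' hh'
  refine ⟨g₁ + (h' - g₂), M.add_mem hg₁ (M.sub_mem hh' hg₂), ?_, ?_⟩
  · have e : v - x (g₁ + (h' - g₂)) = (v - x h) + x (h - g₁) - x (h' - g₂) := by
      simp only [map_add, map_sub]; abel
    rw [e]
    calc ‖(v - x h) + x (h - g₁) - x (h' - g₂)‖ ≤ ‖v - x h‖ + ‖x (h - g₁)‖ + ‖x (h' - g₂)‖ :=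
          (norm_sub_le _ _).trans (by gcongr; exact norm_add_le _ _)
      _ < ε := by linarith
  · have e : w - y (g₁ + (h' - g₂)) = (w - y h') - y g₁ + y g₂ := by
      simp only [map_add, map_sub]; abel
    rw [e]
    calc ‖(w - y h') - y g₁ + y g₂‖ ≤ ‖w - y h'‖ + ‖y g₁‖ + ‖y g₂‖ :=
          (norm_add_le _ _).trans (by gcongr; exact norm_sub_le _ _)
      _ < ε := by linarith

/-- The embedding in the dilation space. -/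
noncomputable def emb (x : H →ₗ[ℂ] K) (y : H →ₗ[ℂ] L) : H →ₗ[ℂ] Big H K L where
  toFun := fun h => mkB h (x h) (y h)
  map_add' := fun h g => big_ext rfl (map_add x h g) (map_add y h g)
  map_smul' := fun c h => big_ext rfl (map_smul x c h) (map_smul y c h)

/-- The neutral subspace of the dilation space. -/
noncomputable def nd (M : Submodule ℂ H) (x : H →ₗ[ℂ] K) (y : H →ₗ[ℂ] L) :
    Submodule ℂ (Big H K L) := M.map (emb x y)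

lemma emb_mem_nd {h : H} (hh : h ∈ M) : emb x y h ∈ nd M x y := ⟨h, hh, rfl⟩

variable {E : H →L[ℂ] H}

lemma fm_emb (h : H) (z : Big H K L) :
    fm (Jm (bE K L E)) (emb x y h) z =
      fm (Jm E) h z.fst + ⟪x h, z.snd.fst⟫_ℂ - ⟪y h, z.snd.snd⟫_ℂ := fm_big E _ _

lemma nd_neutral (hr : IsRep (Jm E) M X x y) :
    ∀ z ∈ nd M x y, ∀ w ∈ nd M x y, fm (Jm (bE K L E)) z w = 0 := by
  rintro _ ⟨h, hh, rfl⟩ _ ⟨g, hg, rfl⟩
  rw [fm_emb]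
  change fm (Jm E) h g + ⟪x h, x g⟫_ℂ - ⟪y h, y g⟫_ℂ = 0
  rw [hr.hx h hh g hg, hr.hy h hh g hg]
  ring

/-- A vector orthogonal to the neutral subspace is determined by its first component. -/
lemma perp_inj (ho : Obj (Jm E) A M X) (hr : IsRep (Jm E) M X x y) {z : Big H K L}
    (hz : z ∈ perp (Jm (bE K L E)) (nd M x y)) (h0 : z.fst = 0) : z = 0 := by
  have h1 : ∀ g ∈ M, ⟪x g, z.snd.fst⟫_ℂ = ⟪y g, z.snd.snd⟫_ℂ := by
    intro g hg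
    have h2 := hz _ (emb_mem_nd hg)
    rw [fm_emb, h0, fm_zero_right, zero_add, sub_eq_zero] at h2
    exact h2
  have h2 : ∀ ε > 0, ‖z.snd.fst‖ ^ 2 ≤ ε * (‖z.snd.fst‖ + ‖z.snd.snd‖) := by
    intro ε hε
    obtain ⟨g, hg, h3, h4⟩ := ho.approx hr z.snd.fst 0 hε
    have e : (⟪z.snd.fst, z.snd.fst⟫_ℂ) =
        ⟪z.snd.fst - x g, z.snd.fst⟫_ℂ + ⟪y g, z.snd.snd⟫_ℂ := by
      rw [← h1 g hg, inner_sub_left]; ring
    have h5 : ‖z.snd.fst‖ ^ 2 = ‖⟪z.snd.fst, z.snd.fst⟫_ℂ‖ := by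
      rw [inner_self_eq_norm_sq_to_K]
      simp
    rw [h5, e]
    rw [zero_sub, norm_neg] at h4
    calc ‖⟪z.snd.fst - x g, z.snd.fst⟫_ℂ + ⟪y g, z.snd.snd⟫_ℂ‖
        ≤ ‖z.snd.fst - x g‖ * ‖z.snd.fst‖ + ‖y g‖ * ‖z.snd.snd‖ :=
          (norm_add_le _ _).trans (add_le_add (norm_inner_le_norm _ _) (norm_inner_le_norm _ _))
      _ ≤ ε * (‖z.snd.fst‖ + ‖z.snd.snd‖) := by
          rw [mul_add]; gcongr
  have h3 : ∀ ε > 0, ‖z.snd.snd‖ ^ 2 ≤ ε * (‖z.snd.fst‖ + ‖z.snd.snd‖) := by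
    intro ε hε
    obtain ⟨g, hg, h3, h4⟩ := ho.approx hr 0 z.snd.snd hε
    have e : (⟪z.snd.snd, z.snd.snd⟫_ℂ) =
        ⟪z.snd.snd - y g, z.snd.snd⟫_ℂ + ⟪x g, z.snd.fst⟫_ℂ := by
      rw [h1 g hg, inner_sub_left]; ring
    have h5 : ‖z.snd.snd‖ ^ 2 = ‖⟪z.snd.snd, z.snd.snd⟫_ℂ‖ := by
      rw [inner_self_eq_norm_sq_to_K]
      simp
    rw [h5, e]
    rw [zero_sub, norm_neg] at h3
    calc ‖⟪z.snd.snd - y g, z.snd.snd⟫_ℂ + ⟪x g, z.snd.fst⟫_ℂ‖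
        ≤ ‖z.snd.snd - y g‖ * ‖z.snd.snd‖ + ‖x g‖ * ‖z.snd.fst‖ :=
          (norm_add_le _ _).trans (add_le_add (norm_inner_le_norm _ _) (norm_inner_le_norm _ _))
      _ ≤ ε * (‖z.snd.fst‖ + ‖z.snd.snd‖) := by
          rw [mul_add, add_comm]; gcongr
  have key : ∀ t s : ℝ, 0 ≤ s → (∀ ε > 0, t ^ 2 ≤ ε * s) → t = 0 := by
    intro t s hs h
    by_contra ht
    have h4 : 0 < t ^ 2 := by positivity
    have h5 := h (t ^ 2 / (2 * (s + 1))) (by positivity)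
    have h6 : t ^ 2 / (2 * (s + 1)) * s < t ^ 2 := by
      rw [div_mul_eq_mul_div, div_lt_iff₀ (by positivity)]
      nlinarith
    linarith
  have h4 := key _ _ (by positivity) h2
  have h5 := key _ _ (by positivity) h3
  rw [norm_eq_zero] at h4 h5
  exact big_ext h0 h4 h5

/-- Up to vectors in the neutral subspace the last two components are small. -/
lemma near (ho : Obj G A M X) (hr : IsRep G M X x y) (z : Big H K L) {ε : ℝ} (hε : 0 < ε) :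
    ∃ d ∈ nd M x y, ‖(z - d).snd.fst‖ < ε ∧ ‖(z - d).snd.snd‖ < ε := by
  obtain ⟨g, hg, h1, h2⟩ := ho.approx hr z.snd.fst z.snd.snd hε
  exact ⟨_, emb_mem_nd hg, h1, h2⟩

/-- `T` is the operator on the dilation space which belongs to `a`. -/
def Ov (M : Submodule ℂ H) (x : H →ₗ[ℂ] K) (y : H →ₗ[ℂ] L) (a : H →L[ℂ] H)
    (T : Big H K L →L[ℂ] Big H K L) : Prop :=
  ∃ (b : K →L[ℂ] K) (c : L →L[ℂ] L), T = dg a b c ∧ (∀ h ∈ M, b (x h) = x (a h)) ∧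
    ∀ h ∈ M, c (y h) = y (a h)

lemma Ov.fst {a : H →L[ℂ] H} {T : Big H K L →L[ℂ] Big H K L} (h : Ov M x y a T) (z : Big H K L) :
    (T z).fst = a z.fst := by
  obtain ⟨b, c, rfl, -, -⟩ := h
  rfl

lemma Ov.emb {a : H →L[ℂ] H} {T : Big H K L →L[ℂ] Big H K L} (h : Ov M x y a T) {g : H}
    (hg : g ∈ M) : T (emb x y g) = PH.emb x y (a g) := by
  obtain ⟨b, c, rfl, h1, h2⟩ := h
  exact big_ext rfl (h1 g hg) (h2 g hg)

lemma Ov.unique (hr : IsRep G M X x y) {a : H →L[ℂ] H} {T T' : Big H K L →L[ℂ] Big H K L}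
    (h : Ov M x y a T) (h' : Ov M x y a T') : T = T' := by
  obtain ⟨b, c, rfl, h1, h2⟩ := h
  obtain ⟨b', c', rfl, h1', h2'⟩ := h'
  rw [dense_ext hr.dx (b := b) (b' := b') fun h hh => by rw [h1 h hh, h1' h hh],
    dense_ext hr.dy (b := c) (b' := c') fun h hh => by rw [h2 h hh, h2' h hh]]

lemma Ov.mul (ho : Obj G A M X) {a a' : H →L[ℂ] H} {T T' : Big H K L →L[ℂ] Big H K L}
    (ha' : a' ∈ A) (h : Ov M x y a T) (h' : Ov M x y a' T') : Ov M x y (a * a') (T * T') := by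
  obtain ⟨b, c, rfl, h1, h2⟩ := h
  obtain ⟨b', c', rfl, h1', h2'⟩ := h'
  refine ⟨b * b', c * c', dg_mul _ _ _ _ _ _, fun h hh => ?_, fun h hh => ?_⟩
  · change b (b' (x h)) = x (a (a' h))
    rw [h1' h hh, h1 _ (ho.inv a' ha' h hh)]
  · change c (c' (y h)) = y (a (a' h))
    rw [h2' h hh, h2 _ (ho.inv a' ha' h hh)]

lemma Ov.add {a a' : H →L[ℂ] H} {T T' : Big H K L →L[ℂ] Big H K L}
    (h : Ov M x y a T) (h' : Ov M x y a' T') : Ov M x y (a + a') (T + T') := by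
  obtain ⟨b, c, rfl, h1, h2⟩ := h
  obtain ⟨b', c', rfl, h1', h2'⟩ := h'
  refine ⟨b + b', c + c', dg_add _ _ _ _ _ _, fun h hh => ?_, fun h hh => ?_⟩
  · change b (x h) + b' (x h) = x (a h + a' h)
    rw [h1 h hh, h1' h hh, map_add]
  · change c (y h) + c' (y h) = y (a h + a' h)
    rw [h2 h hh, h2' h hh, map_add]

lemma Ov.smul {a : H →L[ℂ] H} {T : Big H K L →L[ℂ] Big H K L} (t : ℂ)
    (h : Ov M x y a T) : Ov M x y (t • a) (t • T) := by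
  obtain ⟨b, c, rfl, h1, h2⟩ := h
  refine ⟨t • b, t • c, dg_smul _ _ _ _, fun h hh => ?_, fun h hh => ?_⟩
  · change t • b (x h) = x (t • a h)
    rw [h1 h hh, map_smul]
  · change t • c (y h) = y (t • a h)
    rw [h2 h hh, map_smul]

lemma Ov.one : Ov M x y (1 : H →L[ℂ] H) 1 := ⟨1, 1, dg_one.symm, fun _ _ => rfl, fun _ _ => rfl⟩

lemma exists_ov [CompleteSpace K] [CompleteSpace L] (ho : Obj G A M X) (hr : IsRep G M X x y)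
    {a : H →L[ℂ] H} (ha : a ∈ A) : ∃ T, Ov M x y a T ∧ ‖T‖ ≤ ‖a‖ := by
  obtain ⟨b, h1, h2⟩ := exists_bdd (M := M) (x := x) (a := (a : H →ₗ[ℂ] H)) (norm_nonneg a)
    (fun h hh => by
      refine le_of_pow_le_pow_left₀ two_ne_zero (by positivity) ?_
      change ‖x (a h)‖ ^ 2 ≤ (‖a‖ * ‖x h‖) ^ 2
      rw [mul_pow, hr.nx hh, hr.nx (ho.inv a ha h hh)]
      exact ho.bd a ha h hh)
  obtain ⟨c, h3, h4⟩ := exists_bdd (M := M) (x := y) (a := (a : H →ₗ[ℂ] H)) (norm_nonneg a)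
    (fun h hh => by
      refine le_of_pow_le_pow_left₀ two_ne_zero (by positivity) ?_
      change ‖y (a h)‖ ^ 2 ≤ (‖a‖ * ‖y h‖) ^ 2
      rw [mul_pow, hr.ny hh, hr.ny (ho.inv a ha h hh)]
      exact ho.bd' a ha h hh)
  exact ⟨dg a b c, ⟨b, c, rfl, h1, h3⟩, dg_norm (norm_nonneg _) le_rfl h2 h4⟩

lemma Ov.adj1 (ho : Obj G A M X) (hr : IsRep G M X x y) {a a' : H →L[ℂ] H} (ha : a ∈ A)
    (ha' : a' ∈ A) (haa : ∀ f g : H, fm G (a f) g = fm G f (a' g))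
    {T T' : Big H K L →L[ℂ] Big H K L} (h : Ov M x y a T) (h' : Ov M x y a' T')
    (z w : Big H K L) : ⟪(T z).snd.fst, w.snd.fst⟫_ℂ = ⟪z.snd.fst, (T' w).snd.fst⟫_ℂ := by
  obtain ⟨b, c, rfl, h1, h2⟩ := h
  obtain ⟨b', c', rfl, h1', h2'⟩ := h'
  change ⟪b z.snd.fst, w.snd.fst⟫_ℂ = ⟪z.snd.fst, b' w.snd.fst⟫_ℂ
  refine dense_inner hr.dx (fun h hh g hg => ?_) _ _
  rw [h1 h hh, h1' g hg, hr.hx _ (ho.inv a ha h hh) g hg, hr.hx h hh _ (ho.inv a' ha' g hg),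
    ho.symm a ha a' ha' haa h hh g hg]

lemma Ov.adj2 (ho : Obj G A M X) (hr : IsRep G M X x y) {a a' : H →L[ℂ] H} (ha : a ∈ A)
    (ha' : a' ∈ A) (haa : ∀ f g : H, fm G (a f) g = fm G f (a' g))
    {T T' : Big H K L →L[ℂ] Big H K L} (h : Ov M x y a T) (h' : Ov M x y a' T')
    (z w : Big H K L) : ⟪(T z).snd.snd, w.snd.snd⟫_ℂ = ⟪z.snd.snd, (T' w).snd.snd⟫_ℂ := by
  obtain ⟨b, c, rfl, h1, h2⟩ := h
  obtain ⟨b', c', rfl, h1', h2'⟩ := h'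
  change ⟪c z.snd.snd, w.snd.snd⟫_ℂ = ⟪z.snd.snd, c' w.snd.snd⟫_ℂ
  refine dense_inner hr.dy (fun h hh g hg => ?_) _ _
  rw [h2 h hh, h2' g hg, hr.hy _ (ho.inv a ha h hh) g hg, hr.hy h hh _ (ho.inv a' ha' g hg),
    haa, ho.symm a ha a' ha' haa h hh g hg]

lemma Ov.adj (ho : Obj (Jm E) A M X) (hr : IsRep (Jm E) M X x y) {a a' : H →L[ℂ] H} (ha : a ∈ A)
    (ha' : a' ∈ A) (haa : ∀ f g : H, fm (Jm E) (a f) g = fm (Jm E) f (a' g))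
    {T T' : Big H K L →L[ℂ] Big H K L} (h : Ov M x y a T) (h' : Ov M x y a' T')
    (z w : Big H K L) :
    fm (Jm (bE K L E)) (T z) w = fm (Jm (bE K L E)) z (T' w) := by
  rw [fm_big, fm_big, h.adj1 ho hr ha ha' haa h', h.adj2 ho hr ha ha' haa h', h.fst, h'.fst, haa]

lemma Ov.norm_le [CompleteSpace K] [CompleteSpace L] (ho : Obj G A M X) (hr : IsRep G M X x y)
    {a : H →L[ℂ] H} (ha : a ∈ A) {T : Big H K L →L[ℂ] Big H K L} (h : Ov M x y a T) :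
    ‖T‖ ≤ ‖a‖ := by
  obtain ⟨T', h1, h2⟩ := exists_ov ho hr ha
  rw [h.unique hr h1]
  exact h2

lemma Ov.norm1 (ho : Obj G A M X) (hr : IsRep G M X x y) {a : H →L[ℂ] H} (ha : a ∈ A)
    {T : Big H K L →L[ℂ] Big H K L} (h : Ov M x y a T) (z : Big H K L) :
    ‖(T z).snd.fst‖ ^ 2 ≤ ‖a‖ ^ 2 * ‖z.snd.fst‖ ^ 2 := by
  obtain ⟨b, c, rfl, h1, h2⟩ := h
  change ‖b z.snd.fst‖ ^ 2 ≤ ‖a‖ ^ 2 * ‖z.snd.fst‖ ^ 2
  refine dense_ind hr.dx (S := {v | ‖b v‖ ^ 2 ≤ ‖a‖ ^ 2 * ‖v‖ ^ 2})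
    (isClosed_le (by fun_prop) (by fun_prop)) (fun h hh => ?_) _
  change ‖b (x h)‖ ^ 2 ≤ ‖a‖ ^ 2 * ‖x h‖ ^ 2
  rw [h1 h hh, hr.nx hh, hr.nx (ho.inv a ha h hh)]
  exact ho.bd a ha h hh

lemma Ov.norm2 (ho : Obj G A M X) (hr : IsRep G M X x y) {a : H →L[ℂ] H} (ha : a ∈ A)
    {T : Big H K L →L[ℂ] Big H K L} (h : Ov M x y a T) (z : Big H K L) :
    ‖(T z).snd.snd‖ ^ 2 ≤ ‖a‖ ^ 2 * ‖z.snd.snd‖ ^ 2 := by
  obtain ⟨b, c, rfl, h1, h2⟩ := h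
  change ‖c z.snd.snd‖ ^ 2 ≤ ‖a‖ ^ 2 * ‖z.snd.snd‖ ^ 2
  refine dense_ind hr.dy (S := {v | ‖c v‖ ^ 2 ≤ ‖a‖ ^ 2 * ‖v‖ ^ 2})
    (isClosed_le (by fun_prop) (by fun_prop)) (fun h hh => ?_) _
  change ‖c (y h)‖ ^ 2 ≤ ‖a‖ ^ 2 * ‖y h‖ ^ 2
  rw [h2 h hh, hr.ny hh, hr.ny (ho.inv a ha h hh)]
  exact ho.bd' a ha h hh

end Pool.Agent.H91.PH
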