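import Pool.Agent.H91.PH.Rad

/-!
Exponentials of self-adjoint elements of a symmetric algebra.
-/

set_option autoImplicit false

open scoped InnerProductSpace ComplexConjugate Nat Topology
open Filter

namespace Pool.Agent.H91.PH

variable {H : Type} [NormedAddCommGroup H] [InnerProductSpace ℂ H] [CompleteSpace H]

lemma exp_hasSum (a : H →L[ℂ] H) (x : H) :
    HasSum (fun n : ℕ => ((n ! : ℂ)⁻¹) • (a ^ n) x) ((NormedSpace.exp a) x) := by
  have h1 := NormedSpace.exp_series_hasSum_exp' (𝕂 := ℂ) a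
  have h2 := (ContinuousLinearMap.apply ℂ H x).hasSum h1
  exact h2

/-- A closed invariant subspace is invariant under the exponential. -/
lemma exp_inv {N : Submodule ℂ H} (hN : IsClosed (N : Set H)) {a : H →L[ℂ] H}
    (ha : ∀ x ∈ N, a x ∈ N) {x : H} (hx : x ∈ N) : (NormedSpace.exp a) x ∈ N := by
  have h1 := (exp_hasSum a x).tendsto_sum_nat
  refine hN.mem_of_tendsto h1 (Eventually.of_forall fun n => ?_)
  exact N.sum_mem fun i _ => N.smul_mem _ (pow_inv ha i x hx)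

/-- Adjoints of exponentials. -/
lemma exp_adj {G a b : H →L[ℂ] H} (hab : ∀ f g : H, fm G (a f) g = fm G f (b g)) (f g : H) :
    fm G ((NormedSpace.exp a) f) g = fm G f ((NormedSpace.exp b) g) := by
  have h1 : HasSum (fun n : ℕ => fm G (((n ! : ℂ)⁻¹) • (a ^ n) f) g)
      (fm G ((NormedSpace.exp a) f) g) := by
    have h3 := (exp_hasSum a f)
    have h4 : Continuous fun x => fm G x g := continuous_fm_left g
    have h5 := h3.map (⟨⟨fun x => fm G x g, fm_zero_left g⟩, fun x y => fm_add_left x y g⟩ :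
      H →+ ℂ) h4
    exact h5
  have h2 : HasSum (fun n : ℕ => fm G f (((n ! : ℂ)⁻¹) • (b ^ n) g))
      (fm G f ((NormedSpace.exp b) g)) := by
    have h3 := (exp_hasSum b g)
    have h4 : Continuous fun x => fm G f x := continuous_fm_right f
    have h5 := h3.map (⟨⟨fun x => fm G f x, fm_zero_right f⟩, fun x y => fm_add_right f x y⟩ :
      H →+ ℂ) h4
    exact h5
  have h3 : (fun n : ℕ => fm G (((n ! : ℂ)⁻¹) • (a ^ n) f) g) =
      fun n : ℕ => fm G f (((n ! : ℂ)⁻¹) • (b ^ n) g) := by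
    ext n
    rw [fm_smul_left, fm_smul_right, pow_adj hab, map_inv₀, map_natCast]
  rw [h3] at h1
  exact h1.unique h2

/-- The exponential series in a subalgebra. -/
lemma exp_partial_mem {B : Subalgebra ℂ (H →L[ℂ] H)} {a : H →L[ℂ] H} (ha : a ∈ B) (n : ℕ) :
    ∑ i ∈ Finset.range n, ((i ! : ℂ)⁻¹) • a ^ i ∈ B :=
  B.sum_mem fun i _ => B.smul_mem (B.pow_mem ha i) _

lemma exp_partial_adj {G a b : H →L[ℂ] H} (hab : ∀ f g : H, fm G (a f) g = fm G f (b g)) (n : ℕ)
    (f g : H) : fm G ((∑ i ∈ Finset.range n, ((i ! : ℂ)⁻¹) • a ^ i) f) g =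
      fm G f ((∑ i ∈ Finset.range n, ((i ! : ℂ)⁻¹) • b ^ i) g) := by
  induction n with
  | zero => simp [fm_zero_left, fm_zero_right]
  | succ n ih =>
    have e1 : (∑ i ∈ Finset.range (n + 1), ((i ! : ℂ)⁻¹) • a ^ i) f =
        (∑ i ∈ Finset.range n, ((i ! : ℂ)⁻¹) • a ^ i) f + ((n ! : ℂ)⁻¹) • (a ^ n) f := by
      rw [Finset.sum_range_succ]; rfl
    have e2 : (∑ i ∈ Finset.range (n + 1), ((i ! : ℂ)⁻¹) • b ^ i) g =
        (∑ i ∈ Finset.range n, ((i ! : ℂ)⁻¹) • b ^ i) g + ((n ! : ℂ)⁻¹) • (b ^ n) g := by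
      rw [Finset.sum_range_succ]; rfl
    rw [e1, e2, fm_add_left, fm_add_right, ih, fm_smul_left, fm_smul_right, pow_adj hab, map_inv₀,
      map_natCast]

/-- The bound for the exponentials. -/
lemma exp_bound {G : H →L[ℂ] H} {B : Subalgebra ℂ (H →L[ℂ] H)} {C : ℝ}
    (hC : ∀ b ∈ B, ∀ b' ∈ B, (∀ f g : H, fm G (b f) g = fm G f (b' g)) →
      ‖b‖ ^ 2 ≤ C * ‖b' * b‖) {a a' : H →L[ℂ] H} (ha : a ∈ B) (ha' : a' ∈ B)
    (hab : ∀ f g : H, fm G (a f) g = fm G f (a' g))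
    (he : NormedSpace.exp a' * NormedSpace.exp a = 1) :
    ‖NormedSpace.exp a‖ ^ 2 ≤ C * ‖(1 : H →L[ℂ] H)‖ := by
  have h1 := (NormedSpace.exp_series_hasSum_exp' (𝕂 := ℂ) a).tendsto_sum_nat
  have h2 := (NormedSpace.exp_series_hasSum_exp' (𝕂 := ℂ) a').tendsto_sum_nat
  rw [← he]
  refine le_of_tendsto_of_tendsto' ((h1.norm).pow 2) (((h2.mul h1).norm).const_mul C) fun n => ?_
  exact hC _ (exp_partial_mem ha n) _ (exp_partial_mem ha' n) (exp_partial_adj hab n)

/-- If a closed subspace is invariant under all `exp (t a)`, `t` real, then under `a`. -/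
lemma inv_of_exp {N : Submodule ℂ H} (hN : IsClosed (N : Set H)) {a : H →L[ℂ] H}
    (ha : ∀ t : ℝ, ∀ x ∈ N, (NormedSpace.exp ((t : ℂ) • a)) x ∈ N) {x : H} (hx : x ∈ N) :
    a x ∈ N := by
  have h1 : HasDerivAt (fun t : ℂ => (NormedSpace.exp (t • a)) x) (a x) 0 := by
    have h2 : HasDerivAt (fun u : ℂ => NormedSpace.exp (u • a)) a 0 := by
      simpa using hasDerivAt_exp_smul_const a (0 : ℂ)
    exact (ContinuousLinearMap.apply ℂ H x).hasFDerivAt.comp_hasDerivAt (0 : ℂ) h2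
  have h2 := h1.tendsto_slope_zero
  have h3 : Tendsto (fun n : ℕ => ((1 / ((n : ℝ) + 1) : ℝ) : ℂ)) atTop (𝓝[≠] 0) := by
    rw [tendsto_nhdsWithin_iff]
    refine ⟨?_, Eventually.of_forall fun n => ?_⟩
    · have h4 := (Complex.continuous_ofReal.tendsto 0).comp
        (tendsto_one_div_add_atTop_nhds_zero_nat (𝕜 := ℝ))
      simpa [Function.comp_def] using h4
    · have h5 : (0 : ℝ) < 1 / ((n : ℝ) + 1) := by positivity
      rw [Set.mem_compl_iff, Set.mem_singleton_iff, Complex.ofReal_eq_zero]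
      exact h5.ne'
  refine hN.mem_of_tendsto (h2.comp h3) (Eventually.of_forall fun n => ?_)
  have h6 := ha (1 / ((n : ℝ) + 1)) x hx
  refine N.smul_mem _ (N.sub_mem ?_ ?_)
  · rw [zero_add]
    exact h6
  · rw [zero_smul, NormedSpace.exp_zero]
    exact hx

end Pool.Agent.H91.PH
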