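import Pool.Agent.H91.PH.Main
import Pool.Agent.H91.PH.Alg

/-!
Algebras which are finite-dimensional modulo nilpotent operators.
-/

set_option autoImplicit false

open scoped InnerProductSpace ComplexConjugate
open Filter

namespace Pool.Agent.H91.PH

variable {H : Type} [NormedAddCommGroup H] [InnerProductSpace ℂ H] [CompleteSpace H]

lemma idem_cases {R : Type*} [CommRing R] [Algebra ℂ R] {g e : R} (hg : g * g = g)
    (he : e * e = e) {c : ℂ} (hn : IsNilpotent ((g - algebraMap ℂ R c) * e)) :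
    g * e = 0 ∨ g * e = e := by
  set x := g * e with hx
  have hxx : x * x = x := by
    calc x * x = (g * g) * (e * e) := by rw [hx]; ring
      _ = x := by rw [hg, he]
  have hxe : x * e = x := by rw [hx, mul_assoc, he]
  have h1 : (g - algebraMap ℂ R c) * e = x - algebraMap ℂ R c * e := by rw [hx]; ring
  rw [h1] at hn
  by_cases hc : c = 1
  · right
    rw [hc, map_one, one_mul] at hn
    exact eq_of_isNilpotent_sub_of_isIdempotentElem_of_commute hxx he hn (Commute.all _ _)
  · left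
    obtain ⟨k, hk⟩ := hn
    have h2 : ∀ k : ℕ, x * (x - algebraMap ℂ R c * e) ^ k = (1 - c) ^ k • x := by
      intro k
      induction k with
      | zero => simp
      | succ k ih =>
        rw [pow_succ, ← mul_assoc, ih, smul_mul_assoc, mul_sub, hxx, pow_succ, mul_smul]
        congr 1
        rw [← mul_assoc, mul_comm x (algebraMap ℂ R c), mul_assoc, hxe, sub_smul, one_smul,
          Algebra.smul_def]
    have h3 := h2 k
    rw [hk, mul_zero] at h3
    have h4 : (1 - c) ^ k ≠ 0 := pow_ne_zero _ (sub_ne_zero.mpr (Ne.symm hc))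
    exact (smul_eq_zero.mp h3.symm).resolve_left h4

/-- The algebra homomorphism given by a complete finite system of orthogonal idempotents. -/
noncomputable def sysHom {κ : Type} [Fintype κ] [DecidableEq κ] (f : κ → H →L[ℂ] H)
    (h1 : ∀ k, f k * f k = f k) (h2 : ∀ k l, k ≠ l → f k * f l = 0) (h3 : ∑ k, f k = 1) :
    (κ → ℂ) →ₐ[ℂ] (H →L[ℂ] H) :=
  AlgHom.ofLinearMap
    { toFun := fun c => ∑ k, c k • f k
      map_add' := fun c d => by
        simp only [Pi.add_apply, add_smul, Finset.sum_add_distrib]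
      map_smul' := fun t c => by
        simp only [Pi.smul_apply, smul_eq_mul, mul_smul, Finset.smul_sum, RingHom.id_apply] }
    (by
      change ∑ k, (1 : κ → ℂ) k • f k = 1
      simp only [Pi.one_apply, one_smul]
      exact h3)
    (by
      intro c d
      change ∑ k, (c * d) k • f k = (∑ k, c k • f k) * ∑ l, d l • f l
      rw [Finset.sum_mul]
      refine Finset.sum_congr rfl fun k _ => ?_
      rw [Finset.mul_sum, Finset.sum_eq_single k]
      · rw [smul_mul_smul_comm, h1, Pi.mul_apply]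
      · intro l _ hl
        rw [smul_mul_smul_comm, h2 k l (Ne.symm hl), smul_zero]
      · intro h
        exact absurd (Finset.mem_univ k) h)

lemma sysHom_apply {κ : Type} [Fintype κ] [DecidableEq κ] (f : κ → H →L[ℂ] H)
    (h1 : ∀ k, f k * f k = f k) (h2 : ∀ k l, k ≠ l → f k * f l = 0) (h3 : ∑ k, f k = 1)
    (c : κ → ℂ) : sysHom f h1 h2 h3 c = ∑ k, c k • f k := rfl

/-- Uniqueness of adjoints. -/
lemma adj_unique {G : H →L[ℂ] H} (hG' : Nondeg G) {a b b' : H →L[ℂ] H}
    (h : ∀ f g : H, fm G (a f) g = fm G f (b g)) (h' : ∀ f g : H, fm G (a f) g = fm G f (b' g)) :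
    b = b' := by
  ext y
  rw [← sub_eq_zero]
  refine hG' _ fun x => ?_
  rw [fm_sub_right, ← h, ← h', sub_self]

lemma sum_fm_right {G : H →L[ℂ] H} {κ : Type*} (s : Finset κ) (x : H) (y : κ → H) :
    fm G x (∑ k ∈ s, y k) = ∑ k ∈ s, fm G x (y k) := by
  unfold fm
  rw [inner_sum]

lemma sum_fm_left {G : H →L[ℂ] H} {κ : Type*} (s : Finset κ) (x : κ → H) (y : H) :
    fm G (∑ k ∈ s, x k) y = ∑ k ∈ s, fm G (x k) y := by
  unfold fm
  rw [map_sum, sum_inner]

/-- The extension theorem for algebras with a finite system of self-adjoint idempotents such that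
the algebra is scalar modulo the radical on each of them. -/
theorem main_sys {E : H →L[ℂ] H} (hE : E * E = E) (hE' : star E = E)
    {A : Subalgebra ℂ (H →L[ℂ] H)} (hc : Comm A) (hA : Symm (Jm E) A) {κ : Type} [Fintype κ]
    [DecidableEq κ] (f : κ → H →L[ℂ] H) (hf : ∀ k, f k ∈ A) (h1 : ∀ k, f k * f k = f k)
    (h2 : ∀ k l, k ≠ l → f k * f l = 0) (h3 : ∑ k, f k = 1)
    (h4 : ∀ k, ∀ x y : H, fm (Jm E) (f k x) y = fm (Jm E) x (f k y))
    (h5 : ∀ a ∈ A, ∀ k, ∃ c : ℂ, Rad (Jm E) A ((a - algebraMap ℂ (H →L[ℂ] H) c) * f k))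
    {N P : Submodule ℂ H} (h : Dual (Jm E) A N P) : Solvable (Jm E) A N P := by
  set B := (sysHom f h1 h2 h3).range with hB
  have hG' := nondeg_Jm hE hE'
  have hBA : ∀ b ∈ B, b ∈ A := by
    rintro b ⟨c, rfl⟩
    change sysHom f h1 h2 h3 c ∈ A
    rw [sysHom_apply]
    exact A.sum_mem fun k _ => A.smul_mem (hf k) _
  have hadj : ∀ c : κ → ℂ, ∀ x y : H, fm (Jm E) (sysHom f h1 h2 h3 c x) y =
      fm (Jm E) x (sysHom f h1 h2 h3 (fun k => conj (c k)) y) := by
    intro c x y
    rw [sysHom_apply, sysHom_apply]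
    have e1 : (∑ k, c k • f k) x = ∑ k, c k • f k x := by
      rw [ContinuousLinearMap.sum_apply]; rfl
    have e2 : (∑ k, conj (c k) • f k) y = ∑ k, conj (c k) • f k y := by
      rw [ContinuousLinearMap.sum_apply]; rfl
    rw [e1, e2, sum_fm_left, sum_fm_right]
    refine Finset.sum_congr rfl fun k _ => ?_
    rw [fm_smul_left, fm_smul_right, h4]
  refine main_sum hE hE' hc hA (B := B) ?_ ?_ ?_ (C := (∑ k, ‖f k‖) ^ 2) ?_ ?_ h
  · intro b hb x
    exact subset_closure ⟨b, hBA b hb, rfl⟩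
  · intro b hb b' hb'
    exact hc b (hBA b hb) b' (hBA b' hb')
  · rintro b ⟨c, rfl⟩
    exact ⟨sysHom f h1 h2 h3 (fun k => conj (c k)), ⟨_, rfl⟩, hadj c⟩
  · rintro b ⟨c, rfl⟩ b' _ hbb'
    have e1 : b' = sysHom f h1 h2 h3 (fun k => conj (c k)) := adj_unique hG' hbb' (hadj c)
    change ‖sysHom f h1 h2 h3 c‖ ^ 2 ≤ _ * ‖b' * sysHom f h1 h2 h3 c‖
    rw [e1, ← map_mul]
    set d : κ → ℂ := (fun k => conj (c k)) * c with hd
    set S := sysHom f h1 h2 h3 d with hS
    have e2 : ∀ k, f k * S = d k • f k := by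
      intro k
      rw [hS, sysHom_apply, Finset.mul_sum, Finset.sum_eq_single k]
      · rw [mul_smul_comm, h1]
      · intro l _ hl
        rw [mul_smul_comm, h2 k l (Ne.symm hl), smul_zero]
      · intro h'
        exact absurd (Finset.mem_univ k) h'
    have e3 : ∀ k, ‖d k‖ = ‖c k‖ ^ 2 := by
      intro k
      rw [hd, Pi.mul_apply, norm_mul, RCLike.norm_conj, sq]
    have e4 : ∀ k, ‖c k‖ * ‖f k‖ ≤ Real.sqrt ‖S‖ * ‖f k‖ := by
      intro k
      by_cases hk : f k = 0
      · rw [hk, norm_zero, mul_zero, mul_zero]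
      · have hk' : 0 < ‖f k‖ := norm_pos_iff.mpr hk
        have e5 : ‖c k‖ ^ 2 * ‖f k‖ ≤ ‖S‖ * ‖f k‖ := by
          calc ‖c k‖ ^ 2 * ‖f k‖ = ‖d k • f k‖ := by rw [norm_smul, e3]
            _ = ‖f k * S‖ := by rw [e2]
            _ ≤ ‖f k‖ * ‖S‖ := norm_mul_le _ _
            _ = ‖S‖ * ‖f k‖ := mul_comm _ _
        have e6 : ‖c k‖ ^ 2 ≤ ‖S‖ := le_of_mul_le_mul_right e5 hk'
        have e7 : ‖c k‖ ≤ Real.sqrt ‖S‖ := Real.le_sqrt_of_sq_le e6
        gcongr
    have e5 : ‖sysHom f h1 h2 h3 c‖ ≤ Real.sqrt ‖S‖ * ∑ k, ‖f k‖ := by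
      rw [sysHom_apply, Finset.mul_sum]
      refine (norm_sum_le _ _).trans (Finset.sum_le_sum fun k _ => ?_)
      rw [norm_smul]
      exact e4 k
    calc ‖sysHom f h1 h2 h3 c‖ ^ 2 ≤ (Real.sqrt ‖S‖ * ∑ k, ‖f k‖) ^ 2 := by gcongr
      _ = (∑ k, ‖f k‖) ^ 2 * ‖S‖ := by
        rw [mul_pow, Real.sq_sqrt (norm_nonneg _)]; ring
  · intro a ha x
    refine subset_closure ?_
    choose c hc' using fun k => h5 a ha k
    refine ⟨sysHom f h1 h2 h3 c, ⟨c, rfl⟩, a - sysHom f h1 h2 h3 c, ?_, ?_⟩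
    · have e1 : a - sysHom f h1 h2 h3 c =
          ∑ k, (a - algebraMap ℂ (H →L[ℂ] H) (c k)) * f k := by
        rw [sysHom_apply]
        simp only [sub_mul, Finset.sum_sub_distrib]
        rw [← Finset.mul_sum, h3, mul_one]
        congr 1
      rw [e1]
      have e2 : ∀ s : Finset κ, Rad (Jm E) A
          (∑ k ∈ s, (a - algebraMap ℂ (H →L[ℂ] H) (c k)) * f k) := by
        intro s
        induction s using Finset.induction_on with
        | empty => rw [Finset.sum_empty]; exact (isRad_rad _ A).zero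
        | insert k s hk ih =>
          rw [Finset.sum_insert hk]
          exact (isRad_rad _ A).add _ (hc' k) _ ih
      exact e2 Finset.univ
    · change a x = sysHom f h1 h2 h3 c x + (a x - sysHom f h1 h2 h3 c x)
      abel

/-- The extension theorem for algebras which are finite-dimensional modulo nilpotent operators. -/
theorem main_fin {E : H →L[ℂ] H} (hE : E * E = E) (hE' : star E = E)
    {A : Subalgebra ℂ (H →L[ℂ] H)} (hc : Comm A) (hA : Symm (Jm E) A)
    (F : Submodule ℂ (H →L[ℂ] H)) [FiniteDimensional ℂ F]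
    (hF : ∀ a ∈ A, ∃ b ∈ F, b ∈ A ∧ IsNilpotent (a - b))
    {N P : Submodule ℂ H} (h : Dual (Jm E) A N P) : Solvable (Jm E) A N P := by
  classical
  have hG := herm_Jm hE hE'
  have hG' := nondeg_Jm hE hE'
  letI inst : CommRing A := { (inferInstance : Ring A) with
    mul_comm := fun a b => Subtype.ext (hc a.1 a.2 b.1 b.2) }
  letI instA : Algebra ℂ A := Subalgebra.algebra A
  let F' : Submodule ℂ A := F.comap A.val.toLinearMap
  have hF'fd : FiniteDimensional ℂ F' := by
    let g : F' →ₗ[ℂ] F := (A.val.toLinearMap ∘ₗ F'.subtype).codRestrict F fun x => x.2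
    refine FiniteDimensional.of_injective g fun x y hxy => ?_
    have h1 : ((g x : F) : H →L[ℂ] H) = ((g y : F) : H →L[ℂ] H) := by rw [hxy]
    exact Subtype.ext (Subtype.ext h1)
  have hF' : ∀ a : A, ∃ b ∈ F', IsNilpotent (a - b) := by
    intro a
    obtain ⟨b, hb, hbA, k, hk⟩ := hF a.1 a.2
    refine ⟨⟨b, hbA⟩, hb, k, ?_⟩
    apply Subtype.ext
    exact hk
  obtain ⟨ι, _, e, he1, he2, he3, he4⟩ := exists_idempotents A F' hF'
  have hmul : ∀ x y : A, ((x * y : A) : H →L[ℂ] H) = (x : H →L[ℂ] H) * (y : H →L[ℂ] H) :=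
    fun _ _ => rfl
  have hnil : ∀ x : A, IsNilpotent x → IsNilpotent (x : H →L[ℂ] H) := by
    rintro x ⟨k, hk⟩
    refine ⟨k, ?_⟩
    have := congrArg Subtype.val hk
    exact this
  -- adjoints of the idempotents
  choose e' he'A he'adj using fun i => hA (e i).1 (e i).2
  have he'idem : ∀ i, e' i * e' i = e' i := by
    intro i
    refine adj_unique hG' (a := (e i : H →L[ℂ] H)) ?_ (he'adj i)
    intro x y
    have h1 : (e i : H →L[ℂ] H) x = (e i : H →L[ℂ] H) ((e i : H →L[ℂ] H) x) := by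
      have h2 := congrArg Subtype.val (he1 i)
      calc (e i : H →L[ℂ] H) x = ((e i : H →L[ℂ] H) * (e i : H →L[ℂ] H)) x := by
            conv_lhs => rw [← h2]
            rfl
        _ = _ := rfl
    rw [h1, he'adj, he'adj]
    rfl
  have hcases : ∀ i, e' i * (e i : H →L[ℂ] H) = 0 ∨ e' i = (e i : H →L[ℂ] H) := by
    intro i
    obtain ⟨c, hcn⟩ := he4 ⟨e' i, he'A i⟩ i
    rcases idem_cases (g := (⟨e' i, he'A i⟩ : A)) (e := e i) (Subtype.ext (he'idem i)) (he1 i) hcn
      with h0 | h1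
    · left
      exact congrArg Subtype.val h0
    · right
      have h2 : e' i * (e i : H →L[ℂ] H) = (e i : H →L[ℂ] H) := congrArg Subtype.val h1
      have hba := adj_symm hG (he'adj i)
      have h3 : e' i = e' i * (e i : H →L[ℂ] H) := by
        refine adj_unique hG' (a := (e i : H →L[ℂ] H)) (he'adj i) ?_
        intro x y
        calc fm (Jm E) ((e i : H →L[ℂ] H) x) y
            = fm (Jm E) (e' i ((e i : H →L[ℂ] H) x)) y := by
              conv_lhs => rw [← h2]
              rfl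
          _ = fm (Jm E) ((e i : H →L[ℂ] H) x) ((e i : H →L[ℂ] H) y) := (hba _ _).symm
          _ = fm (Jm E) x (e' i ((e i : H →L[ℂ] H) y)) := he'adj i _ _
          _ = fm (Jm E) x ((e' i * (e i : H →L[ℂ] H)) y) := rfl
      rw [h3, h2]
  have hsa : ∀ i, e' i = (e i : H →L[ℂ] H) → ∀ x y : H,
      fm (Jm E) ((e i : H →L[ℂ] H) x) y = fm (Jm E) x ((e i : H →L[ℂ] H) y) := by
    intro i hi x y
    rw [he'adj i x y, hi]
  have hrad : ∀ i, ¬ e' i = (e i : H →L[ℂ] H) → Rad (Jm E) A (e i : H →L[ℂ] H) := by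
    intro i hi
    refine (isRad_rad _ A).root _ (e i).2 _ (he'A i) (he'adj i) ?_
    change Rad (Jm E) A (e' i * (e i : H →L[ℂ] H))
    rw [(hcases i).resolve_right hi]
    exact (isRad_rad _ A).zero
  -- the self-adjoint system
  let κ := Option {i : ι // e' i = (e i : H →L[ℂ] H)}
  let g : {i : ι // e' i = (e i : H →L[ℂ] H)} → H →L[ℂ] H := fun i => (e i.1 : H →L[ℂ] H)
  have hgo : OrthogonalIdempotents g := by
    refine ⟨fun i => ?_, fun i j hij => ?_⟩
    · exact congrArg Subtype.val (he1 i.1)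
    · exact congrArg Subtype.val (he3 i.1 j.1 fun h' => hij (Subtype.ext h'))
  have hco := CompleteOrthogonalIdempotents.option hgo
  set f : κ → H →L[ℂ] H := (Option.elim · (1 - ∑ i, g i) g) with hf
  have hgs : ∀ (i : {i : ι // e' i = (e i : H →L[ℂ] H)}) (x y : H),
      fm (Jm E) (g i x) y = fm (Jm E) x (g i y) := fun i => hsa i.1 i.2
  have hsum : ∀ x y : H, fm (Jm E) ((∑ i, g i) x) y = fm (Jm E) x ((∑ i, g i) y) := by
    intro x y
    rw [ContinuousLinearMap.sum_apply, ContinuousLinearMap.sum_apply, sum_fm_left, sum_fm_right]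
    exact Finset.sum_congr rfl fun i _ => hgs i x y
  have hfA : ∀ k, f k ∈ A := by
    intro k
    cases k with
    | none => exact A.sub_mem A.one_mem (A.sum_mem fun i _ => (e i.1).2)
    | some i => exact (e i.1).2
  -- the rest idempotent is in the radical
  have hrest : Rad (Jm E) A (1 - ∑ i, g i) := by
    have e1 : (1 : H →L[ℂ] H) - ∑ i, g i =
        ∑ i ∈ Finset.univ.filter (fun i => ¬ e' i = (e i : H →L[ℂ] H)), (e i : H →L[ℂ] H) := by
      have e2 : (1 : H →L[ℂ] H) = ∑ i, (e i : H →L[ℂ] H) := by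
        have := congrArg A.val he2
        rw [map_sum] at this
        exact this.symm
      have e3 : ∑ i, g i =
          ∑ i ∈ Finset.univ.filter (fun i => e' i = (e i : H →L[ℂ] H)), (e i : H →L[ℂ] H) := by
        rw [← Finset.sum_subtype_eq_sum_filter]
        refine Finset.sum_bij (fun a _ => a) ?_ ?_ ?_ ?_
        · intro a _; simp
        · intro a _ b _ hab; exact hab
        · intro b hb; exact ⟨b, Finset.mem_univ _, rfl⟩
        · intro a _; rfl
      rw [e2, e3, sub_eq_iff_eq_add, add_comm]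
      exact (Finset.sum_filter_add_sum_filter_not _ _ _).symm
    rw [e1]
    have e2 : ∀ s : Finset ι, (∀ i ∈ s, ¬ e' i = (e i : H →L[ℂ] H)) →
        Rad (Jm E) A (∑ i ∈ s, (e i : H →L[ℂ] H)) := by
      intro s
      induction s using Finset.induction_on with
      | empty => intro _; rw [Finset.sum_empty]; exact (isRad_rad _ A).zero
      | insert k s hk ih =>
        intro hs
        rw [Finset.sum_insert hk]
        exact (isRad_rad _ A).add _ (hrad k (hs k (Finset.mem_insert_self _ _))) _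
          (ih fun i hi => hs i (Finset.mem_insert_of_mem hi))
    refine e2 _ fun i hi => ?_
    exact (Finset.mem_filter.mp hi).2
  refine main_sys hE hE' hc hA f hfA (fun k => hco.idem k) (fun k l hkl => hco.ortho hkl)
    hco.complete ?_ ?_ h
  · intro k x y
    cases k with
    | none =>
      change fm (Jm E) (x - (∑ i, g i) x) y = fm (Jm E) x (y - (∑ i, g i) y)
      rw [fm_sub_left, fm_sub_right, hsum]
    | some i => exact hgs i x y
  · intro a ha k
    cases k with
    | none =>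
      refine ⟨0, ?_⟩
      rw [map_zero, sub_zero]
      exact (isRad_rad _ A).mul a ha _ hrest
    | some i =>
      obtain ⟨c, hcn⟩ := he4 ⟨a, ha⟩ i.1
      refine ⟨c, rad_of_nilpotent hG hA hc ?_ ?_⟩
      · exact A.mul_mem (A.sub_mem ha (A.algebraMap_mem c)) (e i.1).2
      · exact hnil _ hcn

end Pool.Agent.H91.PH
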