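import Mathlib

/-!
Hermitian forms given by bounded self-adjoint operators, dual pairs which are invariant under a set
of operators, and maximal ones.
-/

set_option autoImplicit false

open scoped InnerProductSpace

namespace Pool.Agent.H91.PH

variable {H : Type} [NormedAddCommGroup H] [InnerProductSpace ℂ H]

/-- The sesquilinear form of a bounded operator. -/
noncomputable def fm (G : H →L[ℂ] H) (x y : H) : ℂ := ⟪G x, y⟫_ℂ

variable {G : H →L[ℂ] H}

lemma fm_add_left (x x' y : H) : fm G (x + x') y = fm G x y + fm G x' y := by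
  unfold fm; rw [map_add, inner_add_left]

lemma fm_add_right (x y y' : H) : fm G x (y + y') = fm G x y + fm G x y' := by
  unfold fm; rw [inner_add_right]

lemma fm_sub_left (x x' y : H) : fm G (x - x') y = fm G x y - fm G x' y := by
  unfold fm; rw [map_sub, inner_sub_left]

lemma fm_sub_right (x y y' : H) : fm G x (y - y') = fm G x y - fm G x y' := by
  unfold fm; rw [inner_sub_right]

lemma fm_smul_left (c : ℂ) (x y : H) : fm G (c • x) y = (starRingEnd ℂ) c * fm G x y := by
  unfold fm; rw [map_smul, inner_smul_left]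

lemma fm_smul_right (c : ℂ) (x y : H) : fm G x (c • y) = c * fm G x y := by
  unfold fm; rw [inner_smul_right]

lemma fm_zero_left (y : H) : fm G 0 y = 0 := by
  unfold fm; rw [map_zero, inner_zero_left]

lemma fm_zero_right (x : H) : fm G x 0 = 0 := by
  unfold fm; rw [inner_zero_right]

lemma fm_neg_left (x y : H) : fm G (-x) y = - fm G x y := by
  unfold fm; rw [map_neg, inner_neg_left]

lemma fm_neg_right (x y : H) : fm G x (-y) = - fm G x y := by
  unfold fm; rw [inner_neg_right]

lemma fm_neg (x y : H) : fm (-G) x y = - fm G x y := by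
  unfold fm; rw [ContinuousLinearMap.neg_apply, inner_neg_left]

lemma continuous_fm_left (y : H) : Continuous fun x => fm G x y := by
  unfold fm; fun_prop

lemma continuous_fm_right (x : H) : Continuous fun y => fm G x y := by
  unfold fm; fun_prop

lemma continuous_fm_self : Continuous fun x => fm G x x := by
  unfold fm; fun_prop

/-- The form is Hermitian. -/
def Herm (G : H →L[ℂ] H) : Prop := ∀ x y, fm G y x = (starRingEnd ℂ) (fm G x y)

lemma Herm.neg (h : Herm G) : Herm (-G) := by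
  intro x y
  rw [fm_neg, fm_neg, h x y, map_neg]

lemma Herm.eq_zero (h : Herm G) {x y : H} (hxy : fm G x y = 0) : fm G y x = 0 := by
  rw [h x y, hxy, map_zero]

/-- `(N, P)` is a dual pair and invariant under the operators in `A`. -/
structure Dual (G : H →L[ℂ] H) (A : Set (H →L[ℂ] H)) (N P : Submodule ℂ H) : Prop where
  pos : ∀ x ∈ P, 0 ≤ (fm G x x).re
  neg : ∀ y ∈ N, (fm G y y).re ≤ 0
  orth : ∀ x ∈ P, ∀ y ∈ N, fm G x y = 0
  invN : ∀ a ∈ A, ∀ x ∈ N, a x ∈ N
  invP : ∀ a ∈ A, ∀ x ∈ P, a x ∈ P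

/-- `(N, P)` is a maximal element in the set of all invariant dual pairs. -/
structure MaxDual (G : H →L[ℂ] H) (A : Set (H →L[ℂ] H)) (N P : Submodule ℂ H) : Prop
    extends Dual G A N P where
  max : ∀ N' P' : Submodule ℂ H, N ≤ N' → P ≤ P' → Dual G A N' P' → N' ≤ N ∧ P' ≤ P

lemma Dual.swap {A : Set (H →L[ℂ] H)} {N P : Submodule ℂ H} (hG : Herm G) (h : Dual G A N P) :
    Dual (-G) A P N where
  pos := fun x hx => by rw [fm_neg, Complex.neg_re]; linarith [h.neg x hx]
  neg := fun x hx => by rw [fm_neg, Complex.neg_re]; linarith [h.pos x hx]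
  orth := fun x hx y hy => by rw [fm_neg, hG.eq_zero (h.orth y hy x hx), neg_zero]
  invN := h.invP
  invP := h.invN

lemma MaxDual.swap {A : Set (H →L[ℂ] H)} {N P : Submodule ℂ H} (hG : Herm G)
    (h : MaxDual G A N P) : MaxDual (-G) A P N where
  toDual := h.toDual.swap hG
  max := fun N' P' h1 h2 h3 => by
    have h4 := h3.swap hG.neg
    rw [neg_neg] at h4
    exact (h.max P' N' h2 h1 h4).symm

lemma sSup_mem_pair {c : Set (Submodule ℂ H × Submodule ℂ H)} (hc : IsChain (· ≤ ·) c)
    {q : Submodule ℂ H × Submodule ℂ H} (hq : q ∈ c) :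
    (∀ x, x ∈ sSup (Prod.fst '' c) ↔ ∃ r ∈ c, x ∈ r.1) ∧
    (∀ x, x ∈ sSup (Prod.snd '' c) ↔ ∃ r ∈ c, x ∈ r.2) := by
  have key : ∀ (f : Submodule ℂ H × Submodule ℂ H → Submodule ℂ H), Monotone f →
      ∀ x, x ∈ sSup (f '' c) ↔ ∃ r ∈ c, x ∈ f r := by
    intro f hf x
    rw [Submodule.mem_sSup_of_directed (s := f '' c) ⟨f q, q, hq, rfl⟩]
    · constructor
      · rintro ⟨y, ⟨r, hr, rfl⟩, hx⟩
        exact ⟨r, hr, hx⟩
      · rintro ⟨r, hr, hx⟩
        exact ⟨f r, ⟨r, hr, rfl⟩, hx⟩
    · rintro _ ⟨r, hr, rfl⟩ _ ⟨s, hs, rfl⟩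
      rcases hc.total hr hs with h | h
      · exact ⟨f s, ⟨s, hs, rfl⟩, hf h, le_rfl⟩
      · exact ⟨f r, ⟨r, hr, rfl⟩, le_rfl, hf h⟩
  exact ⟨key Prod.fst monotone_fst, key Prod.snd monotone_snd⟩

/-- Every invariant dual pair is contained in a maximal one. -/
theorem exists_maxDual {A : Set (H →L[ℂ] H)} {N P : Submodule ℂ H} (h : Dual G A N P) :
    ∃ N' P', N ≤ N' ∧ P ≤ P' ∧ MaxDual G A N' P' := by
  obtain ⟨m, hm1, hm2⟩ := zorn_le_nonempty₀
    {q : Submodule ℂ H × Submodule ℂ H | Dual G A q.1 q.2} (by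
      intro c hcs hc q hq
      obtain ⟨m1, m2⟩ := sSup_mem_pair hc hq
      refine ⟨(sSup (Prod.fst '' c), sSup (Prod.snd '' c)), ?_, ?_⟩
      · refine ⟨?_, ?_, ?_, ?_, ?_⟩
        · intro x hx
          obtain ⟨r, hr, hx⟩ := (m2 x).mp hx
          exact (hcs hr).pos x hx
        · intro x hx
          obtain ⟨r, hr, hx⟩ := (m1 x).mp hx
          exact (hcs hr).neg x hx
        · intro x hx y hy
          obtain ⟨r, hr, hx⟩ := (m2 x).mp hx
          obtain ⟨s, hs, hy⟩ := (m1 y).mp hy
          rcases hc.total hr hs with h | h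
          · exact (hcs hs).orth x (h.2 hx) y hy
          · exact (hcs hr).orth x hx y (h.1 hy)
        · intro a ha x hx
          obtain ⟨r, hr, hx⟩ := (m1 x).mp hx
          exact (m1 _).mpr ⟨r, hr, (hcs hr).invN a ha x hx⟩
        · intro a ha x hx
          obtain ⟨r, hr, hx⟩ := (m2 x).mp hx
          exact (m2 _).mpr ⟨r, hr, (hcs hr).invP a ha x hx⟩
      · intro z hz
        exact ⟨le_sSup ⟨z, hz, rfl⟩, le_sSup ⟨z, hz, rfl⟩⟩) (N, P) h
  refine ⟨m.1, m.2, hm1.1, hm1.2, ⟨hm2.prop, ?_⟩⟩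
  intro N' P' h1 h2 h3
  have := hm2.le_of_ge (y := (N', P')) h3 ⟨h1, h2⟩
  exact ⟨this.1, this.2⟩

lemma Dual.closure {A : Set (H →L[ℂ] H)} {N P : Submodule ℂ H} (h : Dual G A N P) :
    Dual G A N.topologicalClosure P.topologicalClosure := by
  have inv : ∀ (S : Submodule ℂ H) (a : H →L[ℂ] H), (∀ x ∈ S, a x ∈ S) →
      ∀ x ∈ S.topologicalClosure, a x ∈ S.topologicalClosure := by
    intro S a ha x hx
    have h1 : (S : Set H) ⊆ a ⁻¹' (S.topologicalClosure : Set H) := fun y hy =>
      S.le_topologicalClosure (ha y hy)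
    have h2 : IsClosed (a ⁻¹' (S.topologicalClosure : Set H)) :=
      S.isClosed_topologicalClosure.preimage a.continuous
    exact closure_minimal h1 h2 hx
  refine ⟨?_, ?_, ?_, fun a ha => inv N a (h.invN a ha), fun a ha => inv P a (h.invP a ha)⟩
  · intro x hx
    have h1 : (P : Set H) ⊆ {x | 0 ≤ (fm G x x).re} := fun y hy => h.pos y hy
    have h2 : IsClosed {x : H | 0 ≤ (fm G x x).re} :=
      isClosed_le continuous_const (Complex.continuous_re.comp continuous_fm_self)
    exact closure_minimal h1 h2 hx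
  · intro x hx
    have h1 : (N : Set H) ⊆ {x | (fm G x x).re ≤ 0} := fun y hy => h.neg y hy
    have h2 : IsClosed {x : H | (fm G x x).re ≤ 0} :=
      isClosed_le (Complex.continuous_re.comp continuous_fm_self) continuous_const
    exact closure_minimal h1 h2 hx
  · intro x hx y hy
    have h1 : ∀ x ∈ P, ∀ y ∈ N.topologicalClosure, fm G x y = 0 := by
      intro x hx y hy
      have h1 : (N : Set H) ⊆ {y | fm G x y = 0} := fun y hy => h.orth x hx y hy
      have h2 : IsClosed {y : H | fm G x y = 0} :=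
        isClosed_eq (continuous_fm_right x) continuous_const
      exact closure_minimal h1 h2 hy
    have h2 : (P : Set H) ⊆ {x | fm G x y = 0} := fun x hx => h1 x hx y hy
    have h3 : IsClosed {x : H | fm G x y = 0} :=
      isClosed_eq (continuous_fm_left y) continuous_const
    exact closure_minimal h2 h3 hx

lemma MaxDual.isClosed_N {A : Set (H →L[ℂ] H)} {N P : Submodule ℂ H} (h : MaxDual G A N P) :
    IsClosed (N : Set H) := by
  have h1 := (h.max _ _ N.le_topologicalClosure P.le_topologicalClosure h.toDual.closure).1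
  have h2 : N.topologicalClosure = N := le_antisymm h1 N.le_topologicalClosure
  rw [← h2]
  exact N.isClosed_topologicalClosure

lemma MaxDual.isClosed_P {A : Set (H →L[ℂ] H)} {N P : Submodule ℂ H} (h : MaxDual G A N P) :
    IsClosed (P : Set H) := by
  have h1 := (h.max _ _ N.le_topologicalClosure P.le_topologicalClosure h.toDual.closure).2
  have h2 : P.topologicalClosure = P := le_antisymm h1 P.le_topologicalClosure
  rw [← h2]
  exact P.isClosed_topologicalClosure

/-- A neutral invariant subspace which is orthogonal to a maximal invariant dual pair is contained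
in both subspaces of the pair. -/
lemma MaxDual.neutral_le {A : Set (H →L[ℂ] H)} {N P : Submodule ℂ H} (hG : Herm G)
    (h : MaxDual G A N P) {D : Submodule ℂ H} (h0 : ∀ x ∈ D, ∀ y ∈ D, fm G x y = 0)
    (hN : ∀ x ∈ D, ∀ y ∈ N, fm G y x = 0) (hP : ∀ x ∈ D, ∀ y ∈ P, fm G y x = 0)
    (hinv : ∀ a ∈ A, ∀ x ∈ D, a x ∈ D) : D ≤ N ∧ D ≤ P := by
  have hN' : ∀ x ∈ D, ∀ y ∈ N, fm G x y = 0 := fun x hx y hy => hG.eq_zero (hN x hx y hy)
  have hP' : ∀ x ∈ D, ∀ y ∈ P, fm G x y = 0 := fun x hx y hy => hG.eq_zero (hP x hx y hy)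
  have h1 : Dual G A (N ⊔ D) (P ⊔ D) := by
    refine ⟨?_, ?_, ?_, ?_, ?_⟩
    · intro x hx
      obtain ⟨p, hp, d, hd, rfl⟩ := Submodule.mem_sup.mp hx
      rw [fm_add_left, fm_add_right, fm_add_right, hP d hd p hp, hP' d hd p hp, h0 d hd d hd]
      simpa using h.pos p hp
    · intro x hx
      obtain ⟨p, hp, d, hd, rfl⟩ := Submodule.mem_sup.mp hx
      rw [fm_add_left, fm_add_right, fm_add_right, hN d hd p hp, hN' d hd p hp, h0 d hd d hd]
      simpa using h.neg p hp
    · intro x hx y hy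
      obtain ⟨p, hp, d, hd, rfl⟩ := Submodule.mem_sup.mp hx
      obtain ⟨n, hn, e, he, rfl⟩ := Submodule.mem_sup.mp hy
      rw [fm_add_left, fm_add_right, fm_add_right, h.orth p hp n hn, hP e he p hp,
        hN' d hd n hn, h0 d hd e he]
      simp
    · intro a ha x hx
      obtain ⟨n, hn, d, hd, rfl⟩ := Submodule.mem_sup.mp hx
      rw [map_add]
      exact Submodule.add_mem_sup (h.invN a ha n hn) (hinv a ha d hd)
    · intro a ha x hx
      obtain ⟨n, hn, d, hd, rfl⟩ := Submodule.mem_sup.mp hx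
      rw [map_add]
      exact Submodule.add_mem_sup (h.invP a ha n hn) (hinv a ha d hd)
  obtain ⟨h2, h3⟩ := h.max _ _ le_sup_left le_sup_left h1
  exact ⟨le_sup_right.trans h2, le_sup_right.trans h3⟩

/-- A neutral vector of a semidefinite subspace is orthogonal to the subspace. -/
lemma neutral_orth (hG : Herm G) {N : Submodule ℂ H} (hN : ∀ y ∈ N, 0 ≤ (fm G y y).re)
    {z : H} (hz : z ∈ N) (hz0 : fm G z z = 0) {y : H} (hy : y ∈ N) : fm G z y = 0 := by
  by_contra hne
  -- the vector `t z + y`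
  set c := fm G z y with hc
  have h1 : ∀ t : ℂ, 0 ≤ 2 * ((starRingEnd ℂ) t * c).re + (fm G y y).re := by
    intro t
    have h2 := hN (t • z + y) (N.add_mem (N.smul_mem t hz) hy)
    rw [fm_add_left, fm_add_right, fm_add_right, fm_smul_left, fm_smul_left, fm_smul_right,
      fm_smul_right, hz0, hG z y, ← hc] at h2
    have h3 : (t * (starRingEnd ℂ) c).re = ((starRingEnd ℂ) t * c).re := by
      simp [Complex.mul_re]
    simp only [mul_zero, zero_add, Complex.add_re, h3] at h2
    linarith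
  have h4 := h1 (-(((fm G y y).re + 1 : ℝ) : ℂ) / (starRingEnd ℂ) c)
  have h5 : (starRingEnd ℂ) (-(((fm G y y).re + 1 : ℝ) : ℂ) / (starRingEnd ℂ) c) * c
      = -(((fm G y y).re + 1 : ℝ) : ℂ) := by
    rw [map_div₀, map_neg, Complex.conj_ofReal, Complex.conj_conj]
    field_simp
  rw [h5] at h4
  simp only [Complex.neg_re, Complex.ofReal_re] at h4
  have h6 := hN y hy
  linarith

end Pool.Agent.H91.PH
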