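import Pool.Agent.H91.PH.Cls

/-!
Algebras with finitely many generators which are algebraic modulo the radical.
-/

set_option autoImplicit false

open scoped InnerProductSpace ComplexConjugate
open Filter

namespace Pool.Agent.H91.PH

lemma finite_of_comm {B : Type} [i : Ring B] [j : Algebra ℂ B] (hcomm : ∀ a b : B, a * b = b * a)
    {T : Set B} (hT : T.Finite) (htop : Algebra.adjoin ℂ T = ⊤)
    (hint : ∀ t ∈ T, ∃ p : Polynomial ℂ, p ≠ 0 ∧ Polynomial.aeval t p = 0) :
    FiniteDimensional ℂ B := by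
  letI inst : CommRing B := { i with mul_comm := hcomm }
  letI instA : Algebra ℂ B := j
  have h1 : (Subalgebra.toSubmodule (Algebra.adjoin ℂ T)).FG :=
    fg_adjoin_of_finite hT fun t ht => by
      obtain ⟨p, hp, h0⟩ := hint t ht
      exact IsAlgebraic.isIntegral ⟨p, hp, h0⟩
  have h2 : Algebra.adjoin ℂ T = ⊤ := htop
  rw [h2] at h1
  exact ⟨h1⟩

variable {H : Type} [NormedAddCommGroup H] [InnerProductSpace ℂ H] [CompleteSpace H]

/-- The extension theorem for algebras with finitely many generators which are algebraic modulo the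
radical. -/
theorem main_gen {E : H →L[ℂ] H} (hE : E * E = E) (hE' : star E = E)
    {A : Subalgebra ℂ (H →L[ℂ] H)} (hc : Comm A) (hA : Symm (Jm E) A)
    {S : Set (H →L[ℂ] H)} (hS : S.Finite) (hgen : A = Algebra.adjoin ℂ S)
    (hp : ∀ s ∈ S, ∃ p : Polynomial ℂ, p ≠ 0 ∧ RadP (Jm E) A (Polynomial.aeval s p))
    {N P : Submodule ℂ H} (h : Dual (Jm E) A N P) : Solvable (Jm E) A N P := by
  by_contra hns
  obtain ⟨V, _, _, _, F, ρ, ht⟩ := exists_terminal hE hE' hA h hns
  have hfd : FiniteDimensional ℂ ρ.range := by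
    have hSA : ∀ s ∈ S, s ∈ A := fun s hs => by
      rw [hgen]
      exact Algebra.subset_adjoin hs
    let T : Set A := {a | (a : H →L[ℂ] H) ∈ S}
    have hT : T.Finite := Set.Finite.preimage (Subtype.val_injective.injOn) hS
    have hTtop : Algebra.adjoin ℂ T = ⊤ := by
      subst hgen
      exact Algebra.adjoin_adjoin_coe_preimage
    refine finite_of_comm (T := ρ.rangeRestrict '' T) ?_ (hT.image _) ?_ ?_
    · rintro ⟨a, ha⟩ ⟨b, hb⟩
      exact Subtype.ext (Terminal.comm hc a ha b hb)
    · rw [← AlgHom.map_adjoin, hTtop, Algebra.map_top]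
      exact (AlgHom.range_eq_top _).mpr ρ.rangeRestrict_surjective
    · rintro _ ⟨a, ha, rfl⟩
      obtain ⟨p, hp0, hpr⟩ := hp _ ha
      obtain ⟨h1, h2⟩ := ht.rad_zero hc hA hpr
      refine ⟨p, hp0, ?_⟩
      rw [Polynomial.aeval_algHom_apply]
      have h3 : Polynomial.aeval a p = ⟨Polynomial.aeval (a : H →L[ℂ] H) p, h1⟩ :=
        Subtype.ext (Polynomial.aeval_subalgebra_coe p A a)
      rw [h3]
      exact Subtype.ext h2
  refine ht.not_solvable (main_fin ht.idem ht.star (Terminal.comm hc) (ht.symm hA)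
    (Subalgebra.toSubmodule ρ.range) ?_ (dual_bot _ _))
  intro a ha
  exact ⟨a, ha, ha, by rw [sub_self]; exact IsNilpotent.zero⟩

end Pool.Agent.H91.PH
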