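import Pool.Agent.H91.PH.Renorm

/-!
Dual pairs which are invariant under a bounded abelian group of isometries of the form.
-/

set_option autoImplicit false

open scoped InnerProductSpace ComplexConjugate

namespace Pool.Agent.H91.PH

variable {H : Type} [NormedAddCommGroup H] [InnerProductSpace ℂ H] [CompleteSpace H]

/-- An invariant contraction with prescribed parts, for a unitary group which commutes with the
projection. -/
theorem exists_inv_contraction {S : Type*} [AddCommGroup S] (m : Mean S)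
    (hm : ∀ t : S, m.Inv (fun s => s + t)) {E : H →L[ℂ] H} (hE : E * E = E) (hE' : star E = E)
    (v : S → H →L[ℂ] H) (hv1 : ∀ s, star (v s) * v s = 1) (hv2 : ∀ s, v s * star (v s) = 1)
    (hv : ∀ s t, v (s + t) = v s * v t) (hvE : ∀ s, v s * E = E * v s) {N P : Submodule ℂ H}
    (pos : ∀ p ∈ P, ‖(1 - E) p‖ ≤ ‖E p‖) (neg : ∀ y ∈ N, ‖E y‖ ≤ ‖(1 - E) y‖)
    (orth : ∀ p ∈ P, ∀ y ∈ N, ⟪(1 - E) p, (1 - E) y⟫_ℂ = ⟪E p, E y⟫_ℂ)
    (hN : ∀ s, ∀ y ∈ N, v s y ∈ N) (hP : ∀ s, ∀ p ∈ P, v s p ∈ P) :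
    ∃ T : H →L[ℂ] H, (∀ x, ‖T x‖ ≤ ‖x‖) ∧ (∀ p ∈ P, T (E p) = (1 - E) p) ∧
      (∀ x, ∀ y ∈ N, ⟪T x, (1 - E) y⟫_ℂ = ⟪x, E y⟫_ℂ) ∧ (∀ x, E (T x) = 0) ∧
      ∀ s, T * v s = v s * T := by
  obtain ⟨T, hT1, hT2, hT3, hT4⟩ := parrott hE hE' pos neg orth
  have hiso : ∀ s x y, ⟪v s x, v s y⟫_ℂ = ⟪x, y⟫_ℂ := by
    intro s x y
    calc ⟪v s x, v s y⟫_ℂ = ⟪(star (v s)) (v s x), y⟫_ℂ := (adj_left _ _ _).symm
      _ = ⟪(star (v s) * v s) x, y⟫_ℂ := rfl
      _ = ⟪x, y⟫_ℂ := by rw [hv1]; rfl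
  have hnorm : ∀ s x, ‖v s x‖ = ‖x‖ := by
    intro s x
    have h1 := hiso s x x
    rw [inner_self_eq_norm_sq_to_K, inner_self_eq_norm_sq_to_K] at h1
    have h2 : ‖v s x‖ ^ 2 = ‖x‖ ^ 2 := by exact_mod_cast h1
    exact (pow_left_inj₀ (norm_nonneg _) (norm_nonneg _) two_ne_zero).mp h2
  have hnorm' : ∀ s x, ‖(star (v s)) x‖ = ‖x‖ := by
    intro s x
    have h1 : v s ((star (v s)) x) = x := by
      calc v s ((star (v s)) x) = (v s * star (v s)) x := rfl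
        _ = x := by rw [hv2]; rfl
    calc ‖(star (v s)) x‖ = ‖v s ((star (v s)) x)‖ := (hnorm s _).symm
      _ = ‖x‖ := by rw [h1]
  have hvE' : ∀ s x, v s (E x) = E (v s x) := by
    intro s x
    calc v s (E x) = (v s * E) x := rfl
      _ = (E * v s) x := by rw [hvE]
      _ = E (v s x) := rfl
  have hvF : ∀ s x, v s ((1 - E) x) = (1 - E) (v s x) := by
    intro s x
    change v s (x - E x) = v s x - E (v s x)
    rw [map_sub, hvE']
  obtain ⟨T', hT'⟩ := exists_avg m (fun s => star (v s) * T * v s) 1 (by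
    intro s x
    calc ‖(star (v s) * T * v s) x‖ = ‖(star (v s)) (T (v s x))‖ := rfl
      _ = ‖T (v s x)‖ := hnorm' _ _
      _ ≤ ‖v s x‖ := hT1 _
      _ = 1 * ‖x‖ := by rw [hnorm, one_mul])
  have hT'' : ∀ x y, ⟪T' x, y⟫_ℂ = m.M (fun s => ⟪T (v s x), v s y⟫_ℂ) := by
    intro x y
    rw [hT']
    congr 1
    ext s
    exact adj_left (v s) (T (v s x)) y
  have hbd : ∀ x y s, ‖⟪T (v s x), v s y⟫_ℂ‖ ≤ ‖x‖ * ‖y‖ := by
    intro x y s
    refine (norm_inner_le_norm _ _).trans ?_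
    rw [hnorm s y]
    have := (hT1 (v s x)).trans (hnorm s x).le
    gcongr
  have hconst : ∀ (x y : H) (c : ℂ), (∀ s, ⟪T (v s x), v s y⟫_ℂ = c) → ⟪T' x, y⟫_ℂ = c := by
    intro x y c hc
    rw [hT'']
    simp only [hc]
    exact m.const c
  refine ⟨T', ?_, ?_, ?_, ?_, ?_⟩
  · intro x
    have h1 : ‖⟪T' x, T' x⟫_ℂ‖ ≤ ‖x‖ * ‖T' x‖ := by
      rw [hT'']
      exact m.bound _ _ (hbd x _)
    rw [inner_self_eq_norm_sq_to_K] at h1
    have h2 : ‖((‖T' x‖ : ℂ)) ^ 2‖ = ‖T' x‖ ^ 2 := by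
      rw [norm_pow, Complex.norm_real, norm_norm]
    have h3 : ‖T' x‖ ^ 2 ≤ ‖x‖ * ‖T' x‖ := by
      rw [← h2]
      exact h1
    by_contra hcon
    push Not at hcon
    have h4 := norm_nonneg x
    nlinarith
  · intro p hp
    refine ext_inner_right ℂ fun y => ?_
    refine hconst _ _ _ fun s => ?_
    rw [hvE', hT2 _ (hP s p hp), ← hvF, hiso]
  · intro x y hy
    refine hconst _ _ _ fun s => ?_
    rw [hvF, hT3 _ _ (hN s y hy), ← hvE', hiso]
  · intro x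
    refine ext_inner_right ℂ fun y => ?_
    rw [proj_adj hE', inner_zero_left]
    refine hconst _ _ _ fun s => ?_
    rw [hvE', ← proj_adj hE', hT4, inner_zero_left]
  · intro t
    have h1 : star (v t) * (T' * v t) = T' := by
      refine ext_of_inner fun x y => ?_
      calc ⟪(star (v t) * (T' * v t)) x, y⟫_ℂ = ⟪(star (v t)) (T' (v t x)), y⟫_ℂ := rfl
        _ = ⟪T' (v t x), v t y⟫_ℂ := adj_left _ _ _
        _ = m.M (fun s => ⟪T (v s (v t x)), v s (v t y)⟫_ℂ) := hT'' _ _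
        _ = m.M (fun s => ⟪T (v (s + t) x), v (s + t) y⟫_ℂ) := by
          congr 1
          ext s
          rw [hv]
          rfl
        _ = m.M (fun s => ⟪T (v s x), v s y⟫_ℂ) := hm t _ _ (hbd x y)
        _ = ⟪T' x, y⟫_ℂ := (hT'' _ _).symm
    calc T' * v t = (v t * star (v t)) * (T' * v t) := by rw [hv2, one_mul]
      _ = v t * (star (v t) * (T' * v t)) := mul_assoc _ _ _
      _ = v t * T' := by rw [h1]

/-- Phillips' theorem for bounded abelian groups: an invariant dual pair is contained in an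
invariant maximal dual pair. -/
theorem phillips_group {S : Type*} [AddCommGroup S] (m : Mean S)
    (hm : ∀ t : S, m.Inv (fun s => s + t)) {E : H →L[ℂ] H} (hE : E * E = E) (hE' : star E = E)
    (u : S → H →L[ℂ] H) (hu0 : u 0 = 1) (hu : ∀ s t, u (s + t) = u s * u t) {C : ℝ} (hC : 0 < C)
    (hb : ∀ s x, ‖u s x‖ ≤ C * ‖x‖) (hiso : ∀ s x y, fm (Jm E) (u s x) (u s y) = fm (Jm E) x y)
    {N P : Submodule ℂ H} (pos : ∀ x ∈ P, 0 ≤ (fm (Jm E) x x).re)
    (neg : ∀ y ∈ N, (fm (Jm E) y y).re ≤ 0) (orth : ∀ x ∈ P, ∀ y ∈ N, fm (Jm E) x y = 0)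
    (hN : ∀ s, ∀ y ∈ N, u s y ∈ N) (hP : ∀ s, ∀ p ∈ P, u s p ∈ P) :
    ∃ N' P' : Submodule ℂ H, N ≤ N' ∧ P ≤ P' ∧ (∀ x ∈ P', 0 ≤ (fm (Jm E) x x).re) ∧
      (∀ y ∈ N', (fm (Jm E) y y).re ≤ 0) ∧
      (∀ y, y ∈ N' ↔ ∀ x ∈ P', fm (Jm E) x y = 0) ∧
      (∀ x, x ∈ P' ↔ ∀ y ∈ N', fm (Jm E) x y = 0) ∧
      (∀ s, ∀ y ∈ N', u s y ∈ N') ∧ (∀ s, ∀ p ∈ P', u s p ∈ P') := by
  obtain ⟨Θ, Θi, B, hΘ1, hΘ2, hB, hB', hform, hv⟩ := exists_renorm m hm hE hE' u hu0 hu hC hb hiso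
  choose v hv1 hv2 hv3 hv4 using hv
  have t1 : ∀ x, Θ (Θi x) = x := fun x => by
    calc Θ (Θi x) = (Θ * Θi) x := rfl
      _ = x := by rw [hΘ1]; rfl
  have hΘu : ∀ s x, Θ (u s x) = v s (Θ x) := by
    intro s x
    calc Θ (u s x) = (Θ * u s) x := rfl
      _ = (v s * Θ) x := by rw [hv1]
      _ = v s (Θ x) := rfl
  have hvadd : ∀ s t, v (s + t) = v s * v t := by
    intro s t
    calc v (s + t) = (v (s + t) * Θ) * Θi := by rw [mul_assoc, hΘ1, mul_one]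
      _ = (Θ * u (s + t)) * Θi := by rw [hv1]
      _ = (Θ * u s) * u t * Θi := by rw [hu]; simp only [mul_assoc]
      _ = v s * (Θ * u t) * Θi := by rw [hv1]; simp only [mul_assoc]
      _ = v s * v t * (Θ * Θi) := by rw [hv1]; simp only [mul_assoc]
      _ = v s * v t := by rw [hΘ1, mul_one]
  have hmapN : ∀ s, ∀ y ∈ N.map (Θ : H →ₗ[ℂ] H), v s y ∈ N.map (Θ : H →ₗ[ℂ] H) := by
    rintro s _ ⟨y, hy, rfl⟩
    exact ⟨u s y, hN s y hy, hΘu s y⟩
  have hmapP : ∀ s, ∀ y ∈ P.map (Θ : H →ₗ[ℂ] H), v s y ∈ P.map (Θ : H →ₗ[ℂ] H) := by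
    rintro s _ ⟨y, hy, rfl⟩
    exact ⟨u s y, hP s y hy, hΘu s y⟩
  have hre : ∀ x, (fm (Jm E) x x).re = ‖B (Θ x)‖ ^ 2 - ‖(1 - B) (Θ x)‖ ^ 2 := by
    intro x
    rw [hform, re_fm_Jm hB hB']
  obtain ⟨T, hT1, hT2, hT3, hT4, hT5⟩ := exists_inv_contraction m hm hB hB' v hv2 hv3 hvadd hv4
    (N := N.map (Θ : H →ₗ[ℂ] H)) (P := P.map (Θ : H →ₗ[ℂ] H))
    (by
      rintro _ ⟨p, hp, rfl⟩
      have h1 := pos p hp
      rw [hre] at h1
      exact le_of_pow_le_pow_left₀ two_ne_zero (norm_nonneg _) (sub_nonneg.mp h1))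
    (by
      rintro _ ⟨y, hy, rfl⟩
      have h1 := neg y hy
      rw [hre] at h1
      exact le_of_pow_le_pow_left₀ two_ne_zero (norm_nonneg _) (sub_nonpos.mp h1))
    (by
      rintro _ ⟨p, hp, rfl⟩ _ ⟨y, hy, rfl⟩
      have h1 := orth p hp y hy
      rw [hform, fm_Jm' hB hB'] at h1
      exact (sub_eq_zero.mp h1).symm)
    hmapN hmapP
  have hF : ∀ x, (1 - B) (T x) = T x := by
    intro x
    change T x - B (T x) = T x
    rw [hT4, sub_zero]
  have hTn : ∀ x, ‖(star T) x‖ ≤ ‖x‖ := by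
    intro x
    have h1 : ‖star T‖ ≤ 1 := by
      rw [norm_star]
      exact ContinuousLinearMap.opNorm_le_bound _ zero_le_one fun v => by
        rw [one_mul]; exact hT1 v
    calc ‖(star T) x‖ ≤ ‖star T‖ * ‖x‖ := ContinuousLinearMap.le_opNorm _ _
      _ ≤ 1 * ‖x‖ := by gcongr
      _ = ‖x‖ := one_mul _
  have hBn : ∀ x, ‖B x‖ ≤ ‖x‖ := fun x =>
    (Block.norm_le (E := B) (f := B) ⟨hB, hB', fun _ => rfl⟩ x)
  let P' : Submodule ℂ H :=
    { carrier := {x | (1 - B) (Θ x) = T (B (Θ x))}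
      add_mem' := by
        intro a b ha hb
        simp only [Set.mem_setOf_eq] at ha hb ⊢
        rw [map_add, map_add, ha, hb, map_add, map_add]
      zero_mem' := by simp only [Set.mem_setOf_eq, map_zero]
      smul_mem' := by
        intro c a ha
        simp only [Set.mem_setOf_eq] at ha ⊢
        rw [map_smul, map_smul, ha, map_smul, map_smul] }
  let N' : Submodule ℂ H :=
    { carrier := {x | B (Θ x) = B ((star T) ((1 - B) (Θ x)))}
      add_mem' := by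
        intro a b ha hb
        simp only [Set.mem_setOf_eq] at ha hb ⊢
        rw [map_add, map_add, ha, hb, map_add, map_add, map_add]
      zero_mem' := by simp only [Set.mem_setOf_eq, map_zero]
      smul_mem' := by
        intro c a ha
        simp only [Set.mem_setOf_eq] at ha ⊢
        rw [map_smul, map_smul, ha, map_smul, map_smul, map_smul] }
  have mP : ∀ x, x ∈ P' ↔ (1 - B) (Θ x) = T (B (Θ x)) := fun x => Iff.rfl
  have mN : ∀ x, x ∈ N' ↔ B (Θ x) = B ((star T) ((1 - B) (Θ x))) := fun x => Iff.rfl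
  have horth : ∀ x ∈ P', ∀ y ∈ N', fm (Jm E) x y = 0 := by
    intro x hx y hy
    rw [mP] at hx
    rw [mN] at hy
    have h1 : ⟪B (Θ x), B (Θ y)⟫_ℂ = ⟪T (B (Θ x)), (1 - B) (Θ y)⟫_ℂ := by
      rw [hy, ← proj_adj hB', idem_apply hB, ← adj_left, star_star]
    rw [hform, fm_Jm' hB hB', hx, h1, sub_self]
  have hPc : ∀ x, (∀ y ∈ N', fm (Jm E) x y = 0) → x ∈ P' := by
    intro x hx
    rw [mP, ← hF, eq_comm, ← sub_eq_zero, ← map_sub]
    refine ext_inner_right ℂ fun w => ?_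
    rw [inner_zero_left]
    have h1 : (1 - B) ((1 - B) w + B ((star T) ((1 - B) w))) = (1 - B) w := by
      rw [map_add, idem_apply (compl_idem hB), F_E hB, add_zero]
    have h2 : B ((1 - B) w + B ((star T) ((1 - B) w))) = B ((star T) ((1 - B) w)) := by
      rw [map_add, E_F hB, idem_apply hB, zero_add]
    have h3 := hx (Θi ((1 - B) w + B ((star T) ((1 - B) w)))) (by
      rw [mN, t1, h1, h2])
    rw [hform, fm_Jm' hB hB', t1, h1, h2] at h3
    have h4 : ⟪B (Θ x), B ((star T) ((1 - B) w))⟫_ℂ = ⟪(1 - B) (T (B (Θ x))), w⟫_ℂ := by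
      rw [← proj_adj hB', idem_apply hB, ← adj_left, star_star, ← proj_adj (compl_star hB')]
    have h5 : ⟪(1 - B) (Θ x), (1 - B) w⟫_ℂ = ⟪(1 - B) (Θ x), w⟫_ℂ := by
      rw [← proj_adj (compl_star hB'), idem_apply (compl_idem hB)]
    rw [h4, h5] at h3
    have h6 : (1 - B) (Θ x - T (B (Θ x))) = (1 - B) (Θ x) - (1 - B) (T (B (Θ x))) := map_sub _ _ _
    have h7 : (1 - B) (T (B (Θ x)) - Θ x) = (1 - B) (T (B (Θ x))) - (1 - B) (Θ x) := map_sub _ _ _
    first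
      | (rw [h7, inner_sub_left]; exact h3)
      | (rw [h6, inner_sub_left, sub_eq_zero]; exact (sub_eq_zero.mp h3).symm)
  have hNc : ∀ y, (∀ x ∈ P', fm (Jm E) x y = 0) → y ∈ N' := by
    intro y hy
    rw [mN, ← sub_eq_zero, ← map_sub]
    refine ext_inner_left ℂ fun w => ?_
    rw [inner_zero_right]
    have h1 : (1 - B) (B w + T (B w)) = T (B w) := by
      rw [map_add, F_E hB, hF, zero_add]
    have h2 : B (B w + T (B w)) = B w := by
      rw [map_add, hT4, idem_apply hB, add_zero]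
    have h3 := hy (Θi (B w + T (B w))) (by rw [mP, t1, h1, h2])
    rw [hform, fm_Jm' hB hB', t1, h1, h2] at h3
    have h4 : ⟪T (B w), (1 - B) (Θ y)⟫_ℂ = ⟪B w, (star T) ((1 - B) (Θ y))⟫_ℂ := by
      have h6 := adj_left (star T) (B w) ((1 - B) (Θ y))
      rw [star_star] at h6
      exact h6
    have h5 : ⟪B w, B (Θ y)⟫_ℂ = ⟪B w, Θ y⟫_ℂ := by
      rw [← proj_adj hB', idem_apply hB]
    rw [← proj_adj hB', inner_sub_right, ← h4, ← h5]
    exact h3
  have hinvP : ∀ s, ∀ p ∈ P', u s p ∈ P' := by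
    intro s x hx
    rw [mP] at hx ⊢
    have e1 : ∀ z, v s (B z) = B (v s z) := fun z => by
      calc v s (B z) = (v s * B) z := rfl
        _ = (B * v s) z := by rw [hv4]
        _ = B (v s z) := rfl
    have e2 : (1 - B) (v s (Θ x)) = v s ((1 - B) (Θ x)) := by
      change v s (Θ x) - B (v s (Θ x)) = v s (Θ x - B (Θ x))
      rw [map_sub, e1]
    have e3 : v s (T (B (Θ x))) = T (v s (B (Θ x))) := by
      calc v s (T (B (Θ x))) = (v s * T) (B (Θ x)) := rfl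
        _ = (T * v s) (B (Θ x)) := by rw [hT5]
        _ = T (v s (B (Θ x))) := rfl
    rw [hΘu, e2, hx, e3, e1]
  refine ⟨N', P', ?_, ?_, ?_, ?_, ?_, ?_, ?_, hinvP⟩
  · intro y hy
    rw [mN]
    have h1 : (star T) ((1 - B) (Θ y)) = B (Θ y) := by
      refine ext_inner_left ℂ fun x => ?_
      have h2 : ⟪T x, (1 - B) (Θ y)⟫_ℂ = ⟪x, B (Θ y)⟫_ℂ := hT3 x _ ⟨y, hy, rfl⟩
      have h3 := adj_left (star T) x ((1 - B) (Θ y))
      rw [star_star] at h3
      rw [← h3]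
      exact h2
    rw [h1, idem_apply hB]
  · intro x hx
    rw [mP]
    exact (hT2 _ ⟨x, hx, rfl⟩).symm
  · intro x hx
    rw [mP] at hx
    rw [hre, hx]
    have h1 := hT1 (B (Θ x))
    have h2 := norm_nonneg (T (B (Θ x)))
    have : ‖T (B (Θ x))‖ ^ 2 ≤ ‖B (Θ x)‖ ^ 2 := by gcongr
    linarith
  · intro y hy
    rw [mN] at hy
    rw [hre, hy]
    have h1 : ‖B ((star T) ((1 - B) (Θ y)))‖ ≤ ‖(1 - B) (Θ y)‖ := (hBn _).trans (hTn _)
    have h2 := norm_nonneg (B ((star T) ((1 - B) (Θ y))))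
    have : ‖B ((star T) ((1 - B) (Θ y)))‖ ^ 2 ≤ ‖(1 - B) (Θ y)‖ ^ 2 := by gcongr
    linarith
  · exact fun y => ⟨fun hy x hx => horth x hx y hy, hNc y⟩
  · exact fun x => ⟨fun hx y hy => horth x hx y hy, hPc x⟩
  · intro s y hy
    refine hNc _ fun x hx => ?_
    have h1 : u (-s) (u s y) = y := by
      calc u (-s) (u s y) = (u (-s) * u s) y := rfl
        _ = y := by rw [← hu, neg_add_cancel, hu0]; rfl
    rw [← hiso (-s), h1]
    exact horth _ (hinvP _ x hx) y hy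

end Pool.Agent.H91.PH
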