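import Pool.Agent.H91.PH.Dil

/-!
Semidefinite invariant subspaces of the dilation space give larger decompositions.
-/

set_option autoImplicit false

open scoped InnerProductSpace ComplexConjugate

namespace Pool.Agent.H91.PH

section norm

variable {H : Type} [NormedAddCommGroup H] [InnerProductSpace ℂ H] [CompleteSpace H]
  {E : H →L[ℂ] H}

lemma norm_Jm (hE : E * E = E) (hE' : star E = E) (z : H) : ‖Jm E z‖ = ‖z‖ := by
  have h1 : ⟪Jm E z, Jm E z⟫_ℂ = ⟪z, z⟫_ℂ := by rw [Jm_adj hE', Jm_apply_sq hE]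
  rw [inner_self_eq_norm_sq_to_K, inner_self_eq_norm_sq_to_K] at h1
  have h2 : ‖Jm E z‖ ^ 2 = ‖z‖ ^ 2 := by exact_mod_cast h1
  exact (pow_left_inj₀ (norm_nonneg _) (norm_nonneg _) two_ne_zero).mp h2

lemma norm_adj_le (hE : E * E = E) (hE' : star E = E) {a a' : H →L[ℂ] H}
    (h : ∀ f g : H, fm (Jm E) (a f) g = fm (Jm E) f (a' g)) : ‖a'‖ ≤ ‖a‖ := by
  refine ContinuousLinearMap.opNorm_le_bound _ (norm_nonneg _) fun g => ?_
  have h1 : fm (Jm E) (Jm E (a' g)) (a' g) = ⟪a' g, a' g⟫_ℂ := by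
    unfold fm
    rw [Jm_apply_sq hE]
  rw [← h, inner_self_eq_norm_sq_to_K] at h1
  have h2 : ‖a' g‖ ^ 2 = ‖fm (Jm E) (a (Jm E (a' g))) g‖ := by
    rw [h1]
    simp
  have h3 : ‖fm (Jm E) (a (Jm E (a' g))) g‖ ≤ (‖a‖ * ‖g‖) * ‖a' g‖ := by
    calc ‖fm (Jm E) (a (Jm E (a' g))) g‖ ≤ ‖Jm E (a (Jm E (a' g)))‖ * ‖g‖ := norm_inner_le_norm _ _
      _ = ‖a (Jm E (a' g))‖ * ‖g‖ := by rw [norm_Jm hE hE']
      _ ≤ (‖a‖ * ‖Jm E (a' g)‖) * ‖g‖ := by gcongr; exact a.le_opNorm _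
      _ = (‖a‖ * ‖g‖) * ‖a' g‖ := by rw [norm_Jm hE hE']; ring
  rw [← h2, sq] at h3
  rcases (norm_nonneg (a' g)).eq_or_lt with h4 | h4
  · rw [← h4]; positivity
  · exact le_of_mul_le_mul_right h3 h4

/-- The bound of Krein and Lax in terms of the norm of the operator. -/
lemma lax_norm (hE : E * E = E) (hE' : star E = E) {G : H →L[ℂ] H} (hG : Herm G)
    {N : Submodule ℂ H} (hN : ∀ y ∈ N, 0 ≤ (fm G y y).re) {a a' : H →L[ℂ] H}
    (ha : ∀ x ∈ N, a x ∈ N) (ha' : ∀ x ∈ N, a' x ∈ N)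
    (hs : ∀ f g : H, fm G (a f) g = fm G f (a' g))
    (h : ∀ f g : H, fm (Jm E) (a f) g = fm (Jm E) f (a' g)) {x : H}
    (hx : x ∈ N) : (fm G (a x) (a x)).re ≤ ‖a‖ ^ 2 * (fm G x x).re := by
  have h1 := lax hG hN ha ha' hs hx
  have h2 : ‖a' * a‖ ≤ ‖a‖ ^ 2 := by
    calc ‖a' * a‖ ≤ ‖a'‖ * ‖a‖ := norm_mul_le _ _
      _ ≤ ‖a‖ * ‖a‖ := by gcongr; exact norm_adj_le hE hE' h
      _ = ‖a‖ ^ 2 := by ring
  exact h1.trans (mul_le_mul_of_nonneg_right h2 (hN x hx))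

end norm

variable {H K L : Type} [NormedAddCommGroup H] [InnerProductSpace ℂ H] [NormedAddCommGroup K]
  [InnerProductSpace ℂ K] [NormedAddCommGroup L] [InnerProductSpace ℂ L]
  [CompleteSpace H] [CompleteSpace K] [CompleteSpace L]
  {E : H →L[ℂ] H} {A : Subalgebra ℂ (H →L[ℂ] H)} {M : Submodule ℂ H} {X : H → H → ℂ}
  {x : H →ₗ[ℂ] K} {y : H →ₗ[ℂ] L}

/-- A semidefinite invariant subspace between the neutral subspace and its orthogonal complement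
gives a larger decomposition. -/
theorem grow (hE : E * E = E) (hE' : star E = E) (hA : Symm (Jm E) A)
    (ho : Obj (Jm E) A M X) (hr : IsRep (Jm E) M X x y) (W : Submodule ℂ (Big H K L))
    (hD : nd M x y ≤ W) (hP : W ≤ perp (Jm (bE K L E)) (nd M x y))
    (hT : ∀ a ∈ A, ∀ T, Ov M x y a T → ∀ z ∈ W, T z ∈ W)
    (hsem : (∀ z ∈ W, 0 ≤ (fm (Jm (bE K L E)) z z).re) ∨
      (∀ z ∈ W, (fm (Jm (bE K L E)) z z).re ≤ 0)) :
    ∃ (M' : Submodule ℂ H) (X' : H → H → ℂ), Obj (Jm E) A M' X' ∧ Ext M M' X X' ∧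
      ∀ z ∈ W, z.fst ∈ M' := by
  classical
  set J := Jm (bE K L E) with hJ
  have hG : Herm J := herm_Jm (bE_idem hE) (bE_star hE')
  obtain ⟨τ, hτ⟩ : ∃ τ : ℝ, (τ = 0 ∧ ∀ z ∈ W, 0 ≤ (fm J z z).re) ∨
      (τ = 1 ∧ ∀ z ∈ W, (fm J z z).re ≤ 0) := by
    rcases hsem with h | h
    · exact ⟨0, Or.inl ⟨rfl, h⟩⟩
    · exact ⟨1, Or.inr ⟨rfl, h⟩⟩
  have F1 : ∀ z ∈ W, 0 ≤ - τ * (fm J z z).re := by
    rintro z hz
    rcases hτ with ⟨rfl, h⟩ | ⟨rfl, h⟩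
    · simp
    · linarith [h z hz]
  have F2 : ∀ z ∈ W, 0 ≤ (1 - τ) * (fm J z z).re := by
    rintro z hz
    rcases hτ with ⟨rfl, h⟩ | ⟨rfl, h⟩
    · linarith [h z hz]
    · simp
  have F3 : ∀ a ∈ A, ∀ T, Ov M x y a T → ∀ z ∈ W,
      - τ * (fm J (T z) (T z)).re ≤ ‖a‖ ^ 2 * (- τ * (fm J z z).re) ∧
      (1 - τ) * (fm J (T z) (T z)).re ≤ ‖a‖ ^ 2 * ((1 - τ) * (fm J z z).re) := by
    intro a ha T hTa z hz
    obtain ⟨a', ha', haa⟩ := hA a ha
    obtain ⟨T', hT', -⟩ := exists_ov ho hr ha'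
    have hTT := hTa.adj ho hr ha ha' haa hT'
    have hn : ‖T‖ ^ 2 ≤ ‖a‖ ^ 2 := by
      have := hTa.norm_le ho hr ha
      gcongr
    rcases hτ with ⟨rfl, h⟩ | ⟨rfl, h⟩
    · have h1 := lax_norm (bE_idem hE) (bE_star hE') hG h (hT a ha T hTa) (hT a' ha' T' hT') hTT
        hTT hz
      have h2 := mul_le_mul_of_nonneg_right hn (h z hz)
      constructor
      · simp
      · linarith
    · have h1 := lax_norm (bE_idem hE) (bE_star hE') hG.neg
        (fun z hz => by rw [fm_neg, Complex.neg_re]; linarith [h z hz]) (hT a ha T hTa)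
        (hT a' ha' T' hT') (fun f g => by rw [fm_neg, fm_neg, hTT]) hTT hz
      rw [fm_neg, fm_neg, Complex.neg_re, Complex.neg_re] at h1
      have h2 := mul_le_mul_of_nonneg_right hn (show 0 ≤ - (fm J z z).re by linarith [h z hz])
      constructor
      · linarith
      · simp
  let ω : Big H K L → Big H K L → ℂ := fun z w => ⟪z.snd.fst, w.snd.fst⟫_ℂ - (τ : ℂ) * fm J z w
  have hω : ∀ z w : Big H K L, fm (Jm E) z.fst w.fst + ω z w =
      ⟪z.snd.snd, w.snd.snd⟫_ℂ + (1 - (τ : ℂ)) * fm J z w := by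
    intro z w
    change fm (Jm E) z.fst w.fst + (⟪z.snd.fst, w.snd.fst⟫_ℂ - (τ : ℂ) * fm J z w) = _
    have h1 : fm J z w = _ := fm_big E z w
    linear_combination (-1 : ℂ) * h1
  have hinner : ∀ {V : Type} [NormedAddCommGroup V] [InnerProductSpace ℂ V] (v : V),
      (⟪v, v⟫_ℂ).re = ‖v‖ ^ 2 := by
    intro V _ _ v
    rw [inner_self_eq_norm_sq_to_K]
    change ((‖v‖ : ℂ) ^ 2).re = _
    rw [← Complex.ofReal_pow, Complex.ofReal_re]
  have hωre : ∀ z : Big H K L, (ω z z).re = ‖z.snd.fst‖ ^ 2 + - τ * (fm J z z).re := by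
    intro z
    change (⟪z.snd.fst, z.snd.fst⟫_ℂ - (τ : ℂ) * fm J z z).re = _
    rw [Complex.sub_re, hinner, Complex.re_ofReal_mul]
    ring
  have hωre' : ∀ z : Big H K L, (fm (Jm E) z.fst z.fst + ω z z).re =
      ‖z.snd.snd‖ ^ 2 + (1 - τ) * (fm J z z).re := by
    intro z
    rw [hω, Complex.add_re, hinner]
    have : (1 - (τ : ℂ)) = ((1 - τ : ℝ) : ℂ) := by push_cast; ring
    rw [this, Complex.re_ofReal_mul]
  -- the section of the projection on the first component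
  let sec : H → Big H K L := fun h => if hh : ∃ z ∈ W, z.fst = h then hh.choose else 0
  have hsec : ∀ z ∈ W, sec z.fst = z := by
    intro z hz
    have hex : ∃ z' ∈ W, z'.fst = z.fst := ⟨z, hz, rfl⟩
    have h1 : sec z.fst = hex.choose := dif_pos hex
    obtain ⟨h2, h3⟩ := hex.choose_spec
    rw [h1]
    have h4 : hex.choose - z ∈ perp J (nd M x y) := Submodule.sub_mem _ (hP h2) (hP hz)
    have h5 := perp_inj ho hr h4 (by
      change hex.choose.fst - z.fst = 0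
      rw [h3, sub_self])
    exact sub_eq_zero.mp h5
  let X' : H → H → ℂ := fun h g => ω (sec h) (sec g)
  have hX' : ∀ z ∈ W, ∀ w ∈ W, X' z.fst w.fst = ω z w := by
    intro z hz w hw
    change ω (sec z.fst) (sec w.fst) = _
    rw [hsec z hz, hsec w hw]
  let fl : Big H K L →ₗ[ℂ] H := (WithLp.fstL 2 ℂ H (WithLp 2 (K × L)) : Big H K L →L[ℂ] H)
  have hfl : ∀ z, fl z = z.fst := fun z => rfl
  have hdz : ∀ d ∈ nd M x y, ∀ z ∈ W, fm J d z = 0 := fun d hd z hz => hP hz d hd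
  have hzd : ∀ z ∈ W, ∀ d ∈ nd M x y, fm J z d = 0 := fun z hz d hd => hG.eq_zero (hdz d hd z hz)
  refine ⟨W.map fl, X', ?_, ?_, fun z hz => ⟨z, hz, rfl⟩⟩
  · constructor
    · rintro a ha _ ⟨z, hz, rfl⟩
      obtain ⟨T, hTa, -⟩ := exists_ov ho hr ha
      exact ⟨T z, hT a ha T hTa z hz, hTa.fst z⟩
    · rintro _ ⟨z, hz, rfl⟩ _ ⟨z', hz', rfl⟩ _ ⟨w, hw, rfl⟩
      rw [← map_add, hfl, hfl, hfl, hfl, hX' _ (W.add_mem hz hz') w hw, hX' z hz w hw,
        hX' z' hz' w hw]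
      change ⟪z.snd.fst + z'.snd.fst, w.snd.fst⟫_ℂ - (τ : ℂ) * fm J (z + z') w =
        (⟪z.snd.fst, w.snd.fst⟫_ℂ - (τ : ℂ) * fm J z w) +
          (⟪z'.snd.fst, w.snd.fst⟫_ℂ - (τ : ℂ) * fm J z' w)
      rw [inner_add_left, fm_add_left]
      ring
    · rintro c _ ⟨z, hz, rfl⟩ _ ⟨w, hw, rfl⟩
      rw [← map_smul, hfl, hfl, hfl, hX' _ (W.smul_mem c hz) w hw, hX' z hz w hw]
      change ⟪c • z.snd.fst, w.snd.fst⟫_ℂ - (τ : ℂ) * fm J (c • z) w =
        conj c * (⟪z.snd.fst, w.snd.fst⟫_ℂ - (τ : ℂ) * fm J z w)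
      rw [inner_smul_left, fm_smul_left]
      ring
    · rintro _ ⟨z, hz, rfl⟩ _ ⟨w, hw, rfl⟩
      rw [hfl, hfl, hX' z hz w hw, hX' w hw z hz]
      change ⟪w.snd.fst, z.snd.fst⟫_ℂ - (τ : ℂ) * fm J w z =
        conj (⟪z.snd.fst, w.snd.fst⟫_ℂ - (τ : ℂ) * fm J z w)
      rw [map_sub, map_mul, inner_conj_symm, Complex.conj_ofReal, hG z w]
    · rintro _ ⟨z, hz, rfl⟩
      rw [hfl, hX' z hz z hz, hωre]
      have := F1 z hz
      positivity
    · rintro _ ⟨z, hz, rfl⟩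
      rw [hfl, hX' z hz z hz, hωre']
      have := F2 z hz
      positivity
    · rintro a ha a' ha' haa _ ⟨z, hz, rfl⟩ _ ⟨w, hw, rfl⟩
      obtain ⟨T, hTa, -⟩ := exists_ov ho hr ha
      obtain ⟨T', hTa', -⟩ := exists_ov ho hr ha'
      rw [hfl, hfl, ← hTa.fst, ← hTa'.fst, hX' _ (hT a ha T hTa z hz) w hw,
        hX' z hz _ (hT a' ha' T' hTa' w hw)]
      change ⟪(T z).snd.fst, w.snd.fst⟫_ℂ - (τ : ℂ) * fm J (T z) w =
        ⟪z.snd.fst, (T' w).snd.fst⟫_ℂ - (τ : ℂ) * fm J z (T' w)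
      rw [hTa.adj1 ho hr ha ha' haa hTa', hTa.adj ho hr ha ha' haa hTa']
    · rintro a ha _ ⟨z, hz, rfl⟩
      obtain ⟨T, hTa, -⟩ := exists_ov ho hr ha
      rw [hfl, ← hTa.fst, hX' _ (hT a ha T hTa z hz) _ (hT a ha T hTa z hz), hX' z hz z hz,
        hωre, hωre]
      have h1 := hTa.norm1 ho hr ha z
      have h2 := (F3 a ha T hTa z hz).1
      linarith
    · rintro a ha _ ⟨z, hz, rfl⟩
      obtain ⟨T, hTa, -⟩ := exists_ov ho hr ha
      rw [hfl, ← hTa.fst, hX' _ (hT a ha T hTa z hz) _ (hT a ha T hTa z hz), hX' z hz z hz,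
        hωre', hωre']
      have h1 := hTa.norm2 ho hr ha z
      have h2 := (F3 a ha T hTa z hz).2
      linarith
    · rintro _ ⟨z, hz, rfl⟩ ε hε
      have hδ : 0 < min 1 (ε / 2) := lt_min one_pos (by positivity)
      have hδ1 : ∀ t : ℝ, 0 ≤ t → t < min 1 (ε / 2) → t ^ 2 < ε / 2 := by
        intro t ht0 ht
        have h1 : t < 1 := lt_of_lt_of_le ht (min_le_left _ _)
        have h2 : t < ε / 2 := lt_of_lt_of_le ht (min_le_right _ _)
        nlinarith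
      rcases hτ with ⟨rfl, h⟩ | ⟨rfl, h⟩
      · obtain ⟨g, hg, h1, h2⟩ := ho.approx hr z.snd.fst 0 hδ
        rw [zero_sub, norm_neg] at h2
        have hgD := hD (emb_mem_nd (x := x) (y := y) hg)
        refine ⟨g, ⟨emb x y g, hgD, rfl⟩, ?_⟩
        have e1 : fl z - g = (z - emb x y g).fst := rfl
        have e2 : g = (emb x y g).fst := rfl
        rw [e1, hX' _ (W.sub_mem hz hgD) _ (W.sub_mem hz hgD), hωre, e2, hX' _ hgD _ hgD, hωre',
          hdz _ (emb_mem_nd hg) _ hgD]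
        change ‖z.snd.fst - x g‖ ^ 2 + -0 * _ + (‖y g‖ ^ 2 + (1 - 0) * (0 : ℂ).re) < ε
        rw [Complex.zero_re]
        have h3 := hδ1 _ (norm_nonneg _) h1
        have h4 := hδ1 _ (norm_nonneg _) h2
        linarith
      · obtain ⟨g, hg, h1, h2⟩ := ho.approx hr 0 z.snd.snd hδ
        rw [zero_sub, norm_neg] at h1
        have hgD := hD (emb_mem_nd (x := x) (y := y) hg)
        have hzg := W.sub_mem hz hgD
        refine ⟨(z - emb x y g).fst, ⟨_, hzg, rfl⟩, ?_⟩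
        have e1 : fl z - (z - emb x y g).fst = (emb x y g).fst := by
          change z.fst - (z.fst - g) = g
          abel
        rw [e1, hX' _ hgD _ hgD, hωre, hX' _ hzg _ hzg, hωre', hdz _ (emb_mem_nd hg) _ hgD]
        change ‖x g‖ ^ 2 + -1 * (0 : ℂ).re + (‖z.snd.snd - y g‖ ^ 2 + (1 - 1) * _) < ε
        rw [Complex.zero_re]
        have h3 := hδ1 _ (norm_nonneg _) h1
        have h4 := hδ1 _ (norm_nonneg _) h2
        linarith
  · refine ⟨fun h hh => ⟨emb x y h, hD (emb_mem_nd hh), rfl⟩, fun h hh g hg => ?_⟩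
    have e1 : h = (emb x y h).fst := rfl
    have e2 : g = (emb x y g).fst := rfl
    rw [e1, e2, hX' _ (hD (emb_mem_nd hh)) _ (hD (emb_mem_nd hg))]
    change ⟪x h, x g⟫_ℂ - (τ : ℂ) * fm J (emb x y h) (emb x y g) = X h g
    rw [hdz _ (emb_mem_nd hh) _ (hD (emb_mem_nd hg)), hr.hx h hh g hg, mul_zero, sub_zero]

end Pool.Agent.H91.PH
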