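import Pool.Agent.H91.PH.Cut

/-!
The decomposition which belongs to an invariant dual pair.
-/

set_option autoImplicit false

open scoped InnerProductSpace ComplexConjugate

namespace Pool.Agent.H91.PH

variable {H : Type} [NormedAddCommGroup H] [InnerProductSpace ℂ H] [CompleteSpace H]

theorem exists_init {E : H →L[ℂ] H} (hE : E * E = E) (hE' : star E = E)
    {A : Subalgebra ℂ (H →L[ℂ] H)} (hA : Symm (Jm E) A) {N P : Submodule ℂ H}
    (hd : Dual (Jm E) A N P) :
    ∃ X : H → H → ℂ, Obj (Jm E) A (N ⊔ P) X ∧ (∀ p ∈ P, X p p = 0) ∧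
      ∀ n ∈ N, fm (Jm E) n n + X n n = 0 := by
  classical
  have hG := herm_Jm hE hE'
  set G := Jm E with hGdef
  let nn : H → H := fun h => if hh : ∃ n ∈ N, h - n ∈ P then hh.choose else 0
  let X : H → H → ℂ := fun h g => - fm G (nn h) g
  have horth' : ∀ y ∈ N, ∀ x ∈ P, fm G y x = 0 := fun y hy x hx => hG.eq_zero (hd.orth x hx y hy)
  have hX : ∀ n ∈ N, ∀ p ∈ P, ∀ n' ∈ N, ∀ p' ∈ P, X (n + p) (n' + p') = - fm G n n' := by
    intro n hn p hp n' hn' p' hp'
    have hex : ∃ m ∈ N, (n + p) - m ∈ P := ⟨n, hn, by rwa [add_sub_cancel_left]⟩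
    have h1 : nn (n + p) = hex.choose := dif_pos hex
    obtain ⟨h2, h3⟩ := hex.choose_spec
    set m := hex.choose with hm
    have h4 : n - m ∈ N := N.sub_mem hn h2
    have h5 : n - m ∈ P := by
      have h6 : n - m = ((n + p) - m) - p := by abel
      rw [h6]
      exact P.sub_mem h3 hp
    have h6 : fm G (n - m) (n' + p') = 0 := by
      rw [fm_add_right, hd.orth _ h5 n' hn', horth' _ h4 p' hp', add_zero]
    change - fm G (nn (n + p)) (n' + p') = _
    rw [h1]
    have h7 : fm G m (n' + p') = fm G n (n' + p') := by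
      rw [fm_sub_left, sub_eq_zero] at h6
      exact h6.symm
    rw [h7, fm_add_right, horth' n hn p' hp', add_zero]
  have hNN : ∀ a ∈ A, ∀ x ∈ N, (- fm G (a x) (a x)).re ≤ ‖a‖ ^ 2 * (- fm G x x).re := by
    intro a ha x hx
    obtain ⟨a', ha', haa⟩ := hA a ha
    have h1 := lax_norm hE hE' hG.neg (N := N)
      (fun z hz => by rw [fm_neg, Complex.neg_re]; linarith [hd.neg z hz])
      (hd.invN a ha) (hd.invN a' ha') (fun f g => by rw [fm_neg, fm_neg, haa]) haa hx
    rwa [fm_neg, fm_neg] at h1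
  have hPP : ∀ a ∈ A, ∀ x ∈ P, (fm G (a x) (a x)).re ≤ ‖a‖ ^ 2 * (fm G x x).re := by
    intro a ha x hx
    obtain ⟨a', ha', haa⟩ := hA a ha
    exact lax_norm hE hE' hG hd.pos (hd.invP a ha) (hd.invP a' ha') haa haa hx
  have hself : ∀ n ∈ N, ∀ p ∈ P, fm G (n + p) (n + p) = fm G n n + fm G p p := by
    intro n hn p hp
    rw [fm_add_left, fm_add_right, fm_add_right, horth' n hn p hp, hd.orth p hp n hn]
    ring
  refine ⟨X, ⟨?_, ?_, ?_, ?_, ?_, ?_, ?_, ?_, ?_, ?_⟩, ?_, ?_⟩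
  · intro a ha h hh
    obtain ⟨n, hn, p, hp, rfl⟩ := Submodule.mem_sup.mp hh
    rw [map_add]
    exact Submodule.mem_sup.mpr ⟨_, hd.invN a ha n hn, _, hd.invP a ha p hp, rfl⟩
  · intro h hh h' hh' g hg
    obtain ⟨n, hn, p, hp, rfl⟩ := Submodule.mem_sup.mp hh
    obtain ⟨n', hn', p', hp', rfl⟩ := Submodule.mem_sup.mp hh'
    obtain ⟨m, hm, q, hq, rfl⟩ := Submodule.mem_sup.mp hg
    have e : n + p + (n' + p') = (n + n') + (p + p') := by abel
    rw [e, hX _ (N.add_mem hn hn') _ (P.add_mem hp hp') m hm q hq, hX n hn p hp m hm q hq,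
      hX n' hn' p' hp' m hm q hq, fm_add_left]
    ring
  · intro c h hh g hg
    obtain ⟨n, hn, p, hp, rfl⟩ := Submodule.mem_sup.mp hh
    obtain ⟨m, hm, q, hq, rfl⟩ := Submodule.mem_sup.mp hg
    rw [smul_add, hX _ (N.smul_mem c hn) _ (P.smul_mem c hp) m hm q hq, hX n hn p hp m hm q hq,
      fm_smul_left]
    ring
  · intro h hh g hg
    obtain ⟨n, hn, p, hp, rfl⟩ := Submodule.mem_sup.mp hh
    obtain ⟨m, hm, q, hq, rfl⟩ := Submodule.mem_sup.mp hg
    rw [hX n hn p hp m hm q hq, hX m hm q hq n hn p hp, hG n m, map_neg]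
  · intro h hh
    obtain ⟨n, hn, p, hp, rfl⟩ := Submodule.mem_sup.mp hh
    rw [hX n hn p hp n hn p hp, Complex.neg_re]
    linarith [hd.neg n hn]
  · intro h hh
    obtain ⟨n, hn, p, hp, rfl⟩ := Submodule.mem_sup.mp hh
    rw [hX n hn p hp n hn p hp, hself n hn p hp]
    have e : fm G n n + fm G p p + -fm G n n = fm G p p := by ring
    rw [e]
    exact hd.pos p hp
  · intro a ha a' ha' haa h hh g hg
    obtain ⟨n, hn, p, hp, rfl⟩ := Submodule.mem_sup.mp hh
    obtain ⟨m, hm, q, hq, rfl⟩ := Submodule.mem_sup.mp hg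
    rw [map_add, map_add, hX _ (hd.invN a ha n hn) _ (hd.invP a ha p hp) m hm q hq,
      hX n hn p hp _ (hd.invN a' ha' m hm) _ (hd.invP a' ha' q hq), haa]
  · intro a ha h hh
    obtain ⟨n, hn, p, hp, rfl⟩ := Submodule.mem_sup.mp hh
    rw [map_add, hX _ (hd.invN a ha n hn) _ (hd.invP a ha p hp) _ (hd.invN a ha n hn) _
      (hd.invP a ha p hp), hX n hn p hp n hn p hp]
    exact hNN a ha n hn
  · intro a ha h hh
    obtain ⟨n, hn, p, hp, rfl⟩ := Submodule.mem_sup.mp hh
    rw [map_add, hX _ (hd.invN a ha n hn) _ (hd.invP a ha p hp) _ (hd.invN a ha n hn) _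
      (hd.invP a ha p hp), hX n hn p hp n hn p hp, hself n hn p hp,
      hself _ (hd.invN a ha n hn) _ (hd.invP a ha p hp)]
    have e : fm G n n + fm G p p + -fm G n n = fm G p p := by ring
    have e' : fm G (a n) (a n) + fm G (a p) (a p) + -fm G (a n) (a n) = fm G (a p) (a p) := by ring
    rw [e, e']
    exact hPP a ha p hp
  · intro h hh ε hε
    obtain ⟨n, hn, p, hp, rfl⟩ := Submodule.mem_sup.mp hh
    refine ⟨n, Submodule.mem_sup_left hn, ?_⟩
    have h1 := hX 0 N.zero_mem p hp 0 N.zero_mem p hp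
    have h2 := hX n hn 0 P.zero_mem n hn 0 P.zero_mem
    rw [zero_add, fm_zero_left, neg_zero] at h1
    rw [add_zero] at h2
    have e : n + p - n = p := by abel
    rw [e, h1, h2]
    simpa using hε
  · intro p hp
    have h1 := hX 0 N.zero_mem p hp 0 N.zero_mem p hp
    rwa [zero_add, fm_zero_left, neg_zero] at h1
  · intro n hn
    have h2 := hX n hn 0 P.zero_mem n hn 0 P.zero_mem
    rw [add_zero] at h2
    rw [h2]
    ring

end Pool.Agent.H91.PH
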