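import Pool.Agent.H91.PH.Quot

/-!
The Krein-Lax bound for symmetric operators on a semidefinite subspace, and the square root of the
form on a closed semidefinite subspace.
-/

set_option autoImplicit false

open scoped InnerProductSpace ComplexConjugate Topology
open Filter

namespace Pool.Agent.H91.PH

variable {H : Type} [NormedAddCommGroup H] [InnerProductSpace ℂ H]

/-- The inequality of Cauchy and Schwarz on a positive subspace. -/
lemma cauchy {G : H →L[ℂ] H} (hG : Herm G) {N : Submodule ℂ H}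
    (hN : ∀ y ∈ N, 0 ≤ (fm G y y).re) {x y : H} (hx : x ∈ N) (hy : y ∈ N) :
    (fm G x y).re ^ 2 ≤ (fm G x x).re * (fm G y y).re := by
  have h1 : ∀ t : ℝ, 0 ≤ (fm G y y).re * (t * t) + 2 * (fm G x y).re * t + (fm G x x).re := by
    intro t
    have h2 := hN (x + (t : ℂ) • y) (N.add_mem hx (N.smul_mem _ hy))
    rw [fm_add_left, fm_add_right, fm_add_right, fm_smul_left, fm_smul_left, fm_smul_right,
      fm_smul_right, hG x y, Complex.conj_ofReal] at h2
    have h3 : (t * ((t : ℂ) * fm G y y)).re = (fm G y y).re * (t * t) := by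
      rw [← mul_assoc, ← Complex.ofReal_mul, Complex.re_ofReal_mul]; ring
    have h4 : ((t : ℂ) * fm G x y).re = t * (fm G x y).re := Complex.re_ofReal_mul _ _
    have h5 : ((t : ℂ) * conj (fm G x y)).re = t * (fm G x y).re := by
      rw [Complex.re_ofReal_mul, Complex.conj_re]
    simp only [Complex.add_re, h3, h4, h5] at h2
    linarith
  have h6 := discrim_le_zero h1
  unfold discrim at h6
  nlinarith

lemma pow_apply_add (b : H →L[ℂ] H) (m k : ℕ) (x : H) : (b ^ (m + k)) x = (b ^ m) ((b ^ k) x) := by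
  rw [pow_add]; rfl

/-- The bound of Krein and Lax. -/
theorem lax {G : H →L[ℂ] H} (hG : Herm G) {N : Submodule ℂ H}
    (hN : ∀ y ∈ N, 0 ≤ (fm G y y).re) {a a' : H →L[ℂ] H} (ha : ∀ x ∈ N, a x ∈ N)
    (ha' : ∀ x ∈ N, a' x ∈ N) (hs : ∀ f g : H, fm G (a f) g = fm G f (a' g)) {x : H}
    (hx : x ∈ N) : (fm G (a x) (a x)).re ≤ ‖a' * a‖ * (fm G x x).re := by
  set b := a' * a with hb
  have hs' := adj_symm hG hs
  have hbN : ∀ x ∈ N, b x ∈ N := fun x hx => ha' _ (ha x hx)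
  have hbs : ∀ f g : H, fm G (b f) g = fm G f (b g) := by
    intro f g
    change fm G (a' (a f)) g = fm G f (a' (a g))
    rw [← hs', ← hs]
  have hpN : ∀ m, (b ^ m) x ∈ N := fun m => pow_inv hbN m x hx
  let X : ℕ → ℝ := fun k => (fm G ((b ^ (2 ^ k)) x) x).re
  have hX0 : X 0 = (fm G (a x) (a x)).re := by
    change (fm G ((b ^ (2 ^ 0)) x) x).re = _
    rw [pow_zero, pow_one]
    change (fm G (a' (a x)) x).re = _
    rw [← hs']
  have hXs : ∀ k, X k ^ 2 ≤ X (k + 1) * (fm G x x).re := by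
    intro k
    have h1 := cauchy hG hN (hpN (2 ^ k)) hx
    have h2 : fm G ((b ^ (2 ^ k)) x) ((b ^ (2 ^ k)) x) = fm G ((b ^ (2 ^ (k + 1))) x) x := by
      rw [← pow_sa hbs, ← pow_apply_add]
      congr 3
      rw [pow_succ]; ring
    rw [h2] at h1
    exact h1
  have hXb : ∀ k, X k ≤ (‖G‖ * ‖x‖ ^ 2) * ‖b‖ ^ (2 ^ k) := by
    intro k
    have h1 : X k ≤ ‖fm G ((b ^ (2 ^ k)) x) x‖ := Complex.re_le_norm _
    have h2 : ‖fm G ((b ^ (2 ^ k)) x) x‖ ≤ ‖G ((b ^ (2 ^ k)) x)‖ * ‖x‖ := norm_inner_le_norm _ _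
    have h3 : ‖G ((b ^ (2 ^ k)) x)‖ ≤ ‖G‖ * (‖b ^ (2 ^ k)‖ * ‖x‖) :=
      (G.le_opNorm _).trans (by gcongr; exact ContinuousLinearMap.le_opNorm _ _)
    have h4 : ‖b ^ (2 ^ k)‖ ≤ ‖b‖ ^ (2 ^ k) := norm_pow_le' b (by positivity)
    calc X k ≤ ‖G ((b ^ (2 ^ k)) x)‖ * ‖x‖ := h1.trans h2
      _ ≤ (‖G‖ * (‖b‖ ^ (2 ^ k) * ‖x‖)) * ‖x‖ := by
        gcongr
        exact h3.trans (by gcongr)
      _ = (‖G‖ * ‖x‖ ^ 2) * ‖b‖ ^ (2 ^ k) := by ring
  by_contra hcon
  push Not at hcon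
  rw [← hX0] at hcon
  set q := (fm G x x).re with hq
  have hq0 : 0 ≤ q := hN x hx
  have hqpos : 0 < q := by
    rcases hq0.lt_or_eq with h | h
    · exact h
    · exfalso
      have h1 := hXs 0
      rw [← h, mul_zero] at h1
      rw [← h, mul_zero] at hcon
      have h2 : 0 < X 0 ^ 2 := by positivity
      linarith
  set θ := X 0 / q with hθ
  have hθb : ‖b‖ < θ := by rw [hθ, lt_div_iff₀ hqpos]; exact hcon
  have hθ0 : 0 < θ := lt_of_le_of_lt (norm_nonneg b) hθb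
  have hXk : ∀ k, θ ^ (2 ^ k) * q ≤ X k := by
    intro k
    induction k with
    | zero => rw [pow_zero, pow_one, hθ, div_mul_cancel₀ _ hqpos.ne']
    | succ k ih =>
      have h1 := hXs k
      have h2 : (θ ^ (2 ^ k) * q) ^ 2 ≤ X (k + 1) * q :=
        (pow_le_pow_left₀ (by positivity) ih 2).trans h1
      have h3 : (θ ^ (2 ^ k) * q) ^ 2 = (θ ^ (2 ^ (k + 1)) * q) * q := by
        rw [pow_succ 2 k, pow_mul]; ring
      rw [h3] at h2
      exact le_of_mul_le_mul_right h2 hqpos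
  have hfin : ∀ k, q ≤ (‖G‖ * ‖x‖ ^ 2) * (‖b‖ / θ) ^ (2 ^ k) := by
    intro k
    have h1 := (hXk k).trans (hXb k)
    rw [div_pow, ← mul_div_assoc, le_div_iff₀ (by positivity)]
    linarith
  have hlim : Tendsto (fun k : ℕ => (‖G‖ * ‖x‖ ^ 2) * (‖b‖ / θ) ^ (2 ^ k)) atTop (𝓝 0) := by
    have h1 : Tendsto (fun n : ℕ => (‖b‖ / θ) ^ n) atTop (𝓝 0) :=
      tendsto_pow_atTop_nhds_zero_of_lt_one (by positivity) ((div_lt_one hθ0).mpr hθb)
    have h2 : Tendsto (fun k : ℕ => 2 ^ k) atTop atTop :=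
      tendsto_pow_atTop_atTop_of_one_lt (by norm_num)
    have h3 := (h1.comp h2).const_mul (‖G‖ * ‖x‖ ^ 2)
    rw [mul_zero] at h3
    exact h3
  have := ge_of_tendsto' hlim hfin
  linarith

variable [CompleteSpace H]

/-- The square root of the form on a closed positive subspace. -/
theorem exists_half {G : H →L[ℂ] H} (hG : Herm G) {N : Submodule ℂ H}
    (hNc : IsClosed (N : Set H)) (hN : ∀ y ∈ N, 0 ≤ (fm G y y).re) :
    ∃ S : H →L[ℂ] H, ∀ x ∈ N, ∀ y ∈ N, ⟪S x, S y⟫_ℂ = fm G x y := by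
  have : CompleteSpace N := hNc.completeSpace_coe
  set π := N.starProjection with hπ
  have hπmem : ∀ x, π x ∈ N := fun x => N.starProjection_apply_mem x
  have hπeq : ∀ x ∈ N, π x = x := fun x hx => N.starProjection_eq_self_iff.mpr hx
  have hπadj : ∀ x y, ⟪π x, y⟫_ℂ = ⟪x, π y⟫_ℂ := fun x y =>
    N.inner_starProjection_left_eq_right x y
  have hform : ∀ x y, ⟪(π * G * π) x, y⟫_ℂ = fm G (π x) (π y) := by
    intro x y
    change ⟪π (G (π x)), y⟫_ℂ = ⟪G (π x), π y⟫_ℂ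
    rw [hπadj]
  have hpos : 0 ≤ π * G * π := by
    rw [ContinuousLinearMap.nonneg_iff_isPositive]
    refine ContinuousLinearMap.isPositive_iff_complex _ |>.mpr ?_
    intro x
    rw [hform]
    have h1 : (fm G (π x) (π x)).im = 0 := by
      have h2 := hG (π x) (π x)
      have h3 := congrArg Complex.im h2
      rw [Complex.conj_im] at h3
      linarith
    have h2 : fm G (π x) (π x) = (((fm G (π x) (π x)).re : ℝ) : ℂ) := by
      apply Complex.ext
      · rw [Complex.ofReal_re]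
      · rw [h1, Complex.ofReal_im]
    rw [RCLike.re_to_complex]
    exact ⟨h2.symm, hN _ (hπmem x)⟩
  refine ⟨CFC.sqrt (π * G * π), ?_⟩
  intro x hx y hy
  have hsa : star (CFC.sqrt (π * G * π)) = CFC.sqrt (π * G * π) :=
    IsSelfAdjoint.of_nonneg (CFC.sqrt_nonneg _)
  have hmul : CFC.sqrt (π * G * π) * CFC.sqrt (π * G * π) = π * G * π :=
    CFC.sqrt_mul_sqrt_self _ hpos
  set S := CFC.sqrt (π * G * π)
  have h1 : ⟪S x, S y⟫_ℂ = ⟪(S * S) x, y⟫_ℂ := by
    exact (proj_adj hsa (S x) y).symm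
  rw [h1, hmul, hform, hπeq x hx, hπeq y hy]

end Pool.Agent.H91.PH
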