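import Pool.Agent.H91.PH.Expo
import Pool.Agent.H91.PH.MeanEx

/-!
Extension of dual pairs which are invariant under the sum of a C*-like algebra and the radical.
-/

set_option autoImplicit false

open scoped InnerProductSpace ComplexConjugate
open Filter

namespace Pool.Agent.H91.PH

variable {H : Type} [NormedAddCommGroup H] [InnerProductSpace ℂ H] [CompleteSpace H]

/-- The additive group of the self-adjoint elements of `B`. -/
def saGroup (G : H →L[ℂ] H) (B : Subalgebra ℂ (H →L[ℂ] H)) : AddSubgroup (H →L[ℂ] H) where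
  carrier := {s | s ∈ B ∧ ∀ f g : H, fm G (s f) g = fm G f (s g)}
  add_mem' := by
    rintro a b ⟨ha, ha'⟩ ⟨hb, hb'⟩
    refine ⟨B.add_mem ha hb, fun f g => ?_⟩
    change fm G (a f + b f) g = fm G f (a g + b g)
    rw [fm_add_left, fm_add_right, ha', hb']
  zero_mem' := ⟨B.zero_mem, fun f g => by
    change fm G 0 g = fm G f 0
    rw [fm_zero_left, fm_zero_right]⟩
  neg_mem' := by
    rintro a ⟨ha, ha'⟩
    refine ⟨B.neg_mem ha, fun f g => ?_⟩
    change fm G (-(a f)) g = fm G f (-(a g))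
    rw [fm_neg_left, fm_neg_right, ha']

/-- The solution of the extension problem for `G`, `A`, `N` and `P`. -/
def Solvable (G : H →L[ℂ] H) (A : Subalgebra ℂ (H →L[ℂ] H)) (N P : Submodule ℂ H) : Prop :=
  ∃ N' P' : Submodule ℂ H, N ≤ N' ∧ P ≤ P' ∧ (∀ x ∈ P', 0 ≤ (fm G x x).re) ∧
    (∀ y ∈ N', (fm G y y).re ≤ 0) ∧
    (∀ y, y ∈ N' ↔ ∀ x ∈ P', fm G x y = 0) ∧
    (∀ x, x ∈ P' ↔ ∀ y ∈ N', fm G x y = 0) ∧
    (∀ a ∈ A, ∀ y ∈ N', a y ∈ N') ∧ (∀ a ∈ A, ∀ p ∈ P', a p ∈ P')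

theorem main_sum {E : H →L[ℂ] H} (hE : E * E = E) (hE' : star E = E)
    {A B : Subalgebra ℂ (H →L[ℂ] H)} (hc : Comm A) (hA : Symm (Jm E) A)
    (hBA : ∀ b ∈ B, ∀ x : H, b x ∈ closure {y | ∃ a ∈ A, y = a x}) (hBc : Comm B)
    (hB : Symm (Jm E) B) {C : ℝ}
    (hC : ∀ b ∈ B, ∀ b' ∈ B, (∀ f g : H, fm (Jm E) (b f) g = fm (Jm E) f (b' g)) →
      ‖b‖ ^ 2 ≤ C * ‖b' * b‖)
    (hAB : ∀ a ∈ A, ∀ x : H, a x ∈ closure {y | ∃ b ∈ B, ∃ r, Rad (Jm E) A r ∧ y = b x + r x})
    {N P : Submodule ℂ H} (h : Dual (Jm E) A N P) : Solvable (Jm E) A N P := by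
  have hG := herm_Jm hE hE'
  obtain ⟨N₁, P₁, hN₁, hP₁, hmax⟩ := exists_maxDual h
  obtain ⟨m, hm⟩ := exists_mean (saGroup (Jm E) B)
  letI : NormedAlgebra ℚ (H →L[ℂ] H) := NormedAlgebra.restrictScalars ℚ ℂ (H →L[ℂ] H)
  let u : saGroup (Jm E) B → H →L[ℂ] H := fun s => NormedSpace.exp (Complex.I • (s : H →L[ℂ] H))
  have hu : ∀ s t, u (s + t) = u s * u t := by
    intro s t
    have hst : Commute (Complex.I • (s : H →L[ℂ] H)) (Complex.I • (t : H →L[ℂ] H)) := by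
      have h1 : Commute (s : H →L[ℂ] H) (t : H →L[ℂ] H) :=
        hBc _ s.2.1 _ t.2.1
      exact (h1.smul_left Complex.I).smul_right Complex.I
    change NormedSpace.exp (Complex.I • ((s : H →L[ℂ] H) + (t : H →L[ℂ] H))) = _
    rw [smul_add, NormedSpace.exp_add_of_commute hst]
  have hu0 : u 0 = 1 := by
    change NormedSpace.exp (Complex.I • (0 : H →L[ℂ] H)) = 1
    rw [smul_zero, NormedSpace.exp_zero]
  have hadj : ∀ s : saGroup (Jm E) B, ∀ f g : H,
      fm (Jm E) ((Complex.I • (s : H →L[ℂ] H)) f) g =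
      fm (Jm E) f ((Complex.I • ((-s : saGroup (Jm E) B) : H →L[ℂ] H)) g) := by
    intro s f g
    change fm (Jm E) (Complex.I • ((s : H →L[ℂ] H) f)) g =
      fm (Jm E) f (Complex.I • (-((s : H →L[ℂ] H) g)))
    rw [fm_smul_left, fm_smul_right, fm_neg_right, s.2.2, Complex.conj_I]
    ring
  have huu : ∀ s, u (-s) * u s = 1 := fun s => by rw [← hu, neg_add_cancel, hu0]
  have hiso : ∀ s x y, fm (Jm E) (u s x) (u s y) = fm (Jm E) x y := by
    intro s x y
    have h1 : fm (Jm E) (u s x) (u s y) = fm (Jm E) x (u (-s) (u s y)) := exp_adj (hadj s) x _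
    have h2 : u (-s) (u s y) = y := by
      calc u (-s) (u s y) = (u (-s) * u s) y := rfl
        _ = y := by rw [huu]; rfl
    rw [h1, h2]
  -- the bound
  have hbd : ∀ s x, ‖u s x‖ ≤ (|C| + 1) * ‖x‖ := by
    intro s x
    have h1 := exp_bound (G := Jm E) (B := B) hC (a := Complex.I • (s : H →L[ℂ] H))
      (a' := Complex.I • ((-s : saGroup (Jm E) B) : H →L[ℂ] H)) (B.smul_mem s.2.1 _)
      (B.smul_mem (-s : saGroup (Jm E) B).2.1 _) (hadj s) (huu s)
    have h2 : ‖(1 : H →L[ℂ] H)‖ ≤ 1 :=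
      ContinuousLinearMap.opNorm_le_bound _ zero_le_one fun v => by rw [one_mul]; rfl
    have h3 : ‖u s‖ ^ 2 ≤ |C| := by
      refine h1.trans ?_
      calc C * ‖(1 : H →L[ℂ] H)‖ ≤ |C| * ‖(1 : H →L[ℂ] H)‖ := by
            gcongr; exact le_abs_self C
        _ ≤ |C| * 1 := by gcongr
        _ = |C| := mul_one _
    have h4 : ‖u s‖ ≤ |C| + 1 := by
      by_contra hcon
      push Not at hcon
      have := abs_nonneg C
      nlinarith
    exact (ContinuousLinearMap.le_opNorm _ _).trans (by gcongr)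
  have hNB : ∀ b ∈ B, ∀ y ∈ N₁, b y ∈ N₁ := by
    intro b hb y hy
    refine closure_minimal ?_ hmax.isClosed_N (hBA b hb y)
    rintro _ ⟨a, ha, rfl⟩
    exact hmax.invN a ha y hy
  have hPB : ∀ b ∈ B, ∀ y ∈ P₁, b y ∈ P₁ := by
    intro b hb y hy
    refine closure_minimal ?_ hmax.isClosed_P (hBA b hb y)
    rintro _ ⟨a, ha, rfl⟩
    exact hmax.invP a ha y hy
  have hNs : ∀ s : saGroup (Jm E) B, ∀ y ∈ N₁, u s y ∈ N₁ := fun s y hy =>
    exp_inv hmax.isClosed_N (fun z hz => N₁.smul_mem _ (hNB _ s.2.1 z hz)) hy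
  have hPs : ∀ s : saGroup (Jm E) B, ∀ y ∈ P₁, u s y ∈ P₁ := fun s y hy =>
    exp_inv hmax.isClosed_P (fun z hz => P₁.smul_mem _ (hPB _ s.2.1 z hz)) hy
  obtain ⟨N₂, P₂, hN₂, hP₂, pos, neg, hNc, hPc, invN, invP⟩ := phillips_group m hm hE hE' u hu0 hu
    (C := |C| + 1) (by positivity) hbd hiso hmax.pos hmax.neg hmax.orth hNs hPs
  have horth : ∀ x ∈ P₂, ∀ y ∈ N₂, fm (Jm E) x y = 0 := fun x hx => (hPc x).mp hx
  -- closedness
  have hNcl : IsClosed (N₂ : Set H) := by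
    have : (N₂ : Set H) = ⋂ x ∈ P₂, {y | fm (Jm E) x y = 0} := by
      ext y
      rw [Set.mem_iInter₂]
      exact hNc y
    rw [this]
    exact isClosed_biInter fun x _ => isClosed_eq (continuous_fm_right x) continuous_const
  have hPcl : IsClosed (P₂ : Set H) := by
    have : (P₂ : Set H) = ⋂ y ∈ N₂, {x | fm (Jm E) x y = 0} := by
      ext y
      rw [Set.mem_iInter₂]
      exact hPc y
    rw [this]
    exact isClosed_biInter fun x _ => isClosed_eq (continuous_fm_left x) continuous_const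
  -- invariance under the algebra `B`
  have key : ∀ K : Submodule ℂ H, IsClosed (K : Set H) →
      (∀ s : saGroup (Jm E) B, ∀ y ∈ K, u s y ∈ K) → ∀ b ∈ B, ∀ y ∈ K, b y ∈ K := by
    intro K hK hinv
    have h1 : ∀ s : saGroup (Jm E) B, ∀ y ∈ K, (s : H →L[ℂ] H) y ∈ K := by
      intro s y hy
      have h2 : (Complex.I • (s : H →L[ℂ] H)) y ∈ K := by
        refine inv_of_exp hK (fun t x hx => ?_) hy
        have h3 := hinv ⟨(t : ℂ) • (s : H →L[ℂ] H), B.smul_mem s.2.1 _, fun f g => by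
          change fm (Jm E) ((t : ℂ) • (s : H →L[ℂ] H) f) g = fm (Jm E) f ((t : ℂ) • (s : H →L[ℂ] H) g)
          rw [fm_smul_left, fm_smul_right, s.2.2, Complex.conj_ofReal]⟩ x hx
        change (NormedSpace.exp (Complex.I • ((t : ℂ) • (s : H →L[ℂ] H)))) x ∈ K at h3
        rwa [smul_comm] at h3
      have h3 : (s : H →L[ℂ] H) y = (-Complex.I) • ((Complex.I • (s : H →L[ℂ] H)) y) := by
        change _ = (-Complex.I) • (Complex.I • (s : H →L[ℂ] H) y)
        rw [smul_smul, neg_mul, Complex.I_mul_I, neg_neg, one_smul]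
      rw [h3]
      exact K.smul_mem _ h2
    intro b hb y hy
    obtain ⟨b', hb', hbb⟩ := hB b hb
    have hbb' := adj_symm hG hbb
    have h2 := h1 ⟨b + b', B.add_mem hb hb', fun f g => by
      change fm (Jm E) (b f + b' f) g = fm (Jm E) f (b g + b' g)
      rw [fm_add_left, fm_add_right, hbb, ← hbb', add_comm]⟩ y hy
    have h3 := h1 ⟨Complex.I • (b - b'), B.smul_mem (B.sub_mem hb hb') _, fun f g => by
      change fm (Jm E) (Complex.I • (b f - b' f)) g = fm (Jm E) f (Complex.I • (b g - b' g))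
      rw [fm_smul_left, fm_smul_right, fm_sub_left, fm_sub_right, hbb, ← hbb', Complex.conj_I]
      ring⟩ y hy
    have e : b y = (1 / 2 : ℂ) • (b y + b' y) - (Complex.I / 2) • (Complex.I • (b y - b' y)) := by
      rw [smul_smul]
      have h3 : Complex.I / 2 * Complex.I = -(1 / 2) := by
        rw [div_mul_eq_mul_div, Complex.I_mul_I]; ring
      rw [h3]
      module
    rw [e]
    exact K.sub_mem (K.smul_mem _ h2) (K.smul_mem _ h3)
  -- both subspaces are in the orthogonal complement of `N₁ ∩ P₁`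
  have hNperp : N₂ ≤ perp (Jm E) (N₁ ⊓ P₁) := fun y hy x hx => horth x (hP₂ hx.2) y hy
  have hPperp : P₂ ≤ perp (Jm E) (N₁ ⊓ P₁) := fun y hy x hx =>
    hG.eq_zero (horth y hy x (hN₂ hx.1))
  refine ⟨N₂, P₂, hN₁.trans hN₂, hP₁.trans hP₂, pos, neg, hNc, hPc, ?_, ?_⟩
  · intro a ha y hy
    refine closure_minimal ?_ hNcl (hAB a ha y)
    rintro _ ⟨b, hb, r, hr, rfl⟩
    exact N₂.add_mem (key N₂ hNcl invN b hb y hy)
      (hN₂ (hmax.rad_main hG hA hc hr y (hNperp hy)).1)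
  · intro a ha y hy
    refine closure_minimal ?_ hPcl (hAB a ha y)
    rintro _ ⟨b, hb, r, hr, rfl⟩
    exact P₂.add_mem (key P₂ hPcl invP b hb y hy)
      (hP₂ (hmax.rad_main hG hA hc hr y (hPperp hy)).2)

end Pool.Agent.H91.PH
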