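import Pool.Agent.H91.PH.Core

/-!
Means on index sets and averages of bounded families of operators.
-/

set_option autoImplicit false

open scoped InnerProductSpace ComplexConjugate

namespace Pool.Agent.H91.PH

/-- A mean on the bounded functions on `S`. -/
structure Mean (S : Type*) where
  M : (S → ℂ) → ℂ
  add : ∀ (φ ψ : S → ℂ) (K L : ℝ), (∀ s, ‖φ s‖ ≤ K) → (∀ s, ‖ψ s‖ ≤ L) →
    M (fun s => φ s + ψ s) = M φ + M ψ
  smul : ∀ (c : ℂ) (φ : S → ℂ) (K : ℝ), (∀ s, ‖φ s‖ ≤ K) → M (fun s => c * φ s) = c * M φ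
  bound : ∀ (φ : S → ℂ) (K : ℝ), (∀ s, ‖φ s‖ ≤ K) → ‖M φ‖ ≤ K
  const : ∀ c : ℂ, M (fun _ => c) = c
  pos : ∀ (φ : S → ℂ) (K c : ℝ), (∀ s, ‖φ s‖ ≤ K) → (∀ s, c ≤ (φ s).re) → c ≤ (M φ).re

/-- The mean is invariant under the transformations `t`. -/
def Mean.Inv {S : Type*} (m : Mean S) (t : S → S) : Prop :=
  ∀ (φ : S → ℂ) (K : ℝ), (∀ s, ‖φ s‖ ≤ K) → m.M (fun s => φ (t s)) = m.M φ

variable {H : Type} [NormedAddCommGroup H] [InnerProductSpace ℂ H] [CompleteSpace H]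

/-- The average of a bounded family of operators. -/
lemma exists_avg {S : Type*} (m : Mean S) (R : S → H →L[ℂ] H) (C : ℝ)
    (hR : ∀ s x, ‖R s x‖ ≤ C * ‖x‖) :
    ∃ T : H →L[ℂ] H, ∀ x y, ⟪T x, y⟫_ℂ = m.M (fun s => ⟪R s x, y⟫_ℂ) := by
  have hb : ∀ x y s, ‖⟪R s x, y⟫_ℂ‖ ≤ C * ‖x‖ * ‖y‖ := by
    intro x y s
    refine (norm_inner_le_norm _ _).trans ?_
    have := hR s x
    gcongr
  let β : H →ₗ⋆[ℂ] H →ₗ[ℂ] ℂ :=
    LinearMap.mk₂'ₛₗ (starRingEnd ℂ) (RingHom.id ℂ) (fun x y => m.M (fun s => ⟪R s x, y⟫_ℂ))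
      (by
        intro x x' y
        have := m.add (fun s => ⟪R s x, y⟫_ℂ) (fun s => ⟪R s x', y⟫_ℂ) _ _ (hb x y) (hb x' y)
        rw [← this]
        congr 1
        ext s
        rw [map_add, inner_add_left])
      (by
        intro c x y
        have := m.smul (conj c) (fun s => ⟪R s x, y⟫_ℂ) _ (hb x y)
        rw [smul_eq_mul, ← this]
        congr 1
        ext s
        rw [map_smul, inner_smul_left])
      (by
        intro x y y'
        have := m.add (fun s => ⟪R s x, y⟫_ℂ) (fun s => ⟪R s x, y'⟫_ℂ) _ _ (hb x y) (hb x y')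
        rw [← this]
        congr 1
        ext s
        rw [inner_add_right])
      (by
        intro c x y
        have := m.smul c (fun s => ⟪R s x, y⟫_ℂ) _ (hb x y)
        rw [RingHom.id_apply, smul_eq_mul, ← this]
        congr 1
        ext s
        rw [inner_smul_right])
  let β' : H →L⋆[ℂ] H →L[ℂ] ℂ := LinearMap.mkContinuous₂ β C (fun x y => by
    exact m.bound _ _ (hb x y))
  refine ⟨InnerProductSpace.continuousLinearMapOfBilin β', ?_⟩
  intro x y
  rw [InnerProductSpace.continuousLinearMapOfBilin_apply]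
  rfl

end Pool.Agent.H91.PH
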