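import Pool.Agent.H91.PH.Form

/-!
Nilpotent operators and maximal invariant dual pairs.
-/

set_option autoImplicit false

open scoped InnerProductSpace

namespace Pool.Agent.H91.PH

variable {H : Type} [NormedAddCommGroup H] [InnerProductSpace ℂ H] {G : H →L[ℂ] H}

/-- The orthogonal complement with respect to the form. -/
def perp (G : H →L[ℂ] H) (D : Submodule ℂ H) : Submodule ℂ H where
  carrier := {x | ∀ y ∈ D, fm G y x = 0}
  add_mem' := by
    intro a b ha hb y hy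
    rw [fm_add_right, ha y hy, hb y hy, add_zero]
  zero_mem' := by
    intro y _
    exact fm_zero_right y
  smul_mem' := by
    intro c x hx y hy
    rw [fm_smul_right, hx y hy, mul_zero]

lemma mem_perp {D : Submodule ℂ H} {x : H} : x ∈ perp G D ↔ ∀ y ∈ D, fm G y x = 0 := Iff.rfl

/-- The set of operators is closed under adjoints with respect to the form. -/
def Symm (G : H →L[ℂ] H) (A : Subalgebra ℂ (H →L[ℂ] H)) : Prop :=
  ∀ a ∈ A, ∃ b ∈ A, ∀ f g : H, fm G (a f) g = fm G f (b g)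

/-- The algebra is commutative. -/
def Comm (A : Subalgebra ℂ (H →L[ℂ] H)) : Prop := ∀ a ∈ A, ∀ b ∈ A, a * b = b * a

lemma adj_symm (hG : Herm G) {a b : H →L[ℂ] H} (h : ∀ f g : H, fm G (a f) g = fm G f (b g)) :
    ∀ f g : H, fm G f (a g) = fm G (b f) g := by
  intro f g
  rw [hG (a g) f, h g f, ← hG g (b f)]

lemma Comm.apply {A : Subalgebra ℂ (H →L[ℂ] H)} (hc : Comm A) {a b : H →L[ℂ] H} (ha : a ∈ A)
    (hb : b ∈ A) (x : H) : a (b x) = b (a x) := by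
  have h := hc a ha b hb
  calc a (b x) = (a * b) x := rfl
    _ = (b * a) x := by rw [h]
    _ = b (a x) := rfl

variable {A : Subalgebra ℂ (H →L[ℂ] H)} {N P : Submodule ℂ H}

/-- Invariance of the orthogonal complement. -/
lemma perp_inv (hG : Herm G) (hA : Symm G A) {D : Submodule ℂ H}
    (hD : ∀ a ∈ A, ∀ x ∈ D, a x ∈ D) : ∀ a ∈ A, ∀ x ∈ perp G D, a x ∈ perp G D := by
  intro a ha x hx y hy
  obtain ⟨b, hb, hab⟩ := hA a ha
  rw [adj_symm hG hab]
  exact hx _ (hD b hb y hy)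

lemma MaxDual.le_perp_N (h : MaxDual G A N P) : N ≤ perp G (N ⊓ P) := by
  intro x hx y hy
  exact h.orth y hy.2 x hx

lemma MaxDual.le_perp_P (hG : Herm G) (h : MaxDual G A N P) : P ≤ perp G (N ⊓ P) := by
  intro x hx y hy
  exact hG.eq_zero (h.orth x hx y hy.1)

lemma MaxDual.inf_inv (h : MaxDual G A N P) : ∀ a ∈ A, ∀ x ∈ N ⊓ P, a x ∈ N ⊓ P :=
  fun a ha x hx => ⟨h.invN a ha x hx.1, h.invP a ha x hx.2⟩

/-- The isotropic part of `N` is in the intersection. -/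
lemma MaxDual.iso_N (hG : Herm G) (hA : Symm G A) (h : MaxDual G A N P) {x : H} (hx : x ∈ N)
    (hx0 : ∀ y ∈ N, fm G y x = 0) : x ∈ N ⊓ P := by
  have hD := h.neutral_le hG (D := N ⊓ perp G N)
    (fun x hx y hy => hy.2 x hx.1) (fun x hx y hy => hx.2 y hy)
    (fun x hx y hy => h.orth y hy x hx.1)
    (fun a ha x hx => ⟨h.invN a ha x hx.1, perp_inv hG hA h.invN a ha x hx.2⟩)
  exact ⟨hx, hD.2 ⟨hx, hx0⟩⟩

/-- The isotropic part of `P` is in the intersection. -/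
lemma MaxDual.iso_P (hG : Herm G) (hA : Symm G A) (h : MaxDual G A N P) {x : H} (hx : x ∈ P)
    (hx0 : ∀ y ∈ P, fm G y x = 0) : x ∈ N ⊓ P := by
  have hD := h.neutral_le hG (D := P ⊓ perp G P)
    (fun x hx y hy => hy.2 x hx.1) (fun x hx y hy => hG.eq_zero (h.orth x hx.1 y hy))
    (fun x hx y hy => hx.2 y hy)
    (fun a ha x hx => ⟨h.invP a ha x hx.1, perp_inv hG hA h.invP a ha x hx.2⟩)
  exact ⟨hD.1 ⟨hx, hx0⟩, hx⟩

lemma pow_sa {a : H →L[ℂ] H} (hs : ∀ f g : H, fm G (a f) g = fm G f (a g)) (m : ℕ) :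
    ∀ f g : H, fm G ((a ^ m) f) g = fm G f ((a ^ m) g) := by
  induction m with
  | zero => intro f g; rfl
  | succ m ih =>
    intro f g
    have e1 : (a ^ (m + 1)) f = (a ^ m) (a f) := by rw [pow_succ]; rfl
    have e2 : (a ^ (m + 1)) g = a ((a ^ m) g) := by rw [pow_succ']; rfl
    rw [e1, e2, ih, hs]

lemma pow_inv {S : Submodule ℂ H} {a : H →L[ℂ] H} (h : ∀ x ∈ S, a x ∈ S) (m : ℕ) :
    ∀ x ∈ S, (a ^ m) x ∈ S := by
  induction m with
  | zero => intro x hx; simpa using hx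
  | succ m ih =>
    intro x hx
    have e2 : (a ^ (m + 1)) x = a ((a ^ m) x) := by rw [pow_succ']; rfl
    rw [e2]
    exact h _ (ih x hx)

lemma MaxDual.step_N (hG : Herm G) (hA : Symm G A) (h : MaxDual G A N P) {a : H →L[ℂ] H}
    (ha : a ∈ A) (hs : ∀ f g : H, fm G (a f) g = fm G f (a g)) {m : ℕ}
    (hm : ∀ x ∈ N, (a ^ (m + 2)) x ∈ N ⊓ P) : ∀ x ∈ N, (a ^ (m + 1)) x ∈ N ⊓ P := by
  intro x hx
  have hz : (a ^ (m + 1)) x ∈ N := pow_inv (h.invN a ha) _ x hx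
  refine h.iso_N hG hA hz ?_
  have h0 : fm G ((a ^ (m + 1)) x) ((a ^ (m + 1)) x) = 0 := by
    have e1 : (a ^ (m + 1)) x = a ((a ^ m) x) := by rw [pow_succ']; rfl
    have e2 : a ((a ^ (m + 1)) x) = (a ^ (m + 2)) x := by rw [pow_succ' a (m + 1)]; rfl
    calc fm G ((a ^ (m + 1)) x) ((a ^ (m + 1)) x)
        = fm G ((a ^ (m + 1)) x) (a ((a ^ m) x)) := by rw [← e1]
      _ = fm G (a ((a ^ (m + 1)) x)) ((a ^ m) x) := (hs _ _).symm
      _ = fm G ((a ^ (m + 2)) x) ((a ^ m) x) := by rw [e2]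
      _ = 0 := h.orth _ (hm x hx).2 _ (pow_inv (h.invN a ha) _ x hx)
  intro y hy
  have hneg : ∀ y ∈ N, 0 ≤ (fm (-G) y y).re := fun y hy => by
    rw [fm_neg, Complex.neg_re]; linarith [h.neg y hy]
  have h1 := neutral_orth hG.neg hneg hz (by rw [fm_neg, h0, neg_zero]) hy
  rw [fm_neg, neg_eq_zero] at h1
  exact hG.eq_zero h1

lemma MaxDual.step_P (hG : Herm G) (hA : Symm G A) (h : MaxDual G A N P) {a : H →L[ℂ] H}
    (ha : a ∈ A) (hs : ∀ f g : H, fm G (a f) g = fm G f (a g)) {m : ℕ}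
    (hm : ∀ x ∈ P, (a ^ (m + 2)) x ∈ N ⊓ P) : ∀ x ∈ P, (a ^ (m + 1)) x ∈ N ⊓ P := by
  intro x hx
  have hz : (a ^ (m + 1)) x ∈ P := pow_inv (h.invP a ha) _ x hx
  refine h.iso_P hG hA hz ?_
  have h0 : fm G ((a ^ (m + 1)) x) ((a ^ (m + 1)) x) = 0 := by
    have e1 : (a ^ (m + 1)) x = a ((a ^ m) x) := by rw [pow_succ']; rfl
    have e2 : a ((a ^ (m + 1)) x) = (a ^ (m + 2)) x := by rw [pow_succ' a (m + 1)]; rfl
    calc fm G ((a ^ (m + 1)) x) ((a ^ (m + 1)) x)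
        = fm G ((a ^ (m + 1)) x) (a ((a ^ m) x)) := by rw [← e1]
      _ = fm G (a ((a ^ (m + 1)) x)) ((a ^ m) x) := (hs _ _).symm
      _ = fm G ((a ^ (m + 2)) x) ((a ^ m) x) := by rw [e2]
      _ = 0 := hG.eq_zero (h.orth _ (pow_inv (h.invP a ha) _ x hx) _ (hm x hx).1)
  intro y hy
  exact hG.eq_zero (neutral_orth hG h.pos hz h0 hy)

lemma MaxDual.step_D (hG : Herm G) (hA : Symm G A) (hc : Comm A) (h : MaxDual G A N P)
    {a : H →L[ℂ] H}
    (ha : a ∈ A) (hs : ∀ f g : H, fm G (a f) g = fm G f (a g)) {m : ℕ}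
    (hN : ∀ x ∈ N, a x ∈ N ⊓ P) (hP : ∀ x ∈ P, a x ∈ N ⊓ P)
    (hm : ∀ x ∈ perp G (N ⊓ P), (a ^ (m + 2)) x ∈ N ⊓ P) :
    ∀ x ∈ perp G (N ⊓ P), (a ^ (m + 1)) x ∈ N ⊓ P := by
  have hpow : ∀ k, a ^ k ∈ A := fun k => A.pow_mem ha k
  have h3 : ∀ x ∈ N ⊔ P, (a ^ (m + 1)) x ∈ N ⊓ P := by
    intro x hx
    obtain ⟨n, hn, p, hp, rfl⟩ := Submodule.mem_sup.mp hx
    have e1 : ∀ z, (a ^ (m + 1)) z = (a ^ m) (a z) := fun z => by rw [pow_succ]; rfl
    rw [map_add, e1, e1]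
    exact Submodule.add_mem _ (h.inf_inv _ (hpow m) _ (hN n hn))
      (h.inf_inv _ (hpow m) _ (hP p hp))
  have hD := h.neutral_le hG (D := (perp G (N ⊓ P)).map ((a ^ (m + 1) : H →L[ℂ] H) : H →ₗ[ℂ] H))
    (by
      rintro _ ⟨u, hu, rfl⟩ _ ⟨v, hv, rfl⟩
      have e1 : (a ^ (m + 1)) ((a ^ (m + 1)) v) = (a ^ m) ((a ^ (m + 2)) v) := by
        have e2 : a ^ (m + 1) * a ^ (m + 1) = a ^ m * a ^ (m + 2) := by
          rw [← pow_add, ← pow_add]; congr 1; ring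
        calc (a ^ (m + 1)) ((a ^ (m + 1)) v) = (a ^ (m + 1) * a ^ (m + 1)) v := rfl
          _ = (a ^ m * a ^ (m + 2)) v := by rw [e2]
          _ = _ := rfl
      change fm G ((a ^ (m + 1)) u) ((a ^ (m + 1)) v) = 0
      rw [pow_sa hs, e1]
      exact hG.eq_zero (hu _ (h.inf_inv _ (hpow m) _ (hm v hv))))
    (by
      rintro _ ⟨u, hu, rfl⟩ y hy
      change fm G y ((a ^ (m + 1)) u) = 0
      rw [← pow_sa hs]
      exact hu _ (h3 y (Submodule.mem_sup_left hy)))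
    (by
      rintro _ ⟨u, hu, rfl⟩ y hy
      change fm G y ((a ^ (m + 1)) u) = 0
      rw [← pow_sa hs]
      exact hu _ (h3 y (Submodule.mem_sup_right hy)))
    (by
      rintro b hb _ ⟨u, hu, rfl⟩
      refine ⟨b u, perp_inv hG hA h.inf_inv b hb u hu, ?_⟩
      exact hc.apply (hpow _) hb u)
  intro x hx
  exact ⟨hD.1 ⟨x, hx, rfl⟩, hD.2 ⟨x, hx, rfl⟩⟩

/-- A self-adjoint element of the algebra which is nilpotent modulo `D = N ∩ P` on the orthogonal
complement of `D` maps this complement to `D`. -/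
theorem MaxDual.sa_main (hG : Herm G) (hA : Symm G A) (hc : Comm A) (h : MaxDual G A N P)
    {a : H →L[ℂ] H} (ha : a ∈ A) (hs : ∀ f g : H, fm G (a f) g = fm G f (a g)) {m : ℕ}
    (hm : ∀ x ∈ perp G (N ⊓ P), (a ^ m) x ∈ N ⊓ P) : ∀ x ∈ perp G (N ⊓ P), a x ∈ N ⊓ P := by
  have hm' : ∀ x ∈ perp G (N ⊓ P), (a ^ (m + 1)) x ∈ N ⊓ P := by
    intro x hx
    have e1 : (a ^ (m + 1)) x = a ((a ^ m) x) := by rw [pow_succ']; rfl
    rw [e1]
    exact h.inf_inv a ha _ (hm x hx)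
  have hN : ∀ k, (∀ x ∈ N, (a ^ (k + 1)) x ∈ N ⊓ P) → ∀ x ∈ N, a x ∈ N ⊓ P := by
    intro k
    induction k with
    | zero => intro hk x hx; simpa using hk x hx
    | succ k ih => intro hk; exact ih (h.step_N hG hA ha hs hk)
  have hP : ∀ k, (∀ x ∈ P, (a ^ (k + 1)) x ∈ N ⊓ P) → ∀ x ∈ P, a x ∈ N ⊓ P := by
    intro k
    induction k with
    | zero => intro hk x hx; simpa using hk x hx
    | succ k ih => intro hk; exact ih (h.step_P hG hA ha hs hk)
  have hN1 := hN m fun x hx => hm' x (h.le_perp_N hx)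
  have hP1 := hP m fun x hx => hm' x (h.le_perp_P hG hx)
  have hD : ∀ k, (∀ x ∈ perp G (N ⊓ P), (a ^ (k + 1)) x ∈ N ⊓ P) →
      ∀ x ∈ perp G (N ⊓ P), a x ∈ N ⊓ P := by
    intro k
    induction k with
    | zero => intro hk x hx; simpa using hk x hx
    | succ k ih => intro hk; exact ih (h.step_D hG hA hc ha hs hN1 hP1 hk)
  exact hD m hm'

/-- The form is not degenerate. -/
def Nondeg (G : H →L[ℂ] H) : Prop := ∀ y, (∀ x, fm G x y = 0) → y = 0

lemma pow_adj {a b : H →L[ℂ] H} (hs : ∀ f g : H, fm G (a f) g = fm G f (b g)) (m : ℕ) :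
    ∀ f g : H, fm G ((a ^ m) f) g = fm G f ((b ^ m) g) := by
  induction m with
  | zero => intro f g; rfl
  | succ m ih =>
    intro f g
    have e1 : (a ^ (m + 1)) f = (a ^ m) (a f) := by rw [pow_succ]; rfl
    have e2 : (b ^ (m + 1)) g = b ((b ^ m) g) := by rw [pow_succ']; rfl
    rw [e1, e2, ih, hs]

/-- Nilpotent elements of the algebra map the orthogonal complement of `D = N ∩ P` to `D`. -/
theorem MaxDual.nil_main (hG : Herm G) (hG' : Nondeg G) (hA : Symm G A) (hc : Comm A)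
    (h : MaxDual G A N P) {a : H →L[ℂ] H} (ha : a ∈ A) (hn : IsNilpotent a) :
    ∀ x ∈ perp G (N ⊓ P), a x ∈ N ⊓ P := by
  obtain ⟨b, hb, hab⟩ := hA a ha
  have hba := adj_symm hG hab
  have hnb : IsNilpotent b := by
    obtain ⟨m, hm⟩ := hn
    refine ⟨m, ?_⟩
    ext y
    refine hG' _ fun x => ?_
    rw [← pow_adj hab, hm]
    exact fm_zero_left _
  have hcomm : Commute a b := hc a ha b hb
  have key : ∀ u ∈ A, IsNilpotent u → (∀ f g : H, fm G (u f) g = fm G f (u g)) →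
      ∀ x ∈ perp G (N ⊓ P), u x ∈ N ⊓ P := by
    intro u hu ⟨m, hm⟩ hs
    refine h.sa_main hG hA hc hu hs (m := m) fun x _ => ?_
    rw [hm]
    exact Submodule.zero_mem _
  have h1 := key (a + b) (A.add_mem ha hb) (hcomm.isNilpotent_add hn hnb) (by
    intro f g
    rw [ContinuousLinearMap.add_apply, ContinuousLinearMap.add_apply, fm_add_left, fm_add_right,
      hab, ← hba, add_comm])
  have h2 := key (Complex.I • (a - b)) (A.smul_mem (A.sub_mem ha hb) _)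
    ((hcomm.isNilpotent_sub hn hnb).smul _) (by
    intro f g
    rw [ContinuousLinearMap.smul_apply, ContinuousLinearMap.smul_apply,
      ContinuousLinearMap.sub_apply, ContinuousLinearMap.sub_apply, fm_smul_left, fm_smul_right,
      fm_sub_left, fm_sub_right, hab, ← hba, Complex.conj_I]
    ring)
  intro x hx
  have e : a x = (1 / 2 : ℂ) • ((a + b) x) - (Complex.I / 2) • ((Complex.I • (a - b)) x) := by
    rw [ContinuousLinearMap.add_apply, ContinuousLinearMap.smul_apply,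
      ContinuousLinearMap.sub_apply, smul_smul]
    have h3 : Complex.I / 2 * Complex.I = -(1 / 2) := by
      rw [div_mul_eq_mul_div, Complex.I_mul_I]; ring
    rw [h3]
    module
  rw [e]
  exact Submodule.sub_mem _ (Submodule.smul_mem _ _ (h1 x hx)) (Submodule.smul_mem _ _ (h2 x hx))

end Pool.Agent.H91.PH
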