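import Pool.Agent.H91.PH.Rep

/-!
Invariant subspaces with an invariant decomposition of the form as the difference of two mutually
singular positive semidefinite forms, and the existence of maximal ones.
-/

set_option autoImplicit false

open scoped InnerProductSpace ComplexConjugate

namespace Pool.Agent.H91.PH

variable {H : Type} [NormedAddCommGroup H] [InnerProductSpace ℂ H]

/-- On the invariant subspace `M` the form is the difference of the positive semidefinite forms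
`fm G + X` and `X`.  The operators in `A` are symmetric and bounded with respect to both forms, and
the two forms are mutually singular. -/
structure Obj (G : H →L[ℂ] H) (A : Subalgebra ℂ (H →L[ℂ] H)) (M : Submodule ℂ H)
    (X : H → H → ℂ) : Prop where
  inv : ∀ a ∈ A, ∀ h ∈ M, a h ∈ M
  add : ∀ h ∈ M, ∀ h' ∈ M, ∀ g ∈ M, X (h + h') g = X h g + X h' g
  smul : ∀ c : ℂ, ∀ h ∈ M, ∀ g ∈ M, X (c • h) g = conj c * X h g
  herm : ∀ h ∈ M, ∀ g ∈ M, X g h = conj (X h g)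
  pos : ∀ h ∈ M, 0 ≤ (X h h).re
  pos' : ∀ h ∈ M, 0 ≤ (fm G h h + X h h).re
  symm : ∀ a ∈ A, ∀ a' ∈ A, (∀ f g : H, fm G (a f) g = fm G f (a' g)) →
    ∀ h ∈ M, ∀ g ∈ M, X (a h) g = X h (a' g)
  bd : ∀ a ∈ A, ∀ h ∈ M, (X (a h) (a h)).re ≤ ‖a‖ ^ 2 * (X h h).re
  bd' : ∀ a ∈ A, ∀ h ∈ M,
    (fm G (a h) (a h) + X (a h) (a h)).re ≤ ‖a‖ ^ 2 * (fm G h h + X h h).re
  sing : ∀ h ∈ M, ∀ ε > 0, ∃ g ∈ M,
    (X (h - g) (h - g)).re + (fm G g g + X g g).re < ε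

/-- The pair `(M', X')` extends the pair `(M, X)`. -/
def Ext (M M' : Submodule ℂ H) (X X' : H → H → ℂ) : Prop :=
  M ≤ M' ∧ ∀ h ∈ M, ∀ g ∈ M, X' h g = X h g

lemma Ext.trans {M M' M'' : Submodule ℂ H} {X X' X'' : H → H → ℂ} (h : Ext M M' X X')
    (h' : Ext M' M'' X' X'') : Ext M M'' X X'' :=
  ⟨h.1.trans h'.1, fun x hx y hy => by rw [h'.2 x (h.1 hx) y (h.1 hy), h.2 x hx y hy]⟩

lemma Ext.refl (M : Submodule ℂ H) (X : H → H → ℂ) : Ext M M X X :=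
  ⟨le_rfl, fun _ _ _ _ => rfl⟩

theorem exists_maxObj {G : H →L[ℂ] H} {A : Subalgebra ℂ (H →L[ℂ] H)} {M₀ : Submodule ℂ H}
    {X₀ : H → H → ℂ} (h₀ : Obj G A M₀ X₀) :
    ∃ (M : Submodule ℂ H) (X : H → H → ℂ), Obj G A M X ∧ Ext M₀ M X₀ X ∧
      ∀ (M' : Submodule ℂ H) (X' : H → H → ℂ), Obj G A M' X' → Ext M M' X X' → M' ≤ M := by
  classical
  let α := {p : Submodule ℂ H × (H → H → ℂ) // Obj G A p.1 p.2 ∧ Ext M₀ p.1 X₀ p.2}
  let r : α → α → Prop := fun p q => Ext p.1.1 q.1.1 p.1.2 q.1.2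
  have key : ∀ c : Set α, IsChain r c → ∃ ub, ∀ a ∈ c, r a ub := by
    intro c hc
    rcases c.eq_empty_or_nonempty with rfl | ⟨p₀, hp₀⟩
    · exact ⟨⟨(M₀, X₀), h₀, Ext.refl _ _⟩, fun a ha => absurd ha (Set.notMem_empty _)⟩
    have hdir : ∀ p ∈ c, ∀ q ∈ c, ∃ s ∈ c, r p s ∧ r q s := by
      intro p hp q hq
      by_cases hpq : p = q
      · subst hpq
        exact ⟨p, hp, Ext.refl _ _, Ext.refl _ _⟩
      · rcases hc hp hq hpq with h | h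
        · exact ⟨q, hq, h, Ext.refl _ _⟩
        · exact ⟨p, hp, Ext.refl _ _, h⟩
    let M : Submodule ℂ H :=
      { carrier := {h | ∃ p ∈ c, h ∈ p.1.1}
        add_mem' := by
          rintro h g ⟨p, hp, hh⟩ ⟨q, hq, hg⟩
          obtain ⟨s, hs, h1, h2⟩ := hdir p hp q hq
          exact ⟨s, hs, s.1.1.add_mem (h1.1 hh) (h2.1 hg)⟩
        zero_mem' := ⟨p₀, hp₀, p₀.1.1.zero_mem⟩
        smul_mem' := by
          rintro t h ⟨p, hp, hh⟩
          exact ⟨p, hp, p.1.1.smul_mem t hh⟩ }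
    let X : H → H → ℂ := fun h g =>
      if hh : ∃ p ∈ c, h ∈ p.1.1 ∧ g ∈ p.1.1 then hh.choose.1.2 h g else 0
    have hX : ∀ p ∈ c, ∀ h ∈ p.1.1, ∀ g ∈ p.1.1, X h g = p.1.2 h g := by
      intro p hp h hh g hg
      have hex : ∃ p ∈ c, h ∈ p.1.1 ∧ g ∈ p.1.1 := ⟨p, hp, hh, hg⟩
      have h1 : X h g = hex.choose.1.2 h g := dif_pos hex
      obtain ⟨hq, hqh, hqg⟩ := hex.choose_spec
      obtain ⟨s, hs, h2, h3⟩ := hdir p hp _ hq
      rw [h1, ← h2.2 h hh g hg, ← h3.2 h hqh g hqg]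
    have hM1 : ∀ h ∈ M, ∃ p ∈ c, h ∈ p.1.1 := fun h hh => hh
    have hM2 : ∀ h ∈ M, ∀ g ∈ M, ∃ p ∈ c, h ∈ p.1.1 ∧ g ∈ p.1.1 := by
      rintro h ⟨p, hp, hh⟩ g ⟨q, hq, hg⟩
      obtain ⟨s, hs, h1, h2⟩ := hdir p hp q hq
      exact ⟨s, hs, h1.1 hh, h2.1 hg⟩
    have hM3 : ∀ h ∈ M, ∀ h' ∈ M, ∀ g ∈ M, ∃ p ∈ c, h ∈ p.1.1 ∧ h' ∈ p.1.1 ∧ g ∈ p.1.1 := by
      intro h hh h' hh' g hg
      obtain ⟨p, hp, h1, h2⟩ := hM2 h hh h' hh'
      obtain ⟨q, hq, h3⟩ := hM1 g hg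
      obtain ⟨s, hs, h4, h5⟩ := hdir p hp q hq
      exact ⟨s, hs, h4.1 h1, h4.1 h2, h5.1 h3⟩
    have hle : ∀ p ∈ c, p.1.1 ≤ M := fun p hp h hh => ⟨p, hp, hh⟩
    have hobj : Obj G A M X := by
      constructor
      · rintro a ha h ⟨p, hp, hh⟩
        exact ⟨p, hp, p.2.1.inv a ha h hh⟩
      · intro h hh h' hh' g hg
        obtain ⟨p, hp, h1, h2, h3⟩ := hM3 h hh h' hh' g hg
        rw [hX p hp _ (p.1.1.add_mem h1 h2) g h3, hX p hp h h1 g h3, hX p hp h' h2 g h3]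
        exact p.2.1.add h h1 h' h2 g h3
      · intro t h hh g hg
        obtain ⟨p, hp, h1, h2⟩ := hM2 h hh g hg
        rw [hX p hp _ (p.1.1.smul_mem t h1) g h2, hX p hp h h1 g h2]
        exact p.2.1.smul t h h1 g h2
      · intro h hh g hg
        obtain ⟨p, hp, h1, h2⟩ := hM2 h hh g hg
        rw [hX p hp g h2 h h1, hX p hp h h1 g h2]
        exact p.2.1.herm h h1 g h2
      · rintro h ⟨p, hp, hh⟩
        rw [hX p hp h hh h hh]
        exact p.2.1.pos h hh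
      · rintro h ⟨p, hp, hh⟩
        rw [hX p hp h hh h hh]
        exact p.2.1.pos' h hh
      · intro a ha a' ha' haa h hh g hg
        obtain ⟨p, hp, h1, h2⟩ := hM2 h hh g hg
        rw [hX p hp _ (p.2.1.inv a ha h h1) g h2, hX p hp h h1 _ (p.2.1.inv a' ha' g h2)]
        exact p.2.1.symm a ha a' ha' haa h h1 g h2
      · rintro a ha h ⟨p, hp, hh⟩
        rw [hX p hp _ (p.2.1.inv a ha h hh) _ (p.2.1.inv a ha h hh), hX p hp h hh h hh]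
        exact p.2.1.bd a ha h hh
      · rintro a ha h ⟨p, hp, hh⟩
        rw [hX p hp _ (p.2.1.inv a ha h hh) _ (p.2.1.inv a ha h hh), hX p hp h hh h hh]
        exact p.2.1.bd' a ha h hh
      · rintro h ⟨p, hp, hh⟩ ε hε
        obtain ⟨g, hg, h1⟩ := p.2.1.sing h hh ε hε
        refine ⟨g, ⟨p, hp, hg⟩, ?_⟩
        rw [hX p hp _ (p.1.1.sub_mem hh hg) _ (p.1.1.sub_mem hh hg), hX p hp g hg g hg]
        exact h1
    have hext : ∀ p ∈ c, Ext p.1.1 M p.1.2 X := fun p hp => ⟨hle p hp, hX p hp⟩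
    exact ⟨⟨(M, X), hobj, p₀.2.2.trans (hext p₀ hp₀)⟩, hext⟩
  obtain ⟨m, hm⟩ := exists_maximal_of_chains_bounded key (fun {a b c} => Ext.trans)
  exact ⟨m.1.1, m.1.2, m.2.1, m.2.2, fun M' X' h1 h2 =>
    (hm ⟨(M', X'), h1, m.2.2.trans h2⟩ h2).1⟩

end Pool.Agent.H91.PH
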