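import Pool.Agent.H91.PH.Nil

/-!
Contractions with a prescribed part and a prescribed part of the adjoint.
-/

set_option autoImplicit false

open scoped InnerProductSpace

namespace Pool.Agent.H91.PH

section ext

variable {V K K' : Type*} [AddCommGroup V] [Module ℂ V] [NormedAddCommGroup K]
  [InnerProductSpace ℂ K] [CompleteSpace K] [NormedAddCommGroup K'] [NormedSpace ℂ K']
  [CompleteSpace K']

/-- If `‖f x‖ ≤ ‖e x‖` then `f = Z e` with a contraction `Z`. -/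
lemma exists_factor (e : V →ₗ[ℂ] K) (f : V →ₗ[ℂ] K') (h : ∀ x, ‖f x‖ ≤ ‖e x‖) :
    ∃ Z : K →L[ℂ] K', (∀ x, Z (e x) = f x) ∧ (∀ v, ‖Z v‖ ≤ ‖v‖) ∧
      (∀ v, (∀ x, ⟪e x, v⟫_ℂ = 0) → Z v = 0) ∧
      (∀ v, Z v ∈ closure (Set.range f)) := by
  set R : Submodule ℂ K := (LinearMap.range e).topologicalClosure with hR
  have hRc : IsClosed (R : Set K) := Submodule.isClosed_topologicalClosure _
  have : CompleteSpace R := hRc.completeSpace_coe
  have hmem : ∀ x, e x ∈ R := fun x => Submodule.le_topologicalClosure _ ⟨x, rfl⟩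
  let e' : V →ₗ[ℂ] R := e.codRestrict R hmem
  have hdense : DenseRange e' := by
    intro y
    rw [Metric.mem_closure_iff]
    intro ε hε
    have hy : (y : K) ∈ closure ((LinearMap.range e : Submodule ℂ K) : Set K) := y.2
    obtain ⟨z, ⟨x, rfl⟩, hz⟩ := Metric.mem_closure_iff.mp hy ε hε
    exact ⟨e' x, ⟨x, rfl⟩, hz⟩
  have hnorm : ∀ x, ‖f x‖ ≤ 1 * ‖e' x‖ := fun x => by
    rw [one_mul]
    exact h x
  let Z₀ : R →L[ℂ] K' := f.extendOfNorm e'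
  have hZ₀ : ∀ x, Z₀ (e' x) = f x := fun x => LinearMap.extendOfNorm_eq hdense ⟨1, hnorm⟩ x
  have hZ₀n : ∀ v, ‖Z₀ v‖ ≤ 1 * ‖v‖ := fun v =>
    LinearMap.norm_extendOfNorm_apply_le hdense 1 hnorm v
  refine ⟨Z₀.comp R.orthogonalProjectionOnto, ?_, ?_, ?_, ?_⟩
  · intro x
    have h1 : R.orthogonalProjectionOnto (e x) = e' x :=
      Submodule.orthogonalProjectionOnto_mem_subspace_eq_self (K := R) (e' x)
    change Z₀ (R.orthogonalProjectionOnto (e x)) = f x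
    rw [h1, hZ₀]
  · intro v
    change ‖Z₀ (R.orthogonalProjectionOnto v)‖ ≤ ‖v‖
    refine (hZ₀n _).trans ?_
    rw [one_mul]
    exact R.norm_orthogonalProjectionOnto_apply_le v
  · intro v hv
    have h1 : v ∈ Rᗮ := by
      rw [hR, Submodule.orthogonal_closure, Submodule.mem_orthogonal]
      rintro _ ⟨x, rfl⟩
      exact hv x
    change Z₀ (R.orthogonalProjectionOnto v) = 0
    rw [Submodule.orthogonalProjectionOnto_eq_zero_iff.mpr h1, map_zero]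
  · intro v
    change Z₀ (R.orthogonalProjectionOnto v) ∈ closure (Set.range f)
    generalize R.orthogonalProjectionOnto v = y
    refine hdense.induction_on (p := fun y => Z₀ y ∈ closure (Set.range f)) y
      (isClosed_closure.preimage Z₀.continuous) ?_
    intro x
    rw [hZ₀]
    exact subset_closure ⟨x, rfl⟩

end ext

variable {H : Type} [NormedAddCommGroup H] [InnerProductSpace ℂ H] [CompleteSpace H]

/-- The defect operator of a contraction. -/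
lemma exists_defect (B : H →L[ℂ] H) (hB : ∀ x, ‖B x‖ ≤ ‖x‖) :
    ∃ D : H →L[ℂ] H, ∀ x, ‖D x‖ ^ 2 = ‖x‖ ^ 2 - ‖B x‖ ^ 2 := by
  have hpos : 0 ≤ 1 - star B * B := by
    rw [ContinuousLinearMap.nonneg_iff_isPositive]
    refine ContinuousLinearMap.isPositive_iff_complex _ |>.mpr ?_
    intro x
    have h1 : ⟪(1 - star B * B) x, x⟫_ℂ = ((‖x‖ ^ 2 - ‖B x‖ ^ 2 : ℝ) : ℂ) := by
      have h2 : (1 - star B * B) x = x - (ContinuousLinearMap.adjoint B) (B x) := rfl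
      rw [h2, inner_sub_left, ContinuousLinearMap.adjoint_inner_left,
        inner_self_eq_norm_sq_to_K, inner_self_eq_norm_sq_to_K]
      push_cast
      rfl
    rw [h1]
    have h3 := hB x
    have h4 := norm_nonneg (B x)
    have : 0 ≤ ‖x‖ ^ 2 - ‖B x‖ ^ 2 := by nlinarith
    rw [RCLike.re_to_complex, Complex.ofReal_re]
    exact ⟨rfl, this⟩
  refine ⟨CFC.sqrt (1 - star B * B), ?_⟩
  intro x
  have hsa : IsSelfAdjoint (CFC.sqrt (1 - star B * B)) :=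
    IsSelfAdjoint.of_nonneg (CFC.sqrt_nonneg _)
  have hmul : CFC.sqrt (1 - star B * B) * CFC.sqrt (1 - star B * B) = 1 - star B * B :=
    CFC.sqrt_mul_sqrt_self _ hpos
  set D := CFC.sqrt (1 - star B * B) with hD
  have h1 : ((‖D x‖ ^ 2 : ℝ) : ℂ) = ((‖x‖ ^ 2 - ‖B x‖ ^ 2 : ℝ) : ℂ) := by
    have h2 : ⟪D x, D x⟫_ℂ = ⟪(1 - star B * B) x, x⟫_ℂ := by
      rw [← hmul]
      have h3 : (D * D) x = D (D x) := rfl
      rw [h3]
      have h4 : ⟪(ContinuousLinearMap.adjoint D) (D x), x⟫_ℂ = ⟪D x, D x⟫_ℂ :=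
        ContinuousLinearMap.adjoint_inner_left _ _ _
      rw [← h4]
      have h5 : ContinuousLinearMap.adjoint D = D := hsa
      rw [h5]
    have h6 : (1 - star B * B) x = x - (ContinuousLinearMap.adjoint B) (B x) := rfl
    rw [h6, inner_sub_left, ContinuousLinearMap.adjoint_inner_left,
      inner_self_eq_norm_sq_to_K, inner_self_eq_norm_sq_to_K, inner_self_eq_norm_sq_to_K] at h2
    push_cast
    exact h2
  exact_mod_cast h1

/-- Parrott's theorem in the form which is needed for the extension of dual pairs. -/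
theorem parrott {E : H →L[ℂ] H} (hE : E * E = E) (hE' : star E = E) {N P : Submodule ℂ H}
    (pos : ∀ p ∈ P, ‖(1 - E) p‖ ≤ ‖E p‖) (neg : ∀ y ∈ N, ‖E y‖ ≤ ‖(1 - E) y‖)
    (orth : ∀ p ∈ P, ∀ y ∈ N, ⟪(1 - E) p, (1 - E) y⟫_ℂ = ⟪E p, E y⟫_ℂ) :
    ∃ T : H →L[ℂ] H, (∀ x, ‖T x‖ ≤ ‖x‖) ∧ (∀ p ∈ P, T (E p) = (1 - E) p) ∧
      (∀ x, ∀ y ∈ N, ⟪T x, (1 - E) y⟫_ℂ = ⟪x, E y⟫_ℂ) ∧ (∀ x, E (T x) = 0) := by
  set F : H →L[ℂ] H := 1 - E with hF
  have hEF : ∀ x, E (F x) = 0 := by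
    intro x
    have h1 : E (F x) = E x - (E * E) x := by
      rw [hF]
      change E (x - E x) = E x - E (E x)
      rw [map_sub]
    rw [h1, hE, sub_self]
  have hEadj : ∀ x y, ⟪E x, y⟫_ℂ = ⟪x, E y⟫_ℂ := by
    intro x y
    have h1 : ⟪(ContinuousLinearMap.adjoint E) x, y⟫_ℂ = ⟪x, E y⟫_ℂ :=
      ContinuousLinearMap.adjoint_inner_left _ _ _
    have h2 : ContinuousLinearMap.adjoint E = E := hE'
    rwa [h2] at h1
  obtain ⟨Q, hQ1, hQ2, hQ3, -⟩ := exists_factor ((F : H →ₗ[ℂ] H) ∘ₗ N.subtype)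
    ((E : H →ₗ[ℂ] H) ∘ₗ N.subtype) (fun y => neg y y.2)
  have hQ1' : ∀ y ∈ N, Q (F y) = E y := fun y hy => hQ1 ⟨y, hy⟩
  have hQ3' : ∀ v, (∀ y ∈ N, ⟪F y, v⟫_ℂ = 0) → Q v = 0 := fun v hv => hQ3 v fun y => hv y y.2
  set B : H →L[ℂ] H := ContinuousLinearMap.adjoint Q with hB
  have hBadj : ∀ x v, ⟪B x, v⟫_ℂ = ⟪x, Q v⟫_ℂ := fun x v =>
    ContinuousLinearMap.adjoint_inner_left _ _ _
  have hBn : ∀ x, ‖B x‖ ≤ ‖x‖ := by
    intro x
    have h1 : ‖B‖ ≤ 1 := by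
      rw [hB, LinearIsometryEquiv.norm_map]
      exact ContinuousLinearMap.opNorm_le_bound _ zero_le_one fun v => by
        rw [one_mul]; exact hQ2 v
    calc ‖B x‖ ≤ ‖B‖ * ‖x‖ := B.le_opNorm x
      _ ≤ 1 * ‖x‖ := by gcongr
      _ = ‖x‖ := one_mul _
  have hB1 : ∀ x, ∀ y ∈ N, ⟪B x, F y⟫_ℂ = ⟪x, E y⟫_ℂ := fun x y hy => by
    rw [hBadj, hQ1' y hy]
  have hBE : ∀ x, E (B x) = 0 := by
    intro x
    rw [← inner_self_eq_zero (𝕜 := ℂ), hEadj, hBadj]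
    have h1 : Q (E (E (B x))) = 0 := by
      refine hQ3' _ fun y _ => ?_
      rw [← hEadj, hEF, inner_zero_left]
    rw [h1, inner_zero_right]
  have hfy : ∀ p ∈ P, ∀ y ∈ N, ⟪F p - B (E p), F y⟫_ℂ = 0 := by
    intro p hp y hy
    rw [inner_sub_left, orth p hp y hy, hB1 _ y hy, sub_self]
  have hBf : ∀ x, ∀ p ∈ P, ⟪B x, F p - B (E p)⟫_ℂ = 0 := by
    intro x p hp
    rw [hBadj, hQ3' _ fun y hy => inner_eq_zero_symm.mp (hfy p hp y hy), inner_zero_right]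
  obtain ⟨D, hD⟩ := exists_defect B hBn
  have hpyth : ∀ a b : H, ⟪a, b⟫_ℂ = 0 → ‖a + b‖ ^ 2 = ‖a‖ ^ 2 + ‖b‖ ^ 2 := by
    intro a b hab
    have := norm_add_sq_eq_norm_sq_add_norm_sq_of_inner_eq_zero a b hab
    nlinarith
  obtain ⟨Z, hZ1, hZ2, -, hZ4⟩ := exists_factor
    ((D : H →ₗ[ℂ] H) ∘ₗ (E : H →ₗ[ℂ] H) ∘ₗ P.subtype)
    (((F - B * E : H →L[ℂ] H) : H →ₗ[ℂ] H) ∘ₗ P.subtype) (by
      intro p
      change ‖F p - B (E p)‖ ≤ ‖D (E p)‖
      have h1 := hpyth _ _ (hBf (E p) p p.2)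
      rw [add_sub_cancel] at h1
      have h2 := hD (E p)
      have h3 := pos p p.2
      have h4 : ‖F p‖ ^ 2 ≤ ‖E p‖ ^ 2 := by
        have := norm_nonneg (F p)
        gcongr
      have h5 : ‖F p - B (E p)‖ ^ 2 ≤ ‖D (E p)‖ ^ 2 := by linarith
      exact le_of_pow_le_pow_left₀ two_ne_zero (norm_nonneg _) h5)
  have hZ1' : ∀ p ∈ P, Z (D (E p)) = F p - B (E p) := fun p hp => hZ1 ⟨p, hp⟩
  have hcl : ∀ (S : Set H), IsClosed S → (∀ p ∈ P, F p - B (E p) ∈ S) → ∀ v, Z v ∈ S := by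
    intro S hS hp v
    refine closure_minimal ?_ hS (hZ4 v)
    rintro _ ⟨p, rfl⟩
    exact hp p p.2
  have hBZ : ∀ x v, ⟪B x, Z v⟫_ℂ = 0 := by
    intro x v
    exact hcl {w | ⟪B x, w⟫_ℂ = 0} (isClosed_eq (by fun_prop) continuous_const)
      (fun p hp => hBf x p hp) v
  have hZy : ∀ v, ∀ y ∈ N, ⟪Z v, F y⟫_ℂ = 0 := by
    intro v y hy
    exact hcl {w | ⟪w, F y⟫_ℂ = 0} (isClosed_eq (by fun_prop) continuous_const)
      (fun p hp => hfy p hp y hy) v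
  have hEZ : ∀ v, E (Z v) = 0 := by
    intro v
    exact hcl {w | E w = 0} (isClosed_eq (by fun_prop) continuous_const)
      (fun p hp => by
        change E (F p - B (E p)) = 0
        rw [map_sub, hEF, hBE, sub_self]) v
  refine ⟨B + Z * D, ?_, ?_, ?_, ?_⟩
  · intro x
    change ‖B x + Z (D x)‖ ≤ ‖x‖
    have h1 := hpyth _ _ (hBZ x (D x))
    have h2 := hZ2 (D x)
    have h3 := hD x
    have h4 : ‖Z (D x)‖ ^ 2 ≤ ‖D x‖ ^ 2 := by
      have := norm_nonneg (Z (D x))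
      gcongr
    have h5 : ‖B x + Z (D x)‖ ^ 2 ≤ ‖x‖ ^ 2 := by linarith
    exact le_of_pow_le_pow_left₀ two_ne_zero (norm_nonneg _) h5
  · intro p hp
    change B (E p) + Z (D (E p)) = F p
    rw [hZ1' p hp, add_sub_cancel]
  · intro x y hy
    change ⟪B x + Z (D x), F y⟫_ℂ = _
    rw [inner_add_left, hB1 x y hy, hZy _ y hy, add_zero]
  · intro x
    change E (B x + Z (D x)) = 0
    rw [map_add, hBE, hEZ, add_zero]

end Pool.Agent.H91.PH
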