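import Pool.Agent.H91.PH.Term

/-!
A nonzero positive element of the algebra gives a nonzero semidefinite invariant subspace.
-/

set_option autoImplicit false

open scoped InnerProductSpace ComplexConjugate

namespace Pool.Agent.H91.PH

/-- The decomposition of a self-adjoint operator in its positive and negative part. -/
lemma exists_parts {K : Type} [NormedAddCommGroup K] [InnerProductSpace ℂ K] [CompleteSpace K]
    {t : K →L[ℂ] K} (ht : star t = t) :
    ∃ p n : K →L[ℂ] K, t = p - n ∧ p * n = 0 ∧ n * p = 0 ∧ star p = p ∧ star n = n ∧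
      (∀ u, 0 ≤ (⟪p u, u⟫_ℂ).re) ∧ (∀ u, 0 ≤ (⟪n u, u⟫_ℂ).re) ∧
      (∀ b : K →L[ℂ] K, t * b = b * t → p * b = b * p ∧ n * b = b * n) := by
  have hsa : IsSelfAdjoint t := ht
  have hp : ∀ s : K →L[ℂ] K, 0 ≤ s → ∀ u, 0 ≤ (⟪s u, u⟫_ℂ).re := by
    intro s hs u
    rw [ContinuousLinearMap.nonneg_iff_isPositive] at hs
    exact ((ContinuousLinearMap.isPositive_iff_complex _).mp hs u).2
  refine ⟨t⁺, t⁻, (CFC.posPart_sub_negPart t hsa).symm, CFC.posPart_mul_negPart t,
    CFC.negPart_mul_posPart t, ?_, ?_, hp _ (CFC.posPart_nonneg t), hp _ (CFC.negPart_nonneg t),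
    ?_⟩
  · exact IsSelfAdjoint.of_nonneg (CFC.posPart_nonneg t)
  · exact IsSelfAdjoint.of_nonneg (CFC.negPart_nonneg t)
  · intro b hb
    have hcm : Commute t b := hb
    exact ⟨(hcm.cfcₙ_real _).eq, (hcm.cfcₙ_real _).eq⟩

variable {H : Type} [NormedAddCommGroup H] [InnerProductSpace ℂ H] [CompleteSpace H]

/-- An algebra without nonzero semidefinite invariant subspaces does not contain a nonzero
positive operator. -/
theorem pos_zero {E : H →L[ℂ] H} (hE : E * E = E) (hE' : star E = E)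
    {A : Subalgebra ℂ (H →L[ℂ] H)} (hc : Comm A) (hA : Symm (Jm E) A)
    (hsemi : ∀ S : Submodule ℂ H, (∀ a ∈ A, ∀ v ∈ S, a v ∈ S) →
      ((∀ v ∈ S, 0 ≤ (fm (Jm E) v v).re) ∨ (∀ v ∈ S, (fm (Jm E) v v).re ≤ 0)) → S = ⊥)
    {q : H →L[ℂ] H} (hq : q ∈ A) (hqs : ∀ f g : H, fm (Jm E) (q f) g = fm (Jm E) f (q g))
    (hpos : ∀ v, 0 ≤ (fm (Jm E) (q v) v).re) : q = 0 := by
  have hG := herm_Jm hE hE'
  have hnd := nondeg_Jm hE hE'
  set J := Jm E with hJ
  set G : H →L[ℂ] H := J * q with hGdef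
  have hGf : ∀ f g, fm G f g = fm J (q f) g := fun f g => rfl
  have hGH : Herm G := by
    intro f g
    rw [hGf, hGf, hqs, hG]
  have hX : PosForm (fun f g : H => fm G f g) :=
    ⟨fun h h' g => fm_add_left h h' g, fun c h g => fm_smul_left c h g, fun h g => hGH h g,
      fun h => hpos h⟩
  obtain ⟨K, _, _, _, j₀, hj₀, hd₀⟩ := exists_completion hX
  have hre : ∀ h, ‖j₀ h‖ ^ 2 = (fm G h h).re := by
    intro h
    rw [← hj₀ h h, inner_self_eq_norm_sq_to_K]
    change _ = ((‖j₀ h‖ : ℂ) ^ 2).re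
    rw [← Complex.ofReal_pow, Complex.ofReal_re]
  let j : H →L[ℂ] K := j₀.mkContinuous (Real.sqrt ‖G‖) (fun h => by
    refine le_of_pow_le_pow_left₀ two_ne_zero (by positivity) ?_
    rw [hre, mul_pow, Real.sq_sqrt (norm_nonneg _)]
    calc (fm G h h).re ≤ ‖fm G h h‖ := Complex.re_le_norm _
      _ ≤ ‖G h‖ * ‖h‖ := norm_inner_le_norm _ _
      _ ≤ (‖G‖ * ‖h‖) * ‖h‖ := by gcongr; exact G.le_opNorm h
      _ = ‖G‖ * ‖h‖ ^ 2 := by ring)
  have hj : ∀ h g, ⟪j h, j g⟫_ℂ = fm J (q h) g := fun h g => hj₀ h g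
  have hdj : ∀ v : K, ∀ ε > 0, ∃ h ∈ (⊤ : Submodule ℂ H), ‖v - j₀ h‖ < ε := by
    intro v ε hε
    obtain ⟨z, hz1, h, rfl⟩ := Metric.dense_iff.mp hd₀ v ε hε
    refine ⟨h, Submodule.mem_top, ?_⟩
    rwa [Metric.mem_ball, dist_comm, dist_eq_norm] at hz1
  let jp : K →L[ℂ] H := J.comp (ContinuousLinearMap.adjoint j)
  have hjp : ∀ u h, fm J (jp u) h = ⟪u, j h⟫_ℂ := by
    intro u h
    change ⟪J (J ((ContinuousLinearMap.adjoint j) u)), h⟫_ℂ = _
    rw [Jm_apply_sq hE, ContinuousLinearMap.adjoint_inner_left]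
  have ext_fm : ∀ v w : H, (∀ h, fm J v h = fm J w h) → v = w := by
    intro v w h
    have h1 : v - w = 0 := hnd _ fun g => by
      apply hG.eq_zero
      rw [fm_sub_left, h, sub_self]
    exact sub_eq_zero.mp h1
  have hjq : ∀ h, jp (j h) = q h := fun h => ext_fm _ _ fun g => by rw [hjp, hj]
  -- the action of the algebra
  have hact : ∀ a ∈ A, ∃ b : K →L[ℂ] K, ∀ h, b (j h) = j (a h) := by
    intro a ha
    obtain ⟨a', ha', haa⟩ := hA a ha
    have hs : ∀ f g : H, fm G (a f) g = fm G f (a' g) := by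
      intro f g
      rw [hGf, hGf, hc.apply hq ha, haa]
    obtain ⟨b, hb, -⟩ := exists_bdd (M := (⊤ : Submodule ℂ H)) (x := j₀)
      (a := (a : H →ₗ[ℂ] H)) (norm_nonneg a) (fun h _ => by
        refine le_of_pow_le_pow_left₀ two_ne_zero (by positivity) ?_
        rw [mul_pow, hre, hre]
        exact lax_norm hE hE' hGH (N := ⊤) (fun v _ => hpos v) (fun _ _ => Submodule.mem_top)
          (fun _ _ => Submodule.mem_top) hs haa (Submodule.mem_top (x := h)))
    exact ⟨b, fun h => hb h Submodule.mem_top⟩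
  have hact_adj : ∀ a ∈ A, ∀ a' ∈ A, (∀ f g : H, fm J (a f) g = fm J f (a' g)) →
      ∀ b b' : K →L[ℂ] K, (∀ h, b (j h) = j (a h)) → (∀ h, b' (j h) = j (a' h)) →
      ∀ u v, ⟪b u, v⟫_ℂ = ⟪u, b' v⟫_ℂ := by
    intro a ha a' ha' haa b b' hb hb' u v
    refine dense_inner hdj (fun h _ g _ => ?_) u v
    change ⟪b (j h), j g⟫_ℂ = ⟪j h, b' (j g)⟫_ℂ
    rw [hb, hb', hj, hj, hc.apply hq ha, haa]
  have hjpa : ∀ a ∈ A, ∀ b : K →L[ℂ] K, (∀ h, b (j h) = j (a h)) → ∀ u, a (jp u) = jp (b u) := by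
    intro a ha b hb u
    obtain ⟨a', ha', haa⟩ := hA a ha
    obtain ⟨b', hb'⟩ := hact a' ha'
    refine ext_fm _ _ fun h => ?_
    rw [haa, hjp, hjp, ← hb', hact_adj a ha a' ha' haa b b' hb hb']
  let t : K →L[ℂ] K := j.comp jp
  have ht : star t = t := by
    refine ext_of_inner fun u v => ?_
    rw [adj_left]
    change ⟪u, j (jp v)⟫_ℂ = ⟪j (jp u), v⟫_ℂ
    have h1 : ⟪j (jp u), v⟫_ℂ = ⟪jp u, (ContinuousLinearMap.adjoint j) v⟫_ℂ :=
      (ContinuousLinearMap.adjoint_inner_right _ _ _).symm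
    rw [h1, ← hjp]
    change ⟪J (jp u), J ((ContinuousLinearMap.adjoint j) v)⟫_ℂ = _
    rw [← Jm_adj hE', Jm_apply_sq hE]
  have htc : ∀ a ∈ A, ∀ b : K →L[ℂ] K, (∀ h, b (j h) = j (a h)) → t * b = b * t := by
    intro a ha b hb
    ext u
    change j (jp (b u)) = b (j (jp u))
    rw [hb, ← hjpa a ha b hb]
  obtain ⟨p, n, htpn, hpn, hnp, hps, hns, hp0, hn0, hcomm⟩ := exists_parts ht
  -- the two semidefinite subspaces
  have main : ∀ s : K →L[ℂ] K, star s = s → (∀ a ∈ A, ∀ b : K →L[ℂ] K, (∀ h, b (j h) = j (a h)) →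
      s * b = b * s) → (t * s = s * s ∨ t * s = - (s * s)) → (∀ u, 0 ≤ (⟪s u, u⟫_ℂ).re) →
      s = 0 := by
    intro s hs hsc hts hs0
    let S : Submodule ℂ H := LinearMap.range ((jp.comp s : K →L[ℂ] H) : K →ₗ[ℂ] H)
    have hform : ∀ u, fm J (jp (s u)) (jp (s u)) = ⟪s u, (t * s) u⟫_ℂ := fun u => hjp _ _
    have hS : S = ⊥ := by
      refine hsemi S ?_ ?_
      · rintro a ha _ ⟨u, rfl⟩
        obtain ⟨b, hb⟩ := hact a ha
        refine ⟨b u, ?_⟩
        change jp (s (b u)) = a (jp (s u))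
        rw [hjpa a ha b hb]
        have h1 : s (b u) = b (s u) := by
          calc s (b u) = (s * b) u := rfl
            _ = (b * s) u := by rw [hsc a ha b hb]
            _ = b (s u) := rfl
        rw [h1]
      · rcases hts with h | h
        · left
          rintro _ ⟨u, rfl⟩
          change 0 ≤ (fm J (jp (s u)) (jp (s u))).re
          rw [hform, h]
          have h1 := hs0 (s u)
          rw [proj_adj hs] at h1
          exact h1
        · right
          rintro _ ⟨u, rfl⟩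
          change (fm J (jp (s u)) (jp (s u))).re ≤ 0
          rw [hform, h]
          have h1 := hs0 (s u)
          rw [proj_adj hs] at h1
          change (⟪s u, - (s (s u))⟫_ℂ).re ≤ 0
          rw [inner_neg_right, Complex.neg_re]
          linarith
    have h1 : ∀ u, jp (s u) = 0 := by
      intro u
      have h2 : jp (s u) ∈ S := ⟨u, rfl⟩
      rwa [hS, Submodule.mem_bot] at h2
    have h2 : t * s = 0 := by
      ext u
      change j (jp (s u)) = 0
      rw [h1, map_zero]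
    have h3 : s * s = 0 := by
      rcases hts with h | h
      · rw [← h, h2]
      · rw [h2] at h
        exact (neg_eq_zero.mp h.symm)
    ext u
    have h4 : ⟪s u, s u⟫_ℂ = 0 := by
      rw [proj_adj hs]
      change ⟪u, (s * s) u⟫_ℂ = 0
      rw [h3]
      exact inner_zero_right _
    exact inner_self_eq_zero.mp h4
  have hp : p = 0 := main p hps (fun a ha b hb => (hcomm b (htc a ha b hb)).1)
    (Or.inl (by rw [htpn, sub_mul, hnp, sub_zero])) hp0
  have hn : n = 0 := main n hns (fun a ha b hb => (hcomm b (htc a ha b hb)).2)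
    (Or.inr (by rw [htpn, sub_mul, hpn, zero_sub])) hn0
  have ht0 : t = 0 := by rw [htpn, hp, hn, sub_zero]
  have hqq : ∀ h, q (q h) = 0 := by
    intro h
    rw [← hjq (q h), ← hjq h]
    have h1 : j (jp (j h)) = 0 := by
      change t (j h) = 0
      rw [ht0]
      rfl
    rw [h1, map_zero]
  have hR : LinearMap.range (q : H →ₗ[ℂ] H) = ⊥ := by
    refine hsemi _ ?_ ?_
    · rintro a ha _ ⟨h, rfl⟩
      exact ⟨a h, hc.apply hq ha h⟩
    · left
      rintro _ ⟨h, rfl⟩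
      change 0 ≤ (fm J (q h) (q h)).re
      rw [← hqs, hqq, fm_zero_left, Complex.zero_re]
  ext h
  have h1 : q h ∈ LinearMap.range (q : H →ₗ[ℂ] H) := ⟨h, rfl⟩
  rw [hR, Submodule.mem_bot] at h1
  exact h1

end Pool.Agent.H91.PH
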