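import Pool.Agent.H91.PH.Main

/-!
The quotient of the orthogonal complement of a closed neutral subspace by the subspace, realised
as a subspace of the Hilbert space.
-/

set_option autoImplicit false

open scoped InnerProductSpace ComplexConjugate
open Filter

namespace Pool.Agent.H91.PH

variable {H : Type} [NormedAddCommGroup H] [InnerProductSpace ℂ H] [CompleteSpace H]

/-- The orthogonal complement of `D + J D` in the Hilbert space. -/
noncomputable def qsp (E : H →L[ℂ] H) (D : Submodule ℂ H) : Submodule ℂ H :=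
  (D ⊔ D.map ((Jm E : H →L[ℂ] H) : H →ₗ[ℂ] H))ᗮ

lemma mem_qsp {E : H →L[ℂ] H} {D : Submodule ℂ H} {x : H} :
    x ∈ qsp E D ↔ (∀ d ∈ D, ⟪d, x⟫_ℂ = 0) ∧ (∀ d ∈ D, ⟪Jm E d, x⟫_ℂ = 0) := by
  unfold qsp
  rw [Submodule.mem_orthogonal]
  constructor
  · intro h
    exact ⟨fun d hd => h d (Submodule.mem_sup_left hd),
      fun d hd => h _ (Submodule.mem_sup_right ⟨d, hd, rfl⟩)⟩
  · rintro ⟨h1, h2⟩ u hu
    obtain ⟨d, hd, _, ⟨d', hd', rfl⟩, rfl⟩ := Submodule.mem_sup.mp hu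
    rw [inner_add_left, h1 d hd]
    rw [zero_add]
    exact h2 d' hd'

instance (E : H →L[ℂ] H) (D : Submodule ℂ H) : CompleteSpace (qsp E D) := by
  unfold qsp
  infer_instance

lemma Jm_apply_sq {E : H →L[ℂ] H} (hE : E * E = E) (x : H) : Jm E (Jm E x) = x := by
  calc Jm E (Jm E x) = (Jm E * Jm E) x := rfl
    _ = x := by rw [Jm_sq hE]; rfl

lemma Jm_adj {E : H →L[ℂ] H} (hE' : star E = E) (x y : H) : ⟪Jm E x, y⟫_ℂ = ⟪x, Jm E y⟫_ℂ :=
  proj_adj (Jm_star hE') x y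

lemma qsp_J {E : H →L[ℂ] H} (hE : E * E = E) (hE' : star E = E) {D : Submodule ℂ H} {x : H}
    (hx : x ∈ qsp E D) : Jm E x ∈ qsp E D := by
  rw [mem_qsp] at hx ⊢
  refine ⟨fun d hd => ?_, fun d hd => ?_⟩
  · rw [← Jm_adj hE']; exact hx.2 d hd
  · rw [← Jm_adj hE', Jm_apply_sq hE]; exact hx.1 d hd

lemma E_eq (E : H →L[ℂ] H) (x : H) : E x = (1 / 2 : ℂ) • (x + Jm E x) := by
  have h1 : Jm E x = E x - (x - E x) := rfl
  rw [h1]
  module

lemma qsp_E {E : H →L[ℂ] H} (hE : E * E = E) (hE' : star E = E) {D : Submodule ℂ H} {x : H}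
    (hx : x ∈ qsp E D) : E x ∈ qsp E D := by
  rw [E_eq]
  exact Submodule.smul_mem _ _ (Submodule.add_mem _ hx (qsp_J hE hE' hx))

/-- The projection on the quotient space. -/
noncomputable def qE (E : H →L[ℂ] H) (D : Submodule ℂ H) : qsp E D →L[ℂ] qsp E D :=
  (qsp E D).orthogonalProjectionOnto.comp (E.comp (qsp E D).subtypeL)

lemma qE_apply {E : H →L[ℂ] H} (hE : E * E = E) (hE' : star E = E) {D : Submodule ℂ H}
    (x : qsp E D) : ((qE E D x : qsp E D) : H) = E x := by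
  change (((qsp E D).orthogonalProjectionOnto (E x) : qsp E D) : H) = E x
  exact congrArg Subtype.val
    (Submodule.orthogonalProjectionOnto_mem_subspace_eq_self (K := qsp E D) ⟨E x, qsp_E hE hE' x.2⟩)

lemma qE_idem {E : H →L[ℂ] H} (hE : E * E = E) (hE' : star E = E) (D : Submodule ℂ H) :
    qE E D * qE E D = qE E D := by
  ext x
  change ((qE E D (qE E D x) : qsp E D) : H) = (qE E D x : qsp E D)
  rw [qE_apply hE hE', qE_apply hE hE', idem_apply hE]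

lemma qE_star {E : H →L[ℂ] H} (hE : E * E = E) (hE' : star E = E) (D : Submodule ℂ H) :
    star (qE E D) = qE E D := by
  refine ext_of_inner fun x y => ?_
  rw [adj_left, Submodule.coe_inner, Submodule.coe_inner, qE_apply hE hE', qE_apply hE hE',
    proj_adj hE']

lemma fm_q {E : H →L[ℂ] H} (hE : E * E = E) (hE' : star E = E) {D : Submodule ℂ H}
    (x y : qsp E D) : fm (Jm (qE E D)) x y = fm (Jm E) (x : H) y := by
  rw [fm_Jm, fm_Jm]
  change ⟪qE E D x, y⟫_ℂ - ⟪x - qE E D x, y⟫_ℂ = ⟪E x, (y : H)⟫_ℂ - ⟪(x : H) - E x, (y : H)⟫_ℂ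
  rw [Submodule.coe_inner, Submodule.coe_inner, Submodule.coe_sub, qE_apply hE hE']

/-- `D` is orthogonal to the quotient space for the form. -/
lemma fm_D_q {E : H →L[ℂ] H} {D : Submodule ℂ H} {d x : H} (hd : d ∈ D) (hx : x ∈ qsp E D) :
    fm (Jm E) d x = 0 := (mem_qsp.mp hx).2 d hd

lemma qsp_le_perp {E : H →L[ℂ] H} {D : Submodule ℂ H} : qsp E D ≤ perp (Jm E) D :=
  fun _ hx _ hy => fm_D_q hy hx

/-- The orthogonal complement of `D` is the sum of `D` and the quotient space. -/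
lemma exists_decomp {E : H →L[ℂ] H} (hE : E * E = E) (hE' : star E = E) {D : Submodule ℂ H}
    (hD : IsClosed (D : Set H)) (hD0 : ∀ x ∈ D, ∀ y ∈ D, fm (Jm E) x y = 0) {x : H}
    (hx : x ∈ perp (Jm E) D) : ∃ d ∈ D, ∃ k ∈ qsp E D, x = d + k := by
  have : CompleteSpace D := hD.completeSpace_coe
  refine ⟨D.starProjection x, D.starProjection_apply_mem x, x - D.starProjection x, ?_, by abel⟩
  rw [mem_qsp]
  refine ⟨fun d hd => ?_, fun d hd => ?_⟩
  · exact (D.mem_orthogonal _).mp (D.sub_starProjection_mem_orthogonal x) d hd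
  · rw [inner_sub_right]
    have h1 : ⟪Jm E d, x⟫_ℂ = 0 := hx d hd
    have h2 : ⟪Jm E d, D.starProjection x⟫_ℂ = 0 := hD0 d hd _ (D.starProjection_apply_mem x)
    rw [h1, h2, sub_zero]

/-- The compression of an operator to the quotient space. -/
noncomputable def qop (E : H →L[ℂ] H) (D : Submodule ℂ H) (a : H →L[ℂ] H) :
    qsp E D →L[ℂ] qsp E D :=
  (qsp E D).orthogonalProjectionOnto.comp (a.comp (qsp E D).subtypeL)

lemma proj_D {E : H →L[ℂ] H} {D : Submodule ℂ H} {d : H} (hd : d ∈ D) :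
    (qsp E D).orthogonalProjectionOnto d = 0 := by
  rw [Submodule.orthogonalProjectionOnto_eq_zero_iff, Submodule.mem_orthogonal]
  intro u hu
  rw [← inner_conj_symm, (mem_qsp.mp hu).1 d hd, map_zero]

lemma qop_spec {E : H →L[ℂ] H} (hE : E * E = E) (hE' : star E = E) {D : Submodule ℂ H}
    (hD : IsClosed (D : Set H)) (hD0 : ∀ x ∈ D, ∀ y ∈ D, fm (Jm E) x y = 0) {a : H →L[ℂ] H}
    (ha : ∀ x ∈ perp (Jm E) D, a x ∈ perp (Jm E) D) (x : qsp E D) :
    a x - (qop E D a x : qsp E D) ∈ D := by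
  obtain ⟨d, hd, k, hk, h⟩ := exists_decomp hE hE' hD hD0 (ha x (qsp_le_perp x.2))
  have h1 : qop E D a x = ⟨k, hk⟩ := by
    change (qsp E D).orthogonalProjectionOnto (a x) = ⟨k, hk⟩
    rw [h, map_add, proj_D hd, zero_add]
    exact Submodule.orthogonalProjectionOnto_mem_subspace_eq_self (K := qsp E D) ⟨k, hk⟩
  rw [h1, h]
  change d + k - k ∈ D
  rw [add_sub_cancel_right]
  exact hd

lemma qop_mul {E : H →L[ℂ] H} (hE : E * E = E) (hE' : star E = E) {D : Submodule ℂ H}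
    (hD : IsClosed (D : Set H)) (hD0 : ∀ x ∈ D, ∀ y ∈ D, fm (Jm E) x y = 0) {a b : H →L[ℂ] H}
    (ha : ∀ x ∈ D, a x ∈ D) (hb : ∀ x ∈ perp (Jm E) D, b x ∈ perp (Jm E) D) :
    qop E D (a * b) = qop E D a * qop E D b := by
  ext x
  congr 1
  change (qsp E D).orthogonalProjectionOnto (a (b x)) =
    (qsp E D).orthogonalProjectionOnto (a (qop E D b x : qsp E D))
  have h1 := qop_spec hE hE' hD hD0 hb x
  have h2 := ha _ h1
  rw [map_sub] at h2
  have h3 := proj_D (E := E) h2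
  rw [map_sub, sub_eq_zero] at h3
  exact h3

lemma qop_one (E : H →L[ℂ] H) (D : Submodule ℂ H) : qop E D 1 = 1 := by
  ext x
  congr 1
  change (qsp E D).orthogonalProjectionOnto (x : H) = x
  exact Submodule.orthogonalProjectionOnto_mem_subspace_eq_self (K := qsp E D) x

/-- The norm of a compression modulo operators which map the quotient space to `D`. -/
lemma qop_norm {E : H →L[ℂ] H} {D : Submodule ℂ H} {a r : H →L[ℂ] H} {C : ℝ}
    (hr : ∀ x ∈ perp (Jm E) D, r x ∈ D) (hC : ‖a + r‖ ≤ C) (x : qsp E D) :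
    ‖qop E D a x‖ ≤ C * ‖x‖ := by
  have h1 : qop E D a x = (qsp E D).orthogonalProjectionOnto ((a + r) x) := by
    change (qsp E D).orthogonalProjectionOnto (a x) =
      (qsp E D).orthogonalProjectionOnto (a x + r x)
    rw [map_add, proj_D (hr _ (qsp_le_perp x.2)), add_zero]
  rw [h1]
  calc ‖(qsp E D).orthogonalProjectionOnto ((a + r) x)‖ ≤ ‖(a + r) (x : H)‖ :=
        (qsp E D).norm_orthogonalProjectionOnto_apply_le _
    _ ≤ ‖a + r‖ * ‖(x : H)‖ := ContinuousLinearMap.le_opNorm _ _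
    _ ≤ C * ‖x‖ := mul_le_mul_of_nonneg_right hC (norm_nonneg _)

/-- The form of a compression. -/
lemma fm_qop {E : H →L[ℂ] H} (hE : E * E = E) (hE' : star E = E) {D : Submodule ℂ H}
    (hD : IsClosed (D : Set H)) (hD0 : ∀ x ∈ D, ∀ y ∈ D, fm (Jm E) x y = 0) {a : H →L[ℂ] H}
    (ha : ∀ x ∈ perp (Jm E) D, a x ∈ perp (Jm E) D) (x y : qsp E D) :
    fm (Jm (qE E D)) (qop E D a x) y = fm (Jm E) (a x) (y : H) := by
  rw [fm_q hE hE']
  have h1 := qop_spec hE hE' hD hD0 ha x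
  have h2 := fm_D_q h1 y.2
  rw [fm_sub_left, sub_eq_zero] at h2
  exact h2.symm

/-- A maximal dual pair of the quotient space gives a maximal dual pair. -/
theorem lift_pair {E : H →L[ℂ] H} (hE : E * E = E) (hE' : star E = E) {D : Submodule ℂ H}
    (hD : IsClosed (D : Set H)) (hD0 : ∀ x ∈ D, ∀ y ∈ D, fm (Jm E) x y = 0)
    {N₂ P₂ : Submodule ℂ (qsp E D)} (pos : ∀ x ∈ P₂, 0 ≤ (fm (Jm (qE E D)) x x).re)
    (neg : ∀ y ∈ N₂, (fm (Jm (qE E D)) y y).re ≤ 0)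
    (hN : ∀ y, y ∈ N₂ ↔ ∀ x ∈ P₂, fm (Jm (qE E D)) x y = 0)
    (hP : ∀ x, x ∈ P₂ ↔ ∀ y ∈ N₂, fm (Jm (qE E D)) x y = 0) :
    (∀ x ∈ D ⊔ P₂.map (qsp E D).subtype, 0 ≤ (fm (Jm E) x x).re) ∧
    (∀ y ∈ D ⊔ N₂.map (qsp E D).subtype, (fm (Jm E) y y).re ≤ 0) ∧
    (∀ y, y ∈ D ⊔ N₂.map (qsp E D).subtype ↔
      ∀ x ∈ D ⊔ P₂.map (qsp E D).subtype, fm (Jm E) x y = 0) ∧
    (∀ x, x ∈ D ⊔ P₂.map (qsp E D).subtype ↔
      ∀ y ∈ D ⊔ N₂.map (qsp E D).subtype, fm (Jm E) x y = 0) := by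
  have hG := herm_Jm hE hE'
  have key : ∀ d ∈ D, ∀ d' ∈ D, ∀ k k' : qsp E D,
      fm (Jm E) (d + k) (d' + k') = fm (Jm (qE E D)) k k' := by
    intro d hd d' hd' k k'
    rw [fm_add_left, fm_add_right, fm_add_right, hD0 d hd d' hd', fm_D_q hd k'.2,
      hG.eq_zero (fm_D_q hd' k.2), fm_q hE hE']
    ring
  have hmem : ∀ (S : Submodule ℂ (qsp E D)) (x : H), x ∈ D ⊔ S.map (qsp E D).subtype ↔
      ∃ d ∈ D, ∃ k ∈ S, x = d + (k : H) := by
    intro S x
    rw [Submodule.mem_sup]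
    constructor
    · rintro ⟨d, hd, _, ⟨k, hk, rfl⟩, rfl⟩
      exact ⟨d, hd, k, hk, rfl⟩
    · rintro ⟨d, hd, k, hk, rfl⟩
      exact ⟨d, hd, _, ⟨k, hk, rfl⟩, rfl⟩
  refine ⟨?_, ?_, ?_, ?_⟩
  · intro x hx
    obtain ⟨d, hd, k, hk, rfl⟩ := (hmem _ _).mp hx
    rw [key d hd d hd]
    exact pos k hk
  · intro x hx
    obtain ⟨d, hd, k, hk, rfl⟩ := (hmem _ _).mp hx
    rw [key d hd d hd]
    exact neg k hk
  · intro y
    constructor
    · intro hy x hx
      obtain ⟨d, hd, k, hk, rfl⟩ := (hmem _ _).mp hy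
      obtain ⟨d', hd', k', hk', rfl⟩ := (hmem _ _).mp hx
      rw [key d' hd' d hd]
      exact (hN k).mp hk k' hk'
    · intro h
      obtain ⟨d, hd, k, hk, rfl⟩ := exists_decomp hE hE' hD hD0 (x := y)
        (fun d hd => h d (Submodule.mem_sup_left hd))
      refine (hmem _ _).mpr ⟨d, hd, ⟨k, hk⟩, (hN _).mpr fun p hp => ?_, rfl⟩
      have h1 := h (0 + (p : H)) ((hmem _ _).mpr ⟨0, D.zero_mem, p, hp, rfl⟩)
      rwa [key 0 D.zero_mem d hd p ⟨k, hk⟩] at h1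
  · intro x
    constructor
    · intro hx y hy
      obtain ⟨d, hd, k, hk, rfl⟩ := (hmem _ _).mp hx
      obtain ⟨d', hd', k', hk', rfl⟩ := (hmem _ _).mp hy
      rw [key d hd d' hd']
      exact (hP k).mp hk k' hk'
    · intro h
      obtain ⟨d, hd, k, hk, rfl⟩ := exists_decomp hE hE' hD hD0 (x := x)
        (fun d hd => hG.eq_zero (h d (Submodule.mem_sup_left hd)))
      refine (hmem _ _).mpr ⟨d, hd, ⟨k, hk⟩, (hP _).mpr fun p hp => ?_, rfl⟩
      have h1 := h (0 + (p : H)) ((hmem _ _).mpr ⟨0, D.zero_mem, p, hp, rfl⟩)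
      rwa [key d hd 0 D.zero_mem ⟨k, hk⟩ p] at h1

end Pool.Agent.H91.PH
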