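import Pool.Agent.H91.PH.Group

/-!
The radical of a commutative symmetric algebra and maximal invariant dual pairs.
-/

set_option autoImplicit false

open scoped InnerProductSpace ComplexConjugate

namespace Pool.Agent.H91.PH

/-- `R` is an ideal of `A` which contains `c` whenever it contains `c' c`, where `c'` is the adjoint
of `c` with respect to the form, and which is closed in `A`: it contains `a` if `a x` is a limit of
elements `r x`, `r` in `R`, for every `x`. -/
structure IsRad {H : Type} [NormedAddCommGroup H] [InnerProductSpace ℂ H] (G : H →L[ℂ] H)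
    (A : Subalgebra ℂ (H →L[ℂ] H)) (R : Set (H →L[ℂ] H)) : Prop where
  zero : 0 ∈ R
  add : ∀ a ∈ R, ∀ b ∈ R, a + b ∈ R
  mul : ∀ a ∈ A, ∀ b ∈ R, a * b ∈ R
  root : ∀ c ∈ A, ∀ c' ∈ A, (∀ f g : H, fm G (c f) g = fm G f (c' g)) → c' * c ∈ R → c ∈ R
  lim : ∀ a ∈ A, (∀ x : H, a x ∈ closure {y | ∃ r ∈ R, y = r x}) → a ∈ R

/-- The radical is the smallest ideal of this kind. -/
def Rad {H : Type} [NormedAddCommGroup H] [InnerProductSpace ℂ H] (G : H →L[ℂ] H)
    (A : Subalgebra ℂ (H →L[ℂ] H)) (a : H →L[ℂ] H) : Prop :=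
  ∀ R : Set (H →L[ℂ] H), IsRad G A R → a ∈ R

variable {H : Type} [NormedAddCommGroup H] [InnerProductSpace ℂ H] {G : H →L[ℂ] H}
  {A : Subalgebra ℂ (H →L[ℂ] H)} {N P : Submodule ℂ H}

lemma MaxDual.root_main (hG : Herm G) (hA : Symm G A) (hc : Comm A) (h : MaxDual G A N P)
    {c c' : H →L[ℂ] H} (hcA : c ∈ A) (hcA' : c' ∈ A)
    (hs : ∀ f g : H, fm G (c f) g = fm G f (c' g))
    (hcc : ∀ x ∈ perp G (N ⊓ P), c' (c x) ∈ N ⊓ P) : ∀ x ∈ perp G (N ⊓ P), c x ∈ N ⊓ P := by
  have hs' := adj_symm hG hs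
  have hcc' : ∀ x, c (c' x) = c' (c x) := fun x => hc.apply hcA hcA' x
  have hN : ∀ n ∈ N, c' n ∈ N ⊓ P := by
    intro n hn
    have hz : c' n ∈ N := h.invN _ hcA' _ hn
    refine h.iso_N hG hA hz fun y hy => ?_
    have h0 : fm G (c' n) (c' n) = 0 := by
      rw [← hs, hcc']
      exact h.orth _ (hcc n (h.le_perp_N hn)).2 n hn
    have hneg : ∀ y ∈ N, 0 ≤ (fm (-G) y y).re := fun y hy => by
      rw [fm_neg, Complex.neg_re]; linarith [h.neg y hy]
    have h1 := neutral_orth hG.neg hneg hz (by rw [fm_neg, h0, neg_zero]) hy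
    rw [fm_neg, neg_eq_zero] at h1
    exact hG.eq_zero h1
  have hP : ∀ p ∈ P, c' p ∈ N ⊓ P := by
    intro p hp
    have hz : c' p ∈ P := h.invP _ hcA' _ hp
    refine h.iso_P hG hA hz fun y hy => ?_
    have h0 : fm G (c' p) (c' p) = 0 := by
      rw [← hs, hcc']
      exact hG.eq_zero (h.orth p hp _ (hcc p (h.le_perp_P hG hp)).1)
    exact hG.eq_zero (neutral_orth hG h.pos hz h0 hy)
  have hD := h.neutral_le hG (D := (perp G (N ⊓ P)).map (c : H →ₗ[ℂ] H))
    (by
      rintro _ ⟨u, hu, rfl⟩ _ ⟨v, hv, rfl⟩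
      change fm G (c u) (c v) = 0
      rw [hs]
      exact hG.eq_zero (hu _ (hcc v hv)))
    (by
      rintro _ ⟨u, hu, rfl⟩ y hy
      change fm G y (c u) = 0
      rw [hs']
      exact hu _ (hN y hy))
    (by
      rintro _ ⟨u, hu, rfl⟩ y hy
      change fm G y (c u) = 0
      rw [hs']
      exact hu _ (hP y hy))
    (by
      rintro b hb _ ⟨u, hu, rfl⟩
      exact ⟨b u, perp_inv hG hA h.inf_inv b hb u hu, hc.apply hcA hb u⟩)
  intro x hx
  exact ⟨hD.1 ⟨x, hx, rfl⟩, hD.2 ⟨x, hx, rfl⟩⟩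

lemma MaxDual.isClosed_inf (h : MaxDual G A N P) : IsClosed ((N ⊓ P : Submodule ℂ H) : Set H) :=
  h.isClosed_N.inter h.isClosed_P

/-- The elements which map the orthogonal complement of `D = N ∩ P` to `D` form an ideal as in
the definition of the radical. -/
lemma MaxDual.isRad (hG : Herm G) (hA : Symm G A) (hc : Comm A) (h : MaxDual G A N P) :
    IsRad G A {a | ∀ x ∈ perp G (N ⊓ P), a x ∈ N ⊓ P} where
  zero := fun _ _ => Submodule.zero_mem _
  add := fun _ ha _ hb x hx => Submodule.add_mem _ (ha x hx) (hb x hx)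
  mul := fun a ha _ hb x hx => h.inf_inv a ha _ (hb x hx)
  root := fun _ hc1 _ hc2 hs ih => h.root_main hG hA hc hc1 hc2 hs ih
  lim := by
    intro a _ hlim x hx
    refine closure_minimal ?_ h.isClosed_inf (hlim x)
    rintro y ⟨r, hr, rfl⟩
    exact hr x hx

/-- The radical maps the orthogonal complement of `D = N ∩ P` to `D`. -/
theorem MaxDual.rad_main (hG : Herm G) (hA : Symm G A) (hc : Comm A) (h : MaxDual G A N P)
    {a : H →L[ℂ] H} (ha : Rad G A a) : ∀ x ∈ perp G (N ⊓ P), a x ∈ N ⊓ P :=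
  ha _ (h.isRad hG hA hc)

lemma isRad_rad (G : H →L[ℂ] H) (A : Subalgebra ℂ (H →L[ℂ] H)) : IsRad G A {a | Rad G A a} where
  zero := fun _ hR => hR.zero
  add := fun a ha b hb R hR => hR.add a (ha R hR) b (hb R hR)
  mul := fun a ha b hb R hR => hR.mul a ha b (hb R hR)
  root := fun c hc c' hc' hs h R hR => hR.root c hc c' hc' hs (h R hR)
  lim := fun a ha h R hR => hR.lim a ha fun x => by
    refine closure_mono ?_ (h x)
    rintro y ⟨r, hr, rfl⟩
    exact ⟨r, hr R hR, rfl⟩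

/-- Nilpotent self-adjoint elements are in the radical. -/
lemma rad_of_sa_nilpotent {s : H →L[ℂ] H} (hs : s ∈ A)
    (hsa : ∀ f g : H, fm G (s f) g = fm G f (s g)) (hn : IsNilpotent s) : Rad G A s := by
  obtain ⟨m, hm⟩ := hn
  have h1 : ∀ k : ℕ, Rad G A (s ^ (2 ^ k)) → Rad G A s := by
    intro k
    induction k with
    | zero => intro h; simpa using h
    | succ k ih =>
      intro h
      refine ih ((isRad_rad G A).root _ (A.pow_mem hs _) _ (A.pow_mem hs _) (pow_sa hsa _) ?_)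
      rw [← pow_add, ← two_mul, ← pow_succ']
      exact h
  refine h1 m ?_
  have h2 : m ≤ 2 ^ m := Nat.lt_two_pow_self.le
  have h3 : s ^ (2 ^ m) = 0 := by
    obtain ⟨j, hj⟩ := Nat.exists_eq_add_of_le h2
    rw [hj, pow_add, hm, zero_mul]
  rw [h3]
  exact (isRad_rad G A).zero

/-- Nilpotent elements are in the radical. -/
lemma rad_of_nilpotent (hG : Herm G) (hA : Symm G A) (hc : Comm A) {a : H →L[ℂ] H} (ha : a ∈ A)
    (hn : IsNilpotent a) : Rad G A a := by
  obtain ⟨b, hb, hab⟩ := hA a ha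
  have hba := adj_symm hG hab
  refine (isRad_rad G A).root a ha b hb hab (rad_of_sa_nilpotent (A.mul_mem hb ha) ?_ ?_)
  · intro f g
    change fm G (b (a f)) g = fm G f (b (a g))
    rw [← hba, ← hab]
  · have hcomm : Commute b a := hc b hb a ha
    exact hcomm.isNilpotent_mul_left hn

end Pool.Agent.H91.PH
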