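import Pool.Agent.H91.PH.Pos
import Pool.Agent.H91.PH.Fin

/-!
The extension problem for invariant dual pairs is equivalent to the existence of one nonzero
semidefinite invariant subspace.
-/

set_option autoImplicit false

open scoped InnerProductSpace ComplexConjugate

namespace Pool.Agent.H91.PH

variable {H : Type} [NormedAddCommGroup H] [InnerProductSpace ℂ H]

/-- `S` is invariant and semidefinite. -/
def SemiInv (G : H →L[ℂ] H) (A : Subalgebra ℂ (H →L[ℂ] H)) (S : Submodule ℂ H) : Prop :=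
  (∀ a ∈ A, ∀ v ∈ S, a v ∈ S) ∧
    ((∀ v ∈ S, 0 ≤ (fm G v v).re) ∨ (∀ v ∈ S, (fm G v v).re ≤ 0))

/-- There are maximal commutative symmetric algebras. -/
theorem exists_maxAlg {G : H →L[ℂ] H} {A : Subalgebra ℂ (H →L[ℂ] H)} (hc : Comm A)
    (hA : Symm G A) :
    ∃ B : Subalgebra ℂ (H →L[ℂ] H), A ≤ B ∧ Comm B ∧ Symm G B ∧
      ∀ B' : Subalgebra ℂ (H →L[ℂ] H), B ≤ B' → Comm B' → Symm G B' → B' ≤ B := by
  have hz := zorn_le_nonempty₀ {B : Subalgebra ℂ (H →L[ℂ] H) | A ≤ B ∧ Comm B ∧ Symm G B}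
    (fun c hcs hch B₀ hB₀ => by
      have hdir : ∀ B ∈ c, ∀ B' ∈ c, ∃ B'' ∈ c, B ≤ B'' ∧ B' ≤ B'' := by
        intro B hB B' hB'
        rcases hch.total hB hB' with h | h
        · exact ⟨B', hB', h, le_rfl⟩
        · exact ⟨B, hB, le_rfl, h⟩
      let U : Subalgebra ℂ (H →L[ℂ] H) :=
        { carrier := {b | ∃ B ∈ c, b ∈ B}
          mul_mem' := by
            rintro a b ⟨B, hB, ha⟩ ⟨B', hB', hb⟩
            obtain ⟨B'', h, h1, h2⟩ := hdir B hB B' hB'
            exact ⟨B'', h, B''.mul_mem (h1 ha) (h2 hb)⟩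
          add_mem' := by
            rintro a b ⟨B, hB, ha⟩ ⟨B', hB', hb⟩
            obtain ⟨B'', h, h1, h2⟩ := hdir B hB B' hB'
            exact ⟨B'', h, B''.add_mem (h1 ha) (h2 hb)⟩
          algebraMap_mem' := fun r => ⟨B₀, hB₀, B₀.algebraMap_mem r⟩ }
      have hle : ∀ B ∈ c, B ≤ U := fun B hB b hb => ⟨B, hB, hb⟩
      refine ⟨U, ⟨(hcs hB₀).1.trans (hle B₀ hB₀), ?_, ?_⟩, hle⟩
      · rintro a ⟨B, hB, ha⟩ b ⟨B', hB', hb⟩
        obtain ⟨B'', h, h1, h2⟩ := hdir B hB B' hB'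
        exact (hcs h).2.1 a (h1 ha) b (h2 hb)
      · rintro a ⟨B, hB, ha⟩
        obtain ⟨a', ha', haa⟩ := (hcs hB).2.2 a ha
        exact ⟨a', ⟨B, hB, ha'⟩, haa⟩) A ⟨le_rfl, hc, hA⟩
  obtain ⟨B, hAB, hB⟩ := hz
  refine ⟨B, hAB, hB.prop.2.1, hB.prop.2.2, fun B' h1 h2 h3 => ?_⟩
  exact hB.le_of_ge ⟨hAB.trans h1, h2, h3⟩ h1

/-- A maximal commutative symmetric algebra contains every self-adjoint operator which commutes
with it. -/
lemma max_sa {G : H →L[ℂ] H} {B : Subalgebra ℂ (H →L[ℂ] H)} (hc : Comm B)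
    (hB : Symm G B) (hmax : ∀ B' : Subalgebra ℂ (H →L[ℂ] H), B ≤ B' → Comm B' → Symm G B' → B' ≤ B)
    {s : H →L[ℂ] H} (hs : ∀ f g : H, fm G (s f) g = fm G f (s g)) (hsB : ∀ b ∈ B, b * s = s * b) :
    s ∈ B := by
  set S : Set (H →L[ℂ] H) := (B : Set (H →L[ℂ] H)) ∪ {s} with hS
  have hcomm : ∀ x ∈ S, ∀ y ∈ S, x * y = y * x := by
    rintro x (hx | hx) y (hy | hy)
    · exact hc x hx y hy
    · rw [Set.mem_singleton_iff] at hy
      rw [hy]
      exact hsB x hx
    · rw [Set.mem_singleton_iff] at hx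
      rw [hx]
      exact (hsB y hy).symm
    · rw [Set.mem_singleton_iff] at hx hy
      rw [hx, hy]
  have h1 : Comm (Algebra.adjoin ℂ S) := by
    intro x hx y hy
    have h2 := Algebra.commute_of_mem_adjoin_of_forall_mem_commute hy (a := x) (fun z hz => by
      have h3 := Algebra.commute_of_mem_adjoin_of_forall_mem_commute hx (a := z)
        (fun w hw => hcomm z hz w hw)
      exact h3.symm)
    exact h2.eq
  have h2 : Symm G (Algebra.adjoin ℂ S) := by
    intro x hx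
    induction hx using Algebra.adjoin_induction with
    | mem x hx =>
      rcases hx with hx | hx
      · obtain ⟨x', hx', hxx⟩ := hB x hx
        exact ⟨x', Algebra.subset_adjoin (Or.inl hx'), hxx⟩
      · rw [Set.mem_singleton_iff] at hx
        rw [hx]
        exact ⟨s, Algebra.subset_adjoin (Or.inr rfl), hs⟩
    | algebraMap r =>
      refine ⟨algebraMap ℂ _ (conj r), Subalgebra.algebraMap_mem _ _, fun f g => ?_⟩
      change fm G (r • f) g = fm G f ((conj r) • g)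
      rw [fm_smul_left, fm_smul_right]
    | add x y _ _ hx hy =>
      obtain ⟨x', hx', hxx⟩ := hx
      obtain ⟨y', hy', hyy⟩ := hy
      refine ⟨x' + y', Subalgebra.add_mem _ hx' hy', fun f g => ?_⟩
      change fm G (x f + y f) g = fm G f (x' g + y' g)
      rw [fm_add_left, fm_add_right, hxx, hyy]
    | mul x y _ _ hx hy =>
      obtain ⟨x', hx', hxx⟩ := hx
      obtain ⟨y', hy', hyy⟩ := hy
      refine ⟨y' * x', Subalgebra.mul_mem _ hy' hx', fun f g => ?_⟩
      change fm G (x (y f)) g = fm G f (y' (x' g))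
      rw [hxx, hyy]
  exact hmax _ (fun b hb => Algebra.subset_adjoin (Or.inl hb)) h1 h2
    (Algebra.subset_adjoin (Or.inr rfl))

variable [CompleteSpace H]

lemma exists_adj {E : H →L[ℂ] H} (hE : E * E = E) (hE' : star E = E) (b : H →L[ℂ] H) :
    ∃ b' : H →L[ℂ] H, ∀ f g : H, fm (Jm E) (b f) g = fm (Jm E) f (b' g) := by
  refine ⟨Jm E * star b * Jm E, fun f g => ?_⟩
  change ⟪Jm E (b f), g⟫_ℂ = ⟪Jm E f, Jm E ((star b) (Jm E g))⟫_ℂ
  rw [← Jm_adj hE', Jm_apply_sq hE, Jm_adj hE']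
  exact (ContinuousLinearMap.adjoint_inner_right _ _ _).symm

/-- A maximal commutative symmetric algebra is its own commutant. -/
theorem max_commutant {E : H →L[ℂ] H} (hE : E * E = E) (hE' : star E = E)
    {B : Subalgebra ℂ (H →L[ℂ] H)} (hc : Comm B) (hB : Symm (Jm E) B)
    (hmax : ∀ B' : Subalgebra ℂ (H →L[ℂ] H), B ≤ B' → Comm B' → Symm (Jm E) B' → B' ≤ B)
    {b : H →L[ℂ] H} (hb : ∀ a ∈ B, a * b = b * a) : b ∈ B := by
  have hG := herm_Jm hE hE'
  have hnd := nondeg_Jm hE hE'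
  obtain ⟨b', hbb⟩ := exists_adj hE hE' b
  have hbb' := adj_symm hG hbb
  have hb' : ∀ a ∈ B, a * b' = b' * a := by
    intro a ha
    obtain ⟨a', ha', haa⟩ := hB a ha
    have haa' := adj_symm hG haa
    refine adj_unique hnd (b := a * b') (b' := b' * a) (a := b * a') (fun f g => ?_) fun f g => ?_
    · change fm (Jm E) (b (a' f)) g = fm (Jm E) f (a (b' g))
      rw [hbb, ← haa']
    · have h1 : b * a' = a' * b := (hb a' ha').symm
      rw [h1]
      change fm (Jm E) (a' (b f)) g = fm (Jm E) f (b' (a g))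
      rw [← haa', hbb]
  have h1 : b + b' ∈ B := max_sa hc hB hmax (fun f g => by
    change fm (Jm E) (b f + b' f) g = fm (Jm E) f (b g + b' g)
    rw [fm_add_left, fm_add_right, hbb, ← hbb', add_comm]) (fun a ha => by
    rw [mul_add, add_mul, hb a ha, hb' a ha])
  have h2 : Complex.I • (b - b') ∈ B := max_sa hc hB hmax (fun f g => by
    change fm (Jm E) (Complex.I • (b f - b' f)) g = fm (Jm E) f (Complex.I • (b g - b' g))
    rw [fm_smul_left, fm_smul_right, fm_sub_left, fm_sub_right, hbb, ← hbb', Complex.conj_I]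
    ring) (fun a ha => by
    rw [mul_smul_comm, smul_mul_assoc, mul_sub, sub_mul, hb a ha, hb' a ha])
  have e : b = (1 / 2 : ℂ) • (b + b') - (Complex.I / 2) • (Complex.I • (b - b')) := by
    rw [smul_smul]
    have h3 : Complex.I / 2 * Complex.I = -(1 / 2) := by
      rw [div_mul_eq_mul_div, Complex.I_mul_I]; ring
    rw [h3]
    module
  rw [e]
  exact B.sub_mem (B.smul_mem h1 _) (B.smul_mem h2 _)

/-- The statement that there are nonzero semidefinite invariant subspaces, for algebras which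
equal their commutant and contain neither a nonzero positive operator nor a nonzero operator `c`
with `c' c = 0`. -/
def ExistsSemi : Prop :=
  ∀ (V : Type) [NormedAddCommGroup V] [InnerProductSpace ℂ V] [CompleteSpace V] (F : V →L[ℂ] V)
    (B : Subalgebra ℂ (V →L[ℂ] V)), F * F = F → star F = F → Nontrivial V → Comm B →
    Symm (Jm F) B → (∀ b : V →L[ℂ] V, (∀ a ∈ B, a * b = b * a) → b ∈ B) →
    (∀ q ∈ B, (∀ f g : V, fm (Jm F) (q f) g = fm (Jm F) f (q g)) →
      (∀ v, 0 ≤ (fm (Jm F) (q v) v).re) → q = 0) →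
    (∀ c ∈ B, ∀ c' ∈ B, (∀ f g : V, fm (Jm F) (c f) g = fm (Jm F) f (c' g)) → c' * c = 0 →
      c = 0) →
    ∃ S : Submodule ℂ V, S ≠ ⊥ ∧ SemiInv (Jm F) B S

theorem solvable_of_existsSemi (hex : ExistsSemi) {E : H →L[ℂ] H} (hE : E * E = E)
    (hE' : star E = E) {A : Subalgebra ℂ (H →L[ℂ] H)} (hc : Comm A) (hA : Symm (Jm E) A)
    {N P : Submodule ℂ H} (hd : Dual (Jm E) A N P) : Solvable (Jm E) A N P := by
  by_contra hns
  obtain ⟨V, _, _, _, F, ρ, ht⟩ := exists_terminal hE hE' hA hd hns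
  have hG := herm_Jm ht.idem ht.star
  have hc₀ : Comm ρ.range := by
    rintro _ ⟨a, rfl⟩ _ ⟨b, rfl⟩
    have h1 : a * b = b * a := Subtype.ext (hc a a.2 b b.2)
    change ρ a * ρ b = ρ b * ρ a
    rw [← map_mul, h1, map_mul]
  have hA₀ : Symm (Jm F) ρ.range := by
    rintro _ ⟨a, rfl⟩
    obtain ⟨a', ha', haa⟩ := hA a a.2
    exact ⟨ρ ⟨a', ha'⟩, ⟨_, rfl⟩, ht.adj a ⟨a', ha'⟩ haa⟩
  obtain ⟨B, hAB, hBc, hBs, hmax⟩ := exists_maxAlg hc₀ hA₀
  have hsemi : ∀ S : Submodule ℂ V, SemiInv (Jm F) B S → S = ⊥ := by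
    intro S hS
    exact ht.semi S (fun a v hv => hS.1 _ (hAB ⟨a, rfl⟩) v hv) hS.2
  obtain ⟨S, hS0, hS⟩ := hex V F B ht.idem ht.star ht.nontriv hBc hBs
    (fun b hb => max_commutant ht.idem ht.star hBc hBs hmax hb)
    (fun q hq hqs hpos => pos_zero ht.idem ht.star hBc hBs (fun S h1 h2 => hsemi S ⟨h1, h2⟩) hq
      hqs hpos)
    (fun c hcB c' hcB' hcc h0 => by
      have h1 : LinearMap.range (c : V →ₗ[ℂ] V) = ⊥ := by
        refine hsemi _ ⟨?_, ?_⟩
        · rintro a ha _ ⟨h, rfl⟩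
          exact ⟨a h, hBc.apply hcB ha h⟩
        · left
          rintro _ ⟨h, rfl⟩
          change 0 ≤ (fm (Jm F) (c h) (c h)).re
          have h2 : c' (c h) = 0 := by
            calc c' (c h) = (c' * c) h := rfl
              _ = 0 := by rw [h0]; rfl
          rw [hcc, h2, fm_zero_right, Complex.zero_re]
      ext h
      have h3 : c h ∈ LinearMap.range (c : V →ₗ[ℂ] V) := ⟨h, rfl⟩
      rwa [h1, Submodule.mem_bot] at h3)
  exact hS0 (hsemi S hS)

end Pool.Agent.H91.PH
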