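import Pool.Agent.H91.PH.Mean

/-!
Change of coordinates in which a bounded group of isometries of the form is unitary.
-/

set_option autoImplicit false

open scoped InnerProductSpace ComplexConjugate

namespace Pool.Agent.H91.PH

lemma Mean.real {S : Type*} (m : Mean S) (φ : S → ℂ) (K : ℝ) (hφ : ∀ s, ‖φ s‖ ≤ K)
    (hr : ∀ s, (φ s).im = 0) : (m.M φ).im = 0 := by
  have h1 : ∀ c : ℂ, c.re = 0 → 0 ≤ (c * m.M φ).re := by
    intro c hc
    rw [← m.smul c φ K hφ]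
    refine m.pos _ (‖c‖ * K) 0 (fun s => ?_) (fun s => ?_)
    · rw [norm_mul]
      have := hφ s
      gcongr
    · rw [Complex.mul_re, hc, hr s]
      simp
  have h2 := h1 Complex.I (by simp)
  have h3 := h1 (-Complex.I) (by simp)
  simp [Complex.mul_re] at h2 h3
  linarith

variable {H : Type} [NormedAddCommGroup H] [InnerProductSpace ℂ H] [CompleteSpace H]

lemma adj_left (T : H →L[ℂ] H) (x y : H) : ⟪(star T) x, y⟫_ℂ = ⟪x, T y⟫_ℂ :=
  ContinuousLinearMap.adjoint_inner_left T y x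

lemma ext_of_inner {S T : H →L[ℂ] H} (h : ∀ x y, ⟪S x, y⟫_ℂ = ⟪T x, y⟫_ℂ) : S = T := by
  ext x
  exact ext_inner_right ℂ fun y => h x y

/-- Polar decomposition of an invertible self-adjoint operator in a symmetric form. -/
lemma exists_polar {G : H →L[ℂ] H} (hG : star G = G) (hu : IsUnit G) :
    ∃ S Si Jp : H →L[ℂ] H, star S = S ∧ star Jp = Jp ∧ S * Si = 1 ∧ Si * S = 1 ∧ Jp * Jp = 1 ∧
      S * Jp * S = G ∧ ∀ b, G * b = b * G → S * b = b * S ∧ Jp * b = b * Jp := by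
  have hsa : IsSelfAdjoint G := hG
  have h0 : (0 : ℝ) ∉ spectrum ℝ G := spectrum.zero_notMem ℝ hu
  have hne : ∀ x ∈ spectrum ℝ G, x ≠ 0 := fun x hx h => h0 (h ▸ hx)
  have hpos : ∀ x ∈ spectrum ℝ G, 0 < √|x| := fun x hx =>
    Real.sqrt_pos.mpr (abs_pos.mpr (hne x hx))
  have c1 : ContinuousOn (fun x : ℝ => √|x|) (spectrum ℝ G) := by fun_prop
  have c2 : ContinuousOn (fun x : ℝ => (√|x|)⁻¹) (spectrum ℝ G) :=
    c1.inv₀ fun x hx => (hpos x hx).ne'
  have c3 : ContinuousOn (fun x : ℝ => x / |x|) (spectrum ℝ G) :=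
    continuousOn_id.div (by fun_prop) fun x hx => abs_ne_zero.mpr (hne x hx)
  refine ⟨cfc (fun x : ℝ => √|x|) G, cfc (fun x : ℝ => (√|x|)⁻¹) G, cfc (fun x : ℝ => x / |x|) G,
    ?_, ?_, ?_, ?_, ?_, ?_, ?_⟩
  · exact cfc_predicate (fun x : ℝ => √|x|) G
  · exact cfc_predicate (fun x : ℝ => x / |x|) G
  · rw [← cfc_mul _ _ G c1 c2, ← cfc_const_one ℝ G]
    refine cfc_congr fun x hx => ?_
    exact mul_inv_cancel₀ (hpos x hx).ne'
  · rw [← cfc_mul _ _ G c2 c1, ← cfc_const_one ℝ G]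
    refine cfc_congr fun x hx => ?_
    exact inv_mul_cancel₀ (hpos x hx).ne'
  · rw [← cfc_mul _ _ G c3 c3, ← cfc_const_one ℝ G]
    refine cfc_congr fun x hx => ?_
    have := hne x hx
    rw [div_mul_div_comm, abs_mul_abs_self, div_self (mul_ne_zero this this)]
  · have c13 : ContinuousOn (fun x : ℝ => √|x| * (x / |x|)) (spectrum ℝ G) := c1.mul c3
    rw [← cfc_mul _ _ G c1 c3, ← cfc_mul (fun x : ℝ => √|x| * (x / |x|)) _ G c13 c1]
    conv_rhs => rw [← cfc_id' ℝ G]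
    refine cfc_congr fun x hx => ?_
    have h1 := hne x hx
    have h2 : √|x| * √|x| = |x| := Real.mul_self_sqrt (abs_nonneg x)
    have h3 : |x| ≠ 0 := abs_ne_zero.mpr h1
    calc √|x| * (x / |x|) * √|x| = (√|x| * √|x|) * (x / |x|) := by ring
      _ = x := by rw [h2]; field_simp
  · intro b hb
    have hb' : Commute G b := hb
    exact ⟨hb'.cfc_real _, hb'.cfc_real _⟩

lemma Jm_sq {E : H →L[ℂ] H} (hE : E * E = E) : Jm E * Jm E = 1 := by
  unfold Jm
  have : (E - (1 - E)) * (E - (1 - E)) = 4 • (E * E) - 4 • E + 1 := by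
    simp only [mul_sub, sub_mul, mul_one, one_mul]
    abel
  rw [this, hE]
  abel

lemma Jm_star {E : H →L[ℂ] H} (hE' : star E = E) : star (Jm E) = Jm E := by
  unfold Jm
  rw [star_sub, star_sub, star_one, hE']

/-- For a bounded abelian group of isometries of the form there are coordinates in which the form
is given by a projection and the group is unitary and commutes with the projection. -/
theorem exists_renorm {S : Type*} [AddCommGroup S] (m : Mean S)
    (hm : ∀ t : S, m.Inv (fun s => s + t)) {E : H →L[ℂ] H} (hE : E * E = E) (hE' : star E = E)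
    (u : S → H →L[ℂ] H) (hu0 : u 0 = 1) (hu : ∀ s t, u (s + t) = u s * u t) {C : ℝ} (hC : 0 < C)
    (hb : ∀ s x, ‖u s x‖ ≤ C * ‖x‖) (hiso : ∀ s x y, fm (Jm E) (u s x) (u s y) = fm (Jm E) x y) :
    ∃ Θ Θi E' : H →L[ℂ] H, Θ * Θi = 1 ∧ Θi * Θ = 1 ∧ E' * E' = E' ∧ star E' = E' ∧
      (∀ x y, fm (Jm E) x y = fm (Jm E') (Θ x) (Θ y)) ∧
      ∀ s, ∃ v : H →L[ℂ] H, Θ * u s = v * Θ ∧ star v * v = 1 ∧ v * star v = 1 ∧
        v * E' = E' * v := by
  -- the averaged inner product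
  obtain ⟨W, hW⟩ := exists_avg m (fun s => star (u s) * u s) (C * C) (by
    intro s x
    have h1 : ‖(star (u s)) (u s x)‖ ≤ C * ‖u s x‖ := by
      have h2 : ‖star (u s)‖ ≤ C := by
        rw [norm_star]
        exact ContinuousLinearMap.opNorm_le_bound _ hC.le (hb s)
      calc ‖(star (u s)) (u s x)‖ ≤ ‖star (u s)‖ * ‖u s x‖ := ContinuousLinearMap.le_opNorm _ _
        _ ≤ C * ‖u s x‖ := by gcongr
    calc ‖(star (u s) * u s) x‖ = ‖(star (u s)) (u s x)‖ := rfl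
      _ ≤ C * ‖u s x‖ := h1
      _ ≤ C * (C * ‖x‖) := by
        have := hb s x
        gcongr
      _ = C * C * ‖x‖ := by ring)
  have hW' : ∀ x y, ⟪W x, y⟫_ℂ = m.M (fun s => ⟪u s x, u s y⟫_ℂ) := by
    intro x y
    rw [hW]
    congr 1
    ext s
    exact adj_left (u s) (u s x) y
  have hbd : ∀ x y s, ‖⟪u s x, u s y⟫_ℂ‖ ≤ (C * ‖x‖) * (C * ‖y‖) := by
    intro x y s
    refine (norm_inner_le_norm _ _).trans ?_
    have h1 := hb s x
    have h2 := hb s y
    gcongr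
  have hWinv : ∀ t x y, ⟪W (u t x), u t y⟫_ℂ = ⟪W x, y⟫_ℂ := by
    intro t x y
    rw [hW', hW', ← hm t _ _ (hbd x y)]
    congr 1
    ext s
    rw [hu]
    rfl
  have hself : ∀ s x, ⟪u s x, u s x⟫_ℂ = ((‖u s x‖ ^ 2 : ℝ) : ℂ) := by
    intro s x
    rw [inner_self_eq_norm_sq_to_K]
    push_cast
    rfl
  have hWim : ∀ x, (⟪W x, x⟫_ℂ).im = 0 := by
    intro x
    rw [hW']
    refine m.real _ _ (hbd x x) fun s => ?_
    rw [hself, Complex.ofReal_im]
  have hWre : ∀ x, C⁻¹ ^ 2 * ‖x‖ ^ 2 ≤ (⟪W x, x⟫_ℂ).re := by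
    intro x
    rw [hW']
    refine m.pos _ _ _ (hbd x x) fun s => ?_
    rw [hself, Complex.ofReal_re]
    have h1 : ‖x‖ ≤ C * ‖u s x‖ := by
      have h2 : u (-s) (u s x) = x := by
        calc u (-s) (u s x) = (u (-s) * u s) x := rfl
          _ = x := by rw [← hu, neg_add_cancel, hu0]; rfl
      calc ‖x‖ = ‖u (-s) (u s x)‖ := by rw [h2]
        _ ≤ C * ‖u s x‖ := hb _ _
    have h3 : C⁻¹ * ‖x‖ ≤ ‖u s x‖ := by
      rw [inv_mul_le_iff₀ hC]
      exact h1
    rw [← mul_pow]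
    gcongr
  have hWpos : 0 ≤ W := by
    rw [ContinuousLinearMap.nonneg_iff_isPositive]
    refine ContinuousLinearMap.isPositive_iff_complex _ |>.mpr ?_
    intro x
    have h1 : ⟪W x, x⟫_ℂ = (((⟪W x, x⟫_ℂ).re : ℝ) : ℂ) := by
      apply Complex.ext
      · rw [Complex.ofReal_re]
      · rw [hWim, Complex.ofReal_im]
    have h2 := hWre x
    have h3 : 0 ≤ C⁻¹ ^ 2 * ‖x‖ ^ 2 := by positivity
    rw [RCLike.re_to_complex]
    exact ⟨h1.symm, h3.trans h2⟩
  have hWunit : IsUnit W := by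
    refine ContinuousLinearMap.isUnit_of_forall_le_norm_inner_map W
      (c := ⟨C⁻¹ ^ 2, by positivity⟩) (by
        have : 0 < C⁻¹ ^ 2 := by positivity
        exact this) fun x => ?_
    have h1 := hWre x
    have h2 : (⟪W x, x⟫_ℂ).re ≤ ‖⟪W x, x⟫_ℂ‖ := Complex.re_le_norm _
    change ‖x‖ ^ 2 * C⁻¹ ^ 2 ≤ _
    linarith
  obtain ⟨Wi, hWi1, hWi2⟩ : ∃ Wi : H →L[ℂ] H, W * Wi = 1 ∧ Wi * W = 1 := by
    obtain ⟨w, hw⟩ := hWunit
    exact ⟨((w⁻¹ : (H →L[ℂ] H)ˣ) : H →L[ℂ] H), by rw [← hw]; exact w.mul_inv,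
      by rw [← hw]; exact w.inv_mul⟩
  set K := CFC.sqrt W with hK
  have hKK : K * K = W := CFC.sqrt_mul_sqrt_self W hWpos
  have hKs : star K = K := IsSelfAdjoint.of_nonneg (CFC.sqrt_nonneg W)
  set Ki := Wi * K with hKi
  have hKi1 : Ki * K = 1 := by rw [hKi, mul_assoc, hKK, hWi2]
  have hKi2 : K * Ki = 1 := by
    have h1 : K * (K * Wi) = 1 := by rw [← mul_assoc, hKK, hWi1]
    have h2 : Ki = K * Wi := by
      calc Ki = Ki * (K * (K * Wi)) := by rw [h1, mul_one]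
        _ = (Ki * K) * (K * Wi) := (mul_assoc _ _ _).symm
        _ = K * Wi := by rw [hKi1, one_mul]
    rw [h2, h1]
  have hKis : star Ki = Ki := by
    have h1 : star Ki * K = 1 := by
      rw [← hKs, ← star_mul, hKi2, star_one]
    calc star Ki = star Ki * (K * Ki) := by rw [hKi2, mul_one]
      _ = (star Ki * K) * Ki := (mul_assoc _ _ _).symm
      _ = Ki := by rw [h1, one_mul]
  clear_value Ki
  have a1 : ∀ x, K (Ki x) = x := fun x => by
    calc K (Ki x) = (K * Ki) x := rfl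
      _ = x := by rw [hKi2]; rfl
  have a2 : ∀ x, Ki (K x) = x := fun x => by
    calc Ki (K x) = (Ki * K) x := rfl
      _ = x := by rw [hKi1]; rfl
  have a3 : ∀ x y, ⟪K x, K y⟫_ℂ = ⟪W x, y⟫_ℂ := by
    intro x y
    rw [← proj_adj hKs (K x) y, ← hKK]
    rfl
  -- the group in the new coordinates
  let v : S → H →L[ℂ] H := fun s => K * u s * Ki
  have hv : ∀ s x, v s x = K (u s (Ki x)) := fun s x => rfl
  have hv1 : ∀ s, star (v s) * v s = 1 := by
    intro s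
    refine ext_of_inner fun x y => ?_
    calc ⟪(star (v s) * v s) x, y⟫_ℂ = ⟪(star (v s)) (v s x), y⟫_ℂ := rfl
      _ = ⟪v s x, v s y⟫_ℂ := adj_left _ _ _
      _ = ⟪W (u s (Ki x)), u s (Ki y)⟫_ℂ := by rw [hv, hv, a3]
      _ = ⟪W (Ki x), Ki y⟫_ℂ := hWinv _ _ _
      _ = ⟪K (Ki x), K (Ki y)⟫_ℂ := (a3 _ _).symm
      _ = ⟪x, y⟫_ℂ := by rw [a1, a1]
  have hvv : ∀ s, v s * v (-s) = 1 := by
    intro s
    calc v s * v (-s) = K * u s * (Ki * K) * u (-s) * Ki := by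
          simp only [v, mul_assoc]
      _ = K * (u s * u (-s)) * Ki := by rw [hKi1, mul_one]; simp only [mul_assoc]
      _ = 1 := by rw [← hu, add_neg_cancel, hu0, mul_one, hKi2]
  have hv2 : ∀ s, v s * star (v s) = 1 := by
    intro s
    have h1 : star (v s) = v (-s) := by
      calc star (v s) = star (v s) * (v s * v (-s)) := by rw [hvv, mul_one]
        _ = (star (v s) * v s) * v (-s) := (mul_assoc _ _ _).symm
        _ = v (-s) := by rw [hv1, one_mul]
    rw [h1, hvv]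
  -- the form in the new coordinates
  set G := Ki * Jm E * Ki with hG
  have hGs : star G = G := by
    rw [hG, star_mul, star_mul, hKis, Jm_star hE', mul_assoc]
  have hGunit : IsUnit G := by
    have h1 : G * (K * Jm E * K) = 1 := by
      calc G * (K * Jm E * K) = Ki * Jm E * (Ki * K) * Jm E * K := by
            rw [hG]; simp only [mul_assoc]
        _ = Ki * (Jm E * Jm E) * K := by rw [hKi1, mul_one]; simp only [mul_assoc]
        _ = 1 := by rw [Jm_sq hE, mul_one, hKi1]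
    have h2 : (K * Jm E * K) * G = 1 := by
      calc (K * Jm E * K) * G = K * Jm E * (K * Ki) * Jm E * Ki := by
            rw [hG]; simp only [mul_assoc]
        _ = K * (Jm E * Jm E) * Ki := by rw [hKi2, mul_one]; simp only [mul_assoc]
        _ = 1 := by rw [Jm_sq hE, mul_one, hKi2]
    exact ⟨⟨G, K * Jm E * K, h1, h2⟩, rfl⟩
  have hGf : ∀ x y, ⟪G (K x), K y⟫_ℂ = fm (Jm E) x y := by
    intro x y
    have h1 : G (K x) = Ki (Jm E (Ki (K x))) := rfl
    rw [h1, a2, proj_adj hKis, a2]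
    rfl
  have hGv : ∀ s, G * v s = v s * G := by
    intro s
    have h1 : star (v s) * (G * v s) = G := by
      refine ext_of_inner fun x y => ?_
      calc ⟪(star (v s) * (G * v s)) x, y⟫_ℂ = ⟪(star (v s)) (G (v s x)), y⟫_ℂ := rfl
        _ = ⟪G (v s x), v s y⟫_ℂ := adj_left _ _ _
        _ = fm (Jm E) (u s (Ki x)) (u s (Ki y)) := by rw [hv, hv, hGf]
        _ = fm (Jm E) (Ki x) (Ki y) := hiso _ _ _
        _ = ⟪G (K (Ki x)), K (Ki y)⟫_ℂ := (hGf _ _).symm
        _ = ⟪G x, y⟫_ℂ := by rw [a1, a1]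
    calc G * v s = (v s * star (v s)) * (G * v s) := by rw [hv2, one_mul]
      _ = v s * (star (v s) * (G * v s)) := by rw [mul_assoc]
      _ = v s * G := by rw [h1]
  obtain ⟨S₁, S₂, Jp, hS1, hJ1, hS2, hS3, hJ2, hSJ, hcomm⟩ := exists_polar hGs hGunit
  have hhalf : (1 / 2 : ℂ) * (1 / 2) = 1 / 4 := by norm_num
  refine ⟨S₁ * K, Ki * S₂, (1 / 2 : ℂ) • (1 + Jp), ?_, ?_, ?_, ?_, ?_, ?_⟩
  · calc S₁ * K * (Ki * S₂) = S₁ * (K * Ki) * S₂ := by simp only [mul_assoc]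
      _ = 1 := by rw [hKi2, mul_one, hS2]
  · calc Ki * S₂ * (S₁ * K) = Ki * (S₂ * S₁) * K := by simp only [mul_assoc]
      _ = 1 := by rw [hS3, mul_one, hKi1]
  · rw [smul_mul_smul_comm, mul_add, add_mul, add_mul, hJ2, mul_one, mul_one, one_mul, hhalf]
    have : (1 : H →L[ℂ] H) + Jp + (Jp + 1) = (2 : ℂ) • (1 + Jp) := by
      rw [two_smul]; abel
    rw [this, smul_smul]
    norm_num
  · have h4 : star (1 / 2 : ℂ) = 1 / 2 := by
      apply Complex.ext <;> simp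
    rw [star_smul, star_add, star_one, hJ1, h4]
  · intro x y
    have h1 : Jm ((1 / 2 : ℂ) • (1 + Jp)) = Jp := by
      unfold Jm
      have : (1 / 2 : ℂ) • (1 + Jp) - (1 - (1 / 2 : ℂ) • (1 + Jp)) = (1 : ℂ) • (1 + Jp) - 1 := by
        have h3 : (1 : ℂ) = 1 / 2 + 1 / 2 := by norm_num
        rw [h3, add_smul]
        have h4 : (1 / 2 + 1 / 2 : ℂ) = 1 := by norm_num
        rw [h4]
        abel
      rw [this, one_smul]
      abel
    rw [h1, ← hGf x y, ← hSJ]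
    have h2 : (S₁ * Jp * S₁) (K x) = S₁ (Jp (S₁ (K x))) := rfl
    rw [h2, proj_adj hS1]
    rfl
  · intro s
    have h1 := hcomm (v s) (hGv s)
    refine ⟨v s, ?_, hv1 s, hv2 s, ?_⟩
    · calc S₁ * K * u s = S₁ * (K * u s * (Ki * K)) := by rw [hKi1, mul_one, mul_assoc]
        _ = S₁ * v s * K := by simp only [v, mul_assoc]
        _ = v s * S₁ * K := by rw [h1.1]
        _ = v s * (S₁ * K) := by rw [mul_assoc]
    · rw [mul_smul_comm, smul_mul_assoc, mul_add, add_mul, h1.2, mul_one, one_mul]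

end Pool.Agent.H91.PH
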