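import Pool.Agent.H91.PH.Lax

/-!
The completion of a vector space with respect to a positive semidefinite Hermitian form.
-/

set_option autoImplicit false

open scoped InnerProductSpace ComplexConjugate

namespace Pool.Agent.H91.PH

/-- A vector space `V` with a form `X`. -/
@[nolint unusedArguments]
def PreV (V : Type) (_ : V → V → ℂ) : Type := V

section

variable {V : Type} [AddCommGroup V] [Module ℂ V] (X : V → V → ℂ)

@[reducible]
def preGroup : AddCommGroup (PreV V X) := inferInstanceAs (AddCommGroup V)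

attribute [local instance] preGroup

@[reducible]
def preModule : Module ℂ (PreV V X) := inferInstanceAs (Module ℂ V)

attribute [local instance] preModule

/-- A positive semidefinite Hermitian form. -/
structure PosForm (X : V → V → ℂ) : Prop where
  add : ∀ h h' g, X (h + h') g = X h g + X h' g
  smul : ∀ (c : ℂ) h g, X (c • h) g = conj c * X h g
  herm : ∀ h g, X g h = conj (X h g)
  pos : ∀ h, 0 ≤ (X h h).re

theorem exists_completion {X : V → V → ℂ} (hX : PosForm X) :
    ∃ (K : Type) (_ : NormedAddCommGroup K) (_ : InnerProductSpace ℂ K) (_ : CompleteSpace K)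
      (x : V →ₗ[ℂ] K), (∀ h g, ⟪x h, x g⟫_ℂ = X h g) ∧ DenseRange x := by
  let c : PreInnerProductSpace.Core ℂ (PreV V X) :=
    { inner := fun h g => X h g
      conj_inner_symm := fun h g => (hX.herm g h).symm
      re_inner_nonneg := fun h => hX.pos h
      add_left := fun h h' g => hX.add h h' g
      smul_left := fun h g r => hX.smul r h g }
  let i1 : SeminormedAddCommGroup (PreV V X) :=
    InnerProductSpace.Core.toSeminormedAddCommGroup (c := c)
  let i2 : InnerProductSpace ℂ (PreV V X) := InnerProductSpace.ofCore c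
  refine ⟨UniformSpace.Completion (PreV V X), inferInstance, inferInstance, inferInstance,
    { toFun := fun v => UniformSpace.Completion.coe' (α := PreV V X) v
      map_add' := fun v w => UniformSpace.Completion.coe_add (α := PreV V X) v w
      map_smul' := fun r v => UniformSpace.Completion.coe_smul (M := ℂ) (X := PreV V X) r v },
    ?_, ?_⟩
  · intro h g
    exact UniformSpace.Completion.inner_coe (𝕜 := ℂ) (E := PreV V X) h g
  · exact UniformSpace.Completion.denseRange_coe (α := PreV V X)

end

/-- The completion of a subspace with respect to a positive semidefinite form. -/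
theorem exists_rep {H : Type} [AddCommGroup H] [Module ℂ H] {M : Submodule ℂ H} {X : H → H → ℂ}
    (add : ∀ h ∈ M, ∀ h' ∈ M, ∀ g ∈ M, X (h + h') g = X h g + X h' g)
    (smul : ∀ c : ℂ, ∀ h ∈ M, ∀ g ∈ M, X (c • h) g = conj c * X h g)
    (herm : ∀ h ∈ M, ∀ g ∈ M, X g h = conj (X h g)) (pos : ∀ h ∈ M, 0 ≤ (X h h).re) :
    ∃ (K : Type) (_ : NormedAddCommGroup K) (_ : InnerProductSpace ℂ K) (_ : CompleteSpace K)
      (x : H →ₗ[ℂ] K), (∀ h ∈ M, ∀ g ∈ M, ⟪x h, x g⟫_ℂ = X h g) ∧
        ∀ v : K, ∀ ε > 0, ∃ h ∈ M, ‖v - x h‖ < ε := by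
  have hX : PosForm (fun h g : M => X h g) :=
    ⟨fun h h' g => add h h.2 h' h'.2 g g.2, fun c h g => smul c h h.2 g g.2,
      fun h g => herm h h.2 g g.2, fun h => pos h h.2⟩
  obtain ⟨K, i1, i2, i3, x₀, hx, hd⟩ := exists_completion hX
  obtain ⟨x, hx'⟩ := LinearMap.exists_extend x₀
  have hx'' : ∀ h : M, x h = x₀ h := fun h => by rw [← hx']; rfl
  refine ⟨K, i1, i2, i3, x, fun h hh g hg => ?_, fun v ε hε => ?_⟩
  · rw [hx'' ⟨h, hh⟩, hx'' ⟨g, hg⟩, hx]
  · obtain ⟨h, hh⟩ := Metric.dense_iff.mp hd v ε hε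
    obtain ⟨h1, h', rfl⟩ := hh
    refine ⟨h', h'.2, ?_⟩
    rw [hx'']
    rw [Metric.mem_ball, dist_comm, dist_eq_norm] at h1
    exact h1

end Pool.Agent.H91.PH
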