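import Pool.Agent.H91.PH.Init

/-!
Either an invariant dual pair has an invariant maximal extension, or there is a nonzero Krein
space on which the algebra acts without nonzero semidefinite invariant subspaces.
-/

set_option autoImplicit false

open scoped InnerProductSpace ComplexConjugate

namespace Pool.Agent.H91.PH

section

variable {H : Type} [NormedAddCommGroup H] [InnerProductSpace ℂ H] [CompleteSpace H]

lemma qop_add (E : H →L[ℂ] H) (D : Submodule ℂ H) (a b : H →L[ℂ] H) :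
    qop E D (a + b) = qop E D a + qop E D b := by
  ext v
  congr 1
  change (qsp E D).orthogonalProjectionOnto (a v + b v) =
    (qsp E D).orthogonalProjectionOnto (a v) + (qsp E D).orthogonalProjectionOnto (b v)
  rw [map_add]

lemma qop_smul (E : H →L[ℂ] H) (D : Submodule ℂ H) (c : ℂ) (a : H →L[ℂ] H) :
    qop E D (c • a) = c • qop E D a := by
  ext v
  congr 1
  change (qsp E D).orthogonalProjectionOnto (c • a v) =
    c • (qsp E D).orthogonalProjectionOnto (a v)
  rw [map_smul]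

lemma perp_closed (G : H →L[ℂ] H) (D : Submodule ℂ H) : IsClosed (perp G D : Set H) := by
  have h1 : (perp G D : Set H) = ⋂ d ∈ D, {z | fm G d z = 0} := by
    ext z
    rw [SetLike.mem_coe, mem_perp]
    simp
  rw [h1]
  exact isClosed_biInter fun d _ => isClosed_eq (continuous_fm_right d) continuous_const

end

variable {H : Type} [NormedAddCommGroup H] [InnerProductSpace ℂ H] [CompleteSpace H]

/-- The data of a Krein space with an action of `A` which has no nonzero semidefinite invariant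
subspace. -/
structure Terminal (E : H →L[ℂ] H) (A : Subalgebra ℂ (H →L[ℂ] H)) (V : Type)
    [NormedAddCommGroup V] [InnerProductSpace ℂ V] [CompleteSpace V] (F : V →L[ℂ] V)
    (ρ : A →ₐ[ℂ] (V →L[ℂ] V)) : Prop where
  idem : F * F = F
  star : star F = F
  nontriv : Nontrivial V
  adj : ∀ a a' : A, (∀ f g : H, fm (Jm E) ((a : H →L[ℂ] H) f) g =
    fm (Jm E) f ((a' : H →L[ℂ] H) g)) → ∀ f g : V, fm (Jm F) (ρ a f) g = fm (Jm F) f (ρ a' g)
  norm : ∀ a : A, ‖ρ a‖ ≤ ‖(a : H →L[ℂ] H)‖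
  semi : ∀ S : Submodule ℂ V, (∀ a, ∀ v ∈ S, ρ a v ∈ S) →
    ((∀ v ∈ S, 0 ≤ (fm (Jm F) v v).re) ∨ (∀ v ∈ S, (fm (Jm F) v v).re ≤ 0)) → S = ⊥
  pos : ∀ q : A, (∀ h : H, 0 ≤ (fm (Jm E) ((q : H →L[ℂ] H) h) h).re) →
    ∀ v : V, 0 ≤ (fm (Jm F) (ρ q v) v).re
  lim : ∀ (a : A) (C : ℝ), (∀ h g : H, ∀ ε > 0, ∃ r : A, ρ r = 0 ∧ ‖(r : H →L[ℂ] H)‖ ≤ C ∧
    ‖fm (Jm E) (((r : H →L[ℂ] H) - (a : H →L[ℂ] H)) h) g‖ < ε) → ρ a = 0

theorem exists_terminal {E : H →L[ℂ] H} (hE : E * E = E) (hE' : star E = E)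
    {A : Subalgebra ℂ (H →L[ℂ] H)} (hA : Symm (Jm E) A) {N P : Submodule ℂ H}
    (hd : Dual (Jm E) A N P) (hns : ¬ Solvable (Jm E) A N P) :
    ∃ (V : Type) (_ : NormedAddCommGroup V) (_ : InnerProductSpace ℂ V) (_ : CompleteSpace V)
      (F : V →L[ℂ] V) (ρ : A →ₐ[ℂ] (V →L[ℂ] V)), Terminal E A V F ρ := by
  classical
  have hG := herm_Jm hE hE'
  obtain ⟨X₀, ho₀, hX₀P, hX₀N⟩ := exists_init hE hE' hA hd
  obtain ⟨M, X, ho, hext, hmax⟩ := exists_maxObj ho₀
  obtain ⟨K, _, _, _, L, _, _, _, x, y, hr⟩ := ho.exists_isRep hG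
  set E₁ := bE K L E with hE₁
  have hI : E₁ * E₁ = E₁ := bE_idem hE
  have hS : star E₁ = E₁ := bE_star hE'
  have hJ : Herm (Jm E₁) := herm_Jm hI hS
  set D := nd M x y with hD
  have hD0 : ∀ z ∈ D, ∀ w ∈ D, fm (Jm E₁) z w = 0 := nd_neutral hr
  have hDP : D ≤ perp (Jm E₁) D := fun z hz w hw => hD0 w hw z hz
  have hTD : ∀ a ∈ A, ∀ T, Ov M x y a T → ∀ z ∈ D, T z ∈ D := by
    rintro a ha T hT _ ⟨h, hh, rfl⟩
    rw [hT.emb hh]
    exact emb_mem_nd (ho.inv a ha h hh)
  have hTP : ∀ a ∈ A, ∀ T, Ov M x y a T → ∀ z ∈ perp (Jm E₁) D, T z ∈ perp (Jm E₁) D := by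
    intro a ha T hT z hz w hw
    obtain ⟨a', ha', haa⟩ := hA a ha
    obtain ⟨T', hT', -⟩ := exists_ov ho hr ha'
    have h1 := adj_symm hJ (hT.adj ho hr ha ha' haa hT')
    rw [h1]
    exact hz _ (hTD a' ha' T' hT' w hw)
  -- maximality
  have hW : ∀ W : Submodule ℂ (Big H K L), D ≤ W → W ≤ perp (Jm E₁) D →
      (∀ a ∈ A, ∀ T, Ov M x y a T → ∀ z ∈ W, T z ∈ W) →
      ((∀ z ∈ W, 0 ≤ (fm (Jm E₁) z z).re) ∨ (∀ z ∈ W, (fm (Jm E₁) z z).re ≤ 0)) → W ≤ D := by
    intro W h1 h2 h3 h4 z hz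
    obtain ⟨M', X', h5, h6, h7⟩ := grow hE hE' hA ho hr W h1 h2 h3 h4
    have h8 : z.fst ∈ M := hmax M' X' h5 h6 (h7 z hz)
    have h9 : emb x y z.fst ∈ D := emb_mem_nd h8
    have h10 : z - emb x y z.fst = 0 := perp_inj ho hr (Submodule.sub_mem _ (h2 hz) (hDP h9)) (by
      change z.fst - z.fst = 0
      rw [sub_self])
    rw [sub_eq_zero.mp h10]
    exact h9
  have hDc : IsClosed (D : Set (Big H K L)) := by
    have h1 : D.topologicalClosure ≤ D := by
      have h0 : D.topologicalClosure ≤ perp (Jm E₁) D :=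
        Submodule.topologicalClosure_minimal _ hDP (perp_closed _ _)
      refine hW _ D.le_topologicalClosure h0 ?_ ?_
      · intro a ha T hT z hz
        have h2 : (D : Set (Big H K L)) ⊆ T ⁻¹' (D.topologicalClosure : Set (Big H K L)) :=
          fun w hw => D.le_topologicalClosure (hTD a ha T hT w hw)
        have h3 : IsClosed (T ⁻¹' (D.topologicalClosure : Set (Big H K L))) :=
          D.isClosed_topologicalClosure.preimage T.continuous
        exact closure_minimal h2 h3 hz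
      · left
        intro z hz
        have h2 : z ∈ {z | fm (Jm E₁) z z = 0} := by
          have h4 : IsClosed {z | fm (Jm E₁) z z = 0} :=
            isClosed_eq continuous_fm_self continuous_const
          exact closure_minimal (fun w hw => hD0 w hw w hw) h4 hz
        have h3 : fm (Jm E₁) z z = 0 := h2
        rw [h3, Complex.zero_re]
    have h2 : D.topologicalClosure = D := le_antisymm h1 D.le_topologicalClosure
    rw [← h2]
    exact D.isClosed_topologicalClosure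
  -- the action
  have hτ : ∀ a : A, ∃ T, Ov M x y (a : H →L[ℂ] H) T ∧ ‖T‖ ≤ ‖(a : H →L[ℂ] H)‖ :=
    fun a => exists_ov ho hr a.2
  choose τ hτ hτn using hτ
  have hτu : ∀ (a : A) (T), Ov M x y (a : H →L[ℂ] H) T → T = τ a := fun a T hT =>
    hT.unique hr (hτ a)
  have τD : ∀ a : A, ∀ z ∈ D, τ a z ∈ D := fun a => hTD a a.2 _ (hτ a)
  have τP : ∀ a : A, ∀ z ∈ perp (Jm E₁) D, τ a z ∈ perp (Jm E₁) D := fun a => hTP a a.2 _ (hτ a)
  have τadj : ∀ a a' : A, (∀ f g : H, fm (Jm E) ((a : H →L[ℂ] H) f) g =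
      fm (Jm E) f ((a' : H →L[ℂ] H) g)) → ∀ z w, fm (Jm E₁) (τ a z) w = fm (Jm E₁) z (τ a' w) :=
    fun a a' haa => (hτ a).adj ho hr a.2 a'.2 haa (hτ a')
  have τone : τ 1 = 1 := (hτu 1 1 Ov.one).symm
  have τmul : ∀ a b : A, τ (a * b) = τ a * τ b := fun a b =>
    (hτu (a * b) _ (Ov.mul ho b.2 (hτ a) (hτ b))).symm
  have τadd : ∀ a b : A, τ (a + b) = τ a + τ b := fun a b =>
    (hτu (a + b) _ (Ov.add (hτ a) (hτ b))).symm
  have τsmul : ∀ (c : ℂ) (a : A), τ (c • a) = c • τ a := fun c a =>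
    (hτu (c • a) _ (Ov.smul c (hτ a))).symm
  let ρl : A →ₗ[ℂ] (qsp E₁ D →L[ℂ] qsp E₁ D) :=
    { toFun := fun a => qop E₁ D (τ a)
      map_add' := fun a b => by rw [τadd, qop_add]
      map_smul' := fun c a => by rw [τsmul, qop_smul]; rfl }
  let ρ : A →ₐ[ℂ] (qsp E₁ D →L[ℂ] qsp E₁ D) := AlgHom.ofLinearMap ρl
    (by change qop E₁ D (τ 1) = 1; rw [τone, qop_one])
    (fun a b => by
      change qop E₁ D (τ (a * b)) = qop E₁ D (τ a) * qop E₁ D (τ b)
      rw [τmul, qop_mul hI hS hDc hD0 (τD a) (τP b)])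
  have hρ : ∀ a, ρ a = qop E₁ D (τ a) := fun a => rfl
  have hfq : ∀ a : A, ∀ v w : qsp E₁ D,
      fm (Jm (qE E₁ D)) (ρ a v) w = fm (Jm E₁) (τ a v) (w : Big H K L) := fun a v w => by
    rw [hρ]; exact fm_qop hI hS hDc hD0 (τP a) v w
  rcases subsingleton_or_nontrivial (qsp E₁ D) with hsub | hnt
  · exfalso
    apply hns
    -- `D` is hypermaximal neutral
    have hDD : ∀ z, z ∈ D ↔ ∀ d ∈ D, fm (Jm E₁) d z = 0 := by
      intro z
      refine ⟨fun hz d hd => hD0 d hd z hz, fun hz => ?_⟩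
      obtain ⟨d, hd, k, hk, rfl⟩ := exists_decomp hI hS hDc hD0 (x := z) hz
      have h1 : (⟨k, hk⟩ : qsp E₁ D) = 0 := Subsingleton.elim _ _
      have h2 : k = 0 := congrArg Subtype.val h1
      rw [h2, add_zero]
      exact hd
    let P' : Submodule ℂ H :=
      { carrier := {h | ∃ w : L, mkB h (0 : K) w ∈ D}
        add_mem' := by
          rintro h h' ⟨w, hw⟩ ⟨w', hw'⟩
          refine ⟨w + w', ?_⟩
          have h1 := D.add_mem hw hw'
          have h2 : mkB h (0 : K) w + mkB h' (0 : K) w' = mkB (h + h') (0 : K) (w + w') :=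
            big_ext rfl (by change (0 : K) + 0 = 0; rw [add_zero]) rfl
          rwa [h2] at h1
        zero_mem' := ⟨0, by
          have h2 : mkB (0 : H) (0 : K) (0 : L) = 0 := big_ext rfl rfl rfl
          rw [h2]
          exact D.zero_mem⟩
        smul_mem' := by
          rintro c h ⟨w, hw⟩
          refine ⟨c • w, ?_⟩
          have h1 := D.smul_mem c hw
          have h2 : c • mkB h (0 : K) w = mkB (c • h) (0 : K) (c • w) :=
            big_ext rfl (by change c • (0 : K) = 0; rw [smul_zero]) rfl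
          rwa [h2] at h1 }
    have hpos : ∀ h ∈ P', 0 ≤ (fm (Jm E) h h).re := by
      rintro h ⟨w, hw⟩
      have h1 : fm (Jm E₁) (mkB h (0 : K) w) (mkB h (0 : K) w) =
        fm (Jm E) h h + ⟪(0 : K), (0 : K)⟫_ℂ - ⟪w, w⟫_ℂ := fm_big E _ _
      rw [hD0 _ hw _ hw, inner_zero_left, add_zero] at h1
      have h2 : fm (Jm E) h h = ⟪w, w⟫_ℂ := (sub_eq_zero.mp h1.symm)
      rw [h2]
      exact inner_self_nonneg (𝕜 := ℂ)
    have hfull : ∀ u : H, ∃ p ∈ P', E p = E u := by
      intro u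
      obtain ⟨d, hd, h1⟩ := neutral_full hI hS hDD (mkB u (0 : K) (0 : L))
      have h2 : E d.fst = E u := congrArg (fun z : Big H K L => z.fst) h1
      have h3 : d.snd.fst = 0 := congrArg (fun z : Big H K L => z.snd.fst) h1
      refine ⟨d.fst, ⟨d.snd.snd, ?_⟩, h2⟩
      have h4 : mkB d.fst (0 : K) d.snd.snd = d := big_ext rfl h3.symm rfl
      rw [h4]
      exact hd
    obtain ⟨hneg, hPP⟩ := full_graph hE hE' hpos hfull
    have hNM : N ≤ M := le_sup_left.trans hext.1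
    have hPM : P ≤ M := le_sup_right.trans hext.1
    refine ⟨perp (Jm E) P', P', ?_, ?_, hpos, hneg, fun y' => Iff.rfl, hPP, ?_, ?_⟩
    · rintro n hn h ⟨w, hw⟩
      have hn0 : y n = 0 := by
        have h1 := hr.ny (hNM hn)
        rw [hext.2 n (Submodule.mem_sup_left hn) n (Submodule.mem_sup_left hn), hX₀N n hn,
          Complex.zero_re] at h1
        exact norm_eq_zero.mp (pow_eq_zero_iff two_ne_zero |>.mp h1)
      have h1 : fm (Jm E₁) (mkB h (0 : K) w) (emb x y n) =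
        fm (Jm E) h n + ⟪(0 : K), x n⟫_ℂ - ⟪w, y n⟫_ℂ := fm_big E _ _
      rw [hD0 _ hw _ (emb_mem_nd (hNM hn)), inner_zero_left, add_zero, hn0, inner_zero_right,
        sub_zero] at h1
      exact h1.symm
    · intro p hp
      have hp0 : x p = 0 := by
        have h1 := hr.nx (hPM hp)
        rw [hext.2 p (Submodule.mem_sup_right hp) p (Submodule.mem_sup_right hp), hX₀P p hp,
          Complex.zero_re] at h1
        exact norm_eq_zero.mp (pow_eq_zero_iff two_ne_zero |>.mp h1)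
      refine ⟨y p, ?_⟩
      have h1 : mkB p (0 : K) (y p) = emb x y p := big_ext rfl hp0.symm rfl
      rw [h1]
      exact emb_mem_nd (hPM hp)
    · intro a ha n hn h hh
      obtain ⟨a', ha', haa⟩ := hA a ha
      rw [adj_symm hG haa]
      refine hn _ ?_
      obtain ⟨w, hw⟩ := hh
      obtain ⟨b, c, hT, h1, h2⟩ := hτ ⟨a', ha'⟩
      have h3 := τD ⟨a', ha'⟩ _ hw
      rw [hT] at h3
      refine ⟨c w, ?_⟩
      have h4 : mkB (a' h) (0 : K) (c w) = dg a' b c (mkB h (0 : K) w) :=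
        big_ext rfl (map_zero b).symm rfl
      rw [h4]
      exact h3
    · rintro a ha h ⟨w, hw⟩
      obtain ⟨b, c, hT, h1, h2⟩ := hτ ⟨a, ha⟩
      have h3 := τD ⟨a, ha⟩ _ hw
      rw [hT] at h3
      refine ⟨c w, ?_⟩
      have h4 : mkB (a h) (0 : K) (c w) = dg a b c (mkB h (0 : K) w) :=
        big_ext rfl (map_zero b).symm rfl
      rw [h4]
      exact h3
  · refine ⟨qsp E₁ D, inferInstance, inferInstance, inferInstance, qE E₁ D, ρ, ?_⟩
    have hFG : Herm (Jm (qE E₁ D)) := herm_Jm (qE_idem hI hS D) (qE_star hI hS D)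
    constructor
    · exact qE_idem hI hS D
    · exact qE_star hI hS D
    · exact hnt
    · intro a a' haa f g
      rw [hfq, τadj a a' haa, hFG, hfq, ← hJ]
    · intro a
      refine ContinuousLinearMap.opNorm_le_bound _ (norm_nonneg _) fun v => ?_
      have h1 := qop_norm (E := E₁) (D := D) (a := τ a) (r := 0) (C := ‖(a : H →L[ℂ] H)‖)
        (fun z _ => D.zero_mem) (by rw [add_zero]; exact hτn a) v
      exact h1
    · intro S hS1 hS2
      have hSD : ∀ s ∈ S, ∀ d ∈ D, fm (Jm E₁) (d + (s : Big H K L)) (d + (s : Big H K L)) =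
          fm (Jm (qE E₁ D)) s s := by
        intro s hs d hd
        have h1 : fm (Jm E₁) d (s : Big H K L) = 0 := fm_D_q hd s.2
        rw [fm_add_left, fm_add_right, fm_add_right, hD0 d hd d hd, h1, hJ.eq_zero h1,
          fm_q hI hS]
        ring
      have h1 : D ⊔ S.map (qsp E₁ D).subtype ≤ D := by
        refine hW _ le_sup_left ?_ ?_ ?_
        · refine sup_le hDP ?_
          rintro _ ⟨s, hs, rfl⟩
          exact qsp_le_perp s.2
        · intro a ha T hT z hz
          obtain ⟨d, hd, _, ⟨s, hs, rfl⟩, rfl⟩ := Submodule.mem_sup.mp hz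
          rw [hτu ⟨a, ha⟩ T hT, map_add]
          have h2 := qop_spec hI hS hDc hD0 (τP ⟨a, ha⟩) s
          have h3 : τ ⟨a, ha⟩ ((qsp E₁ D).subtype s) =
              (τ ⟨a, ha⟩ (s : Big H K L) - (qop E₁ D (τ ⟨a, ha⟩) s : qsp E₁ D)) +
                (qsp E₁ D).subtype (ρ ⟨a, ha⟩ s) := by
            rw [hρ]
            change τ ⟨a, ha⟩ (s : Big H K L) = (τ ⟨a, ha⟩ (s : Big H K L) -
              ((qop E₁ D (τ ⟨a, ha⟩) s : qsp E₁ D) : Big H K L)) +
                ((qop E₁ D (τ ⟨a, ha⟩) s : qsp E₁ D) : Big H K L)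
            rw [sub_add_cancel]
          rw [h3, ← add_assoc]
          exact Submodule.add_mem _ (Submodule.mem_sup_left (D.add_mem (τD _ d hd) h2))
            (Submodule.mem_sup_right ⟨_, hS1 _ s hs, rfl⟩)
        · rcases hS2 with h | h
          · left
            intro z hz
            obtain ⟨d, hd, _, ⟨s, hs, rfl⟩, rfl⟩ := Submodule.mem_sup.mp hz
            rw [Submodule.subtype_apply, hSD s hs d hd]
            exact h s hs
          · right
            intro z hz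
            obtain ⟨d, hd, _, ⟨s, hs, rfl⟩, rfl⟩ := Submodule.mem_sup.mp hz
            rw [Submodule.subtype_apply, hSD s hs d hd]
            exact h s hs
      rw [Submodule.eq_bot_iff]
      intro s hs
      have h2 : (s : Big H K L) ∈ D := h1 (Submodule.mem_sup_right ⟨s, hs, rfl⟩)
      have h3 := (mem_qsp.mp s.2).1 _ h2
      rw [inner_self_eq_zero] at h3
      exact Subtype.ext h3
    · intro q hq v
      rw [hfq]
      have hv : (v : Big H K L) ∈ perp (Jm E₁) D := qsp_le_perp v.2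
      have key : ∀ ε > 0, ε ≤ 1 →
          - (2 * ‖(q : H →L[ℂ] H)‖ * ε) ≤ (fm (Jm E₁) (τ q v) (v : Big H K L)).re := by
        intro ε hε hε1
        obtain ⟨d, hd, h1, h2⟩ := near ho hr (v : Big H K L) hε
        set z := (v : Big H K L) - d with hz
        have hzP : z ∈ perp (Jm E₁) D := Submodule.sub_mem _ hv (hDP hd)
        have e1 : fm (Jm E₁) (τ q v) (v : Big H K L) = fm (Jm E₁) (τ q z) z := by
          have h3 : (v : Big H K L) = z + d := by rw [hz, sub_add_cancel]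
          rw [h3, map_add, fm_add_left, fm_add_right, fm_add_right,
            hJ.eq_zero (τP q z hzP d hd), hzP _ (τD q d hd), hD0 _ (τD q d hd) d hd]
          ring
        rw [e1]
        have h3 : fm (Jm E₁) (τ q z) z = fm (Jm E) (τ q z).fst z.fst +
          ⟪(τ q z).snd.fst, z.snd.fst⟫_ℂ - ⟪(τ q z).snd.snd, z.snd.snd⟫_ℂ := fm_big E _ _
        rw [h3, (hτ q).fst, Complex.sub_re, Complex.add_re]
        have h4 := hq z.fst
        have hb : ∀ t : ℝ, 0 ≤ t → t < ε → ‖(q : H →L[ℂ] H)‖ * t * t ≤ ‖(q : H →L[ℂ] H)‖ * ε := by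
          intro t ht0 ht
          have : t * t ≤ ε := by nlinarith
          rw [mul_assoc]
          gcongr
        have h5 : |(⟪(τ q z).snd.fst, z.snd.fst⟫_ℂ).re| ≤ ‖(q : H →L[ℂ] H)‖ * ε := by
          have h6 : ‖(τ q z).snd.fst‖ ≤ ‖(q : H →L[ℂ] H)‖ * ‖z.snd.fst‖ := by
            refine le_of_pow_le_pow_left₀ two_ne_zero (by positivity) ?_
            rw [mul_pow]
            exact (hτ q).norm1 ho hr q.2 z
          calc |(⟪(τ q z).snd.fst, z.snd.fst⟫_ℂ).re| ≤ ‖⟪(τ q z).snd.fst, z.snd.fst⟫_ℂ‖ :=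
                Complex.abs_re_le_norm _
            _ ≤ ‖(τ q z).snd.fst‖ * ‖z.snd.fst‖ := norm_inner_le_norm _ _
            _ ≤ ‖(q : H →L[ℂ] H)‖ * ‖z.snd.fst‖ * ‖z.snd.fst‖ := by gcongr
            _ ≤ _ := hb _ (norm_nonneg _) h1
        have h7 : |(⟪(τ q z).snd.snd, z.snd.snd⟫_ℂ).re| ≤ ‖(q : H →L[ℂ] H)‖ * ε := by
          have h6 : ‖(τ q z).snd.snd‖ ≤ ‖(q : H →L[ℂ] H)‖ * ‖z.snd.snd‖ := by
            refine le_of_pow_le_pow_left₀ two_ne_zero (by positivity) ?_
            rw [mul_pow]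
            exact (hτ q).norm2 ho hr q.2 z
          calc |(⟪(τ q z).snd.snd, z.snd.snd⟫_ℂ).re| ≤ ‖⟪(τ q z).snd.snd, z.snd.snd⟫_ℂ‖ :=
                Complex.abs_re_le_norm _
            _ ≤ ‖(τ q z).snd.snd‖ * ‖z.snd.snd‖ := norm_inner_le_norm _ _
            _ ≤ ‖(q : H →L[ℂ] H)‖ * ‖z.snd.snd‖ * ‖z.snd.snd‖ := by gcongr
            _ ≤ _ := hb _ (norm_nonneg _) h2
        have h8 := (abs_le.mp h5).1
        have h9 := (abs_le.mp h7).2
        linarith
      by_contra hneg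
      push Not at hneg
      set t := (fm (Jm E₁) (τ q v) (v : Big H K L)).re with ht
      have h1 : 0 < - t / (2 * ‖(q : H →L[ℂ] H)‖ + 1) := by
        have := norm_nonneg (q : H →L[ℂ] H)
        apply div_pos <;> linarith
      have h2 := key (min 1 (- t / (2 * ‖(q : H →L[ℂ] H)‖ + 1))) (lt_min one_pos h1)
        (min_le_left _ _)
      have h3 : 2 * ‖(q : H →L[ℂ] H)‖ * min 1 (- t / (2 * ‖(q : H →L[ℂ] H)‖ + 1)) < - t := by
        have h4 := norm_nonneg (q : H →L[ℂ] H)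
        calc 2 * ‖(q : H →L[ℂ] H)‖ * min 1 (- t / (2 * ‖(q : H →L[ℂ] H)‖ + 1))
            ≤ 2 * ‖(q : H →L[ℂ] H)‖ * (- t / (2 * ‖(q : H →L[ℂ] H)‖ + 1)) := by
              gcongr; exact min_le_right _ _
          _ < - t := by
              rw [mul_div_assoc', div_lt_iff₀ (by positivity)]
              nlinarith
      linarith
    · intro a C hlim
      have hnd := nondeg_Jm (qE_idem hI hS D) (qE_star hI hS D)
      ext v
      congr 1
      change ρ a v = 0
      refine hnd _ fun w => ?_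
      apply hFG.eq_zero
      rw [hfq]
      have hv : (v : Big H K L) ∈ perp (Jm E₁) D := qsp_le_perp v.2
      have hw : (w : Big H K L) ∈ perp (Jm E₁) D := qsp_le_perp w.2
      have key : ∀ ε > 0, ‖fm (Jm E₁) (τ a v) (w : Big H K L)‖ ≤
          ε * (1 + 2 * (|C| + ‖(a : H →L[ℂ] H)‖) * ‖v‖) := by
        intro ε hε
        obtain ⟨d, hd, h1, h2⟩ := near ho hr (w : Big H K L) hε
        set z := (w : Big H K L) - d with hz
        obtain ⟨r, hr0, hrC, h3⟩ := hlim (v : Big H K L).fst z.fst ε hε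
        have hT := Ov.add (hτ r) (Ov.smul (-1) (hτ a))
        have e0 : (r : H →L[ℂ] H) + (-1 : ℂ) • (a : H →L[ℂ] H) = r - a := by
          rw [neg_one_smul, sub_eq_add_neg]
        rw [e0] at hT
        set T := τ r + (-1 : ℂ) • τ a with hTdef
        have e1 : fm (Jm E₁) (τ r v) (w : Big H K L) = 0 := by
          rw [← hfq, hr0]
          exact fm_zero_left w
        have hTv : T v ∈ perp (Jm E₁) D :=
          hTP _ (A.sub_mem r.2 a.2) T hT _ hv
        have e2 : fm (Jm E₁) (T v) z = - fm (Jm E₁) (τ a v) (w : Big H K L) := by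
          rw [hz, fm_sub_right, hJ.eq_zero (hTv d hd), sub_zero, hTdef]
          change fm (Jm E₁) (τ r v + (-1 : ℂ) • τ a v) (w : Big H K L) = _
          rw [fm_add_left, e1, zero_add, fm_smul_left]
          simp
        have e3 : fm (Jm E₁) (T v) z = fm (Jm E) (T v).fst z.fst +
          ⟪(T v).snd.fst, z.snd.fst⟫_ℂ - ⟪(T v).snd.snd, z.snd.snd⟫_ℂ := fm_big E _ _
        rw [hT.fst] at e3
        have hTn : ‖T v‖ ≤ (|C| + ‖(a : H →L[ℂ] H)‖) * ‖v‖ := by
          have h4 := hT.norm_le ho hr (A.sub_mem r.2 a.2)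
          have h5 : ‖(r : H →L[ℂ] H) - (a : H →L[ℂ] H)‖ ≤ |C| + ‖(a : H →L[ℂ] H)‖ :=
            (norm_sub_le _ _).trans (add_le_add (hrC.trans (le_abs_self C)) le_rfl)
          calc ‖T v‖ ≤ ‖T‖ * ‖(v : Big H K L)‖ := T.le_opNorm _
            _ ≤ (|C| + ‖(a : H →L[ℂ] H)‖) * ‖v‖ :=
              mul_le_mul (h4.trans h5) (le_of_eq (Submodule.coe_norm v)) (norm_nonneg _)
                (by positivity)
        have h4 : ‖⟪(T v).snd.fst, z.snd.fst⟫_ℂ‖ ≤ (|C| + ‖(a : H →L[ℂ] H)‖) * ‖v‖ * ε :=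
          (norm_inner_le_norm _ _).trans
            (mul_le_mul ((norm_snd_fst_le _).trans hTn) h1.le (norm_nonneg _) (by positivity))
        have h5 : ‖⟪(T v).snd.snd, z.snd.snd⟫_ℂ‖ ≤ (|C| + ‖(a : H →L[ℂ] H)‖) * ‖v‖ * ε :=
          (norm_inner_le_norm _ _).trans
            (mul_le_mul ((norm_snd_snd_le _).trans hTn) h2.le (norm_nonneg _) (by positivity))
        have h6 : ‖fm (Jm E₁) (τ a v) (w : Big H K L)‖ = ‖fm (Jm E₁) (T v) z‖ := by
          rw [e2, norm_neg]
        rw [h6, e3]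
        calc ‖fm (Jm E) (((r : H →L[ℂ] H) - a) (v : Big H K L).fst) z.fst +
              ⟪(T v).snd.fst, z.snd.fst⟫_ℂ - ⟪(T v).snd.snd, z.snd.snd⟫_ℂ‖
            ≤ ‖fm (Jm E) (((r : H →L[ℂ] H) - a) (v : Big H K L).fst) z.fst‖ +
              ‖⟪(T v).snd.fst, z.snd.fst⟫_ℂ‖ + ‖⟪(T v).snd.snd, z.snd.snd⟫_ℂ‖ :=
              (norm_sub_le _ _).trans (add_le_add (norm_add_le _ _) le_rfl)
          _ ≤ ε * (1 + 2 * (|C| + ‖(a : H →L[ℂ] H)‖) * ‖v‖) := by
              have := h3.le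
              nlinarith
      by_contra hne
      have hpos : 0 < ‖fm (Jm E₁) (τ a v) (w : Big H K L)‖ := norm_pos_iff.mpr hne
      set t := ‖fm (Jm E₁) (τ a v) (w : Big H K L)‖ with ht
      set B := 1 + 2 * (|C| + ‖(a : H →L[ℂ] H)‖) * ‖v‖ with hB
      have hBpos : 0 < B := by positivity
      have h1 := key (t / (2 * B)) (by positivity)
      have h2 : t / (2 * B) * B = t / 2 := by
        field_simp
      rw [h2] at h1
      linarith

end Pool.Agent.H91.PH
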